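import Mathlib

/-! Stable set polytope, clique polytope and a descent lemma relating them. -/

set_option autoImplicit false
open Classical Finset

namespace Pool.Agent.Lib.MP_ae9f52_co

variable {V : Type} (G : SimpleGraph V)

/-- indicator vector -/
noncomputable def ind (I : Finset V) : V → ℝ := fun v => if v ∈ I then 1 else 0

/-- independent subsets of `S` -/
noncomputable def inds (S : Finset V) : Finset (Finset V) :=
  S.powerset.filter (fun I : Finset V => G.IsIndepSet (↑I : Set V))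

/-- stable set polytope -/
def Stab (S : Finset V) : Set (V → ℝ) := convexHull ℝ (ind '' (↑(inds G S) : Set (Finset V)))

/-- clique polytope -/
def Q (S : Finset V) : Set (V → ℝ) :=
  {x | (∀ v, 0 ≤ x v) ∧ (∀ v, v ∉ S → x v = 0) ∧
    ∀ K : Finset V, K ⊆ S → G.IsClique (↑K : Set V) → ∑ v ∈ K, x v ≤ 1}

variable {G}

theorem mem_inds {S I : Finset V} : I ∈ inds G S ↔ I ⊆ S ∧ G.IsIndepSet (↑I : Set V) := by
  simp [inds]

theorem convex_Stab (S : Finset V) : Convex ℝ (Stab G S) := convex_convexHull _ _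

theorem ind_mem {S I : Finset V} (h : I ∈ inds G S) : ind I ∈ Stab G S :=
  subset_convexHull _ _ ⟨I, h, rfl⟩

theorem isCompact_Stab (S : Finset V) : IsCompact (Stab G S) :=
  Set.Finite.isCompact_convexHull ℝ ((Finset.finite_toSet _).image _)

theorem Stab_mono {S T : Finset V} (h : S ⊆ T) : Stab G S ⊆ Stab G T := by
  apply convexHull_mono
  apply Set.image_mono
  intro I hI
  simp only [Finset.mem_coe, mem_inds] at hI ⊢
  exact ⟨hI.1.trans h, hI.2⟩

theorem exists_law {S : Finset V} {z : V → ℝ} (hz : z ∈ Stab G S) :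
    ∃ c : Finset V → ℝ, (∀ I, 0 ≤ c I) ∧ ∑ I ∈ inds G S, c I = 1 ∧
      ∀ v, z v = ∑ I ∈ inds G S, c I * ind I v := by
  have : Stab G S ⊆ {z | ∃ c : Finset V → ℝ, (∀ I, 0 ≤ c I) ∧ ∑ I ∈ inds G S, c I = 1 ∧
      ∀ v, z v = ∑ I ∈ inds G S, c I * ind I v} := by
    apply convexHull_min
    · rintro _ ⟨I, hI, rfl⟩
      refine ⟨fun J => if J = I then 1 else 0, fun J => by dsimp only; split_ifs <;> norm_num, ?_, ?_⟩
      · rw [Finset.sum_ite_eq']; simp [Finset.mem_coe.1 hI]
      · intro v
        simp only [ite_mul, one_mul, zero_mul]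
        rw [Finset.sum_ite_eq']; simp [Finset.mem_coe.1 hI]
    · rintro x ⟨c, hc0, hc1, hc⟩ y ⟨d, hd0, hd1, hd⟩ a b ha hb hab
      refine ⟨fun J => a * c J + b * d J, fun J => by have := hc0 J; have := hd0 J; positivity, ?_, ?_⟩
      · rw [Finset.sum_add_distrib, ← Finset.mul_sum, ← Finset.mul_sum, hc1, hd1]; linarith
      · intro v
        simp only [Pi.add_apply, Pi.smul_apply, smul_eq_mul, hc v, hd v, Finset.mul_sum,
          ← Finset.sum_add_distrib]
        apply Finset.sum_congr rfl; intros; ring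
  exact this hz

theorem mem_Stab_of_sum {S : Finset V} {ι : Type} (Ω : Finset ι) (p : ι → ℝ) (f : ι → V → ℝ)
    (h0 : ∀ i ∈ Ω, 0 ≤ p i) (h1 : ∑ i ∈ Ω, p i = 1) (hf : ∀ i ∈ Ω, f i ∈ Stab G S) :
    (fun v => ∑ i ∈ Ω, p i * f i v) ∈ Stab G S := by
  have := (convex_Stab (G := G) S).sum_mem h0 h1 hf
  convert this using 1
  ext v; simp [Finset.sum_apply]

theorem Stab_nonneg {S : Finset V} {z : V → ℝ} (hz : z ∈ Stab G S) (v : V) : 0 ≤ z v := by
  obtain ⟨c, h0, -, h⟩ := exists_law hz
  rw [h]; apply Finset.sum_nonneg; intro I _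
  apply mul_nonneg (h0 I); unfold ind; split_ifs <;> norm_num

theorem isCompact_Q (S : Finset V) : IsCompact (Q G S) := by
  have h1 : IsCompact (Set.pi Set.univ (fun v : V => Set.Icc (0:ℝ) 1)) :=
    isCompact_univ_pi (fun _ => isCompact_Icc)
  apply h1.of_isClosed_subset
  · have : Q G S = (⋂ v, {x : V → ℝ | 0 ≤ x v}) ∩ ((⋂ v, ⋂ (_ : v ∉ S), {x : V → ℝ | x v = 0}) ∩
        ⋂ K : Finset V, ⋂ (_ : K ⊆ S), ⋂ (_ : G.IsClique (↑K : Set V)),
          {x : V → ℝ | ∑ v ∈ K, x v ≤ 1}) := by
      ext x; simp [Q]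
    rw [this]
    refine IsClosed.inter (isClosed_iInter fun v => isClosed_le continuous_const (continuous_apply v))
      (IsClosed.inter (isClosed_iInter fun v => isClosed_iInter fun _ =>
        isClosed_eq (continuous_apply v) continuous_const)
      (isClosed_iInter fun K => isClosed_iInter fun _ => isClosed_iInter fun _ =>
        isClosed_le (continuous_finsetSum _ fun v _ => continuous_apply v) continuous_const))
  · rintro x ⟨h0, hS, hK⟩ v -
    refine ⟨h0 v, ?_⟩
    by_cases hv : v ∈ S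
    · have := hK {v} (by simpa using hv) (by simp)
      simpa using this
    · rw [hS v hv]; norm_num

theorem zero_mem_Q (S : Finset V) : (0 : V → ℝ) ∈ Q G S := by
  refine ⟨fun _ => le_rfl, fun _ _ => rfl, fun K _ _ => by simp⟩

/-- Descent lemma: if tight cliques can always be hit with probability `t`, then
`t` times the clique polytope lies in the stable set polytope. -/
theorem descent {S : Finset V} {t : ℝ} (ht : 0 < t)
    (H : ∀ x ∈ Q G S, ∃ z ∈ Stab G S, (∀ v, x v = 0 → z v = 0) ∧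
      ∀ K : Finset V, K ⊆ S → G.IsClique (↑K : Set V) → ∑ v ∈ K, x v = 1 → t ≤ ∑ v ∈ K, z v) :
    ∀ x ∈ Q G S, t • x ∈ Stab G S := by
  intro x hx
  by_contra hn
  obtain ⟨f, u, hf, hu⟩ := geometric_hahn_banach_closed_point (convex_Stab S)
    (isCompact_Stab S).isClosed hn
  obtain ⟨y, hy, hmax⟩ := (isCompact_Q (G := G) S).exists_isMaxOn ⟨0, zero_mem_Q S⟩
    f.continuous.continuousOn
  obtain ⟨z, hz, hz0, hzK⟩ := H y hy
  have e1 : ∀ᶠ ε : ℝ in nhdsWithin 0 (Set.Ioi 0), ε * t < 1 := by
    apply Filter.Eventually.filter_mono nhdsWithin_le_nhds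
    have : Continuous fun ε : ℝ => ε * t := by fun_prop
    exact this.continuousAt.eventually_lt continuousAt_const (by simp)
  have e2 : ∀ᶠ ε : ℝ in nhdsWithin 0 (Set.Ioi 0), ∀ v ∈ S, ε * z v ≤ y v := by
    rw [Finset.eventually_all]
    intro v _
    rcases (hy.1 v).eq_or_lt with h | h
    · exact Filter.Eventually.of_forall fun ε => by rw [hz0 v h.symm, ← h]; simp
    · apply Filter.Eventually.filter_mono nhdsWithin_le_nhds
      have : Continuous fun ε : ℝ => ε * z v := by fun_prop
      exact (this.continuousAt.eventually_lt continuousAt_const (by simpa using h)).mono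
        fun _ h => h.le
  have e3 : ∀ᶠ ε : ℝ in nhdsWithin 0 (Set.Ioi 0), ∀ K ∈ S.powerset,
      ∑ v ∈ K, y v < 1 → ε * t ≤ 1 - ∑ v ∈ K, y v := by
    rw [Finset.eventually_all]
    intro K _
    by_cases h : ∑ v ∈ K, y v < 1
    · apply Filter.Eventually.filter_mono nhdsWithin_le_nhds
      have : Continuous fun ε : ℝ => ε * t := by fun_prop
      exact (this.continuousAt.eventually_lt continuousAt_const (by simpa using h)).mono
        fun _ h _ => h.le
    · exact Filter.Eventually.of_forall fun ε h' => absurd h' h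
  obtain ⟨ε, ⟨⟨h1, h2⟩, h3⟩, hε⟩ := (((e1.and e2).and e3).and self_mem_nhdsWithin).exists
  have hε : 0 < ε := hε
  have hd : 0 < 1 - ε * t := by linarith
  have hmem : (1 - ε * t)⁻¹ • (y - ε • z) ∈ Q G S := by
    refine ⟨fun v => ?_, fun v hv => ?_, fun K hK hc => ?_⟩
    · simp only [Pi.smul_apply, Pi.sub_apply, smul_eq_mul]
      apply mul_nonneg (inv_pos.2 hd).le
      by_cases hv : v ∈ S
      · linarith [h2 v hv]
      · rw [hz0 v (hy.2.1 v hv), hy.2.1 v hv]; simp
    · simp [hz0 v (hy.2.1 v hv), hy.2.1 v hv]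
    · simp only [Pi.smul_apply, Pi.sub_apply, smul_eq_mul]
      rw [← Finset.mul_sum, Finset.sum_sub_distrib, ← Finset.mul_sum, inv_mul_le_iff₀ hd, mul_one]
      rcases (hy.2.2 K hK hc).eq_or_lt with h | h
      · have := hzK K hK hc h
        nlinarith
      · have := h3 K (Finset.mem_powerset.2 hK) h
        have : 0 ≤ ∑ v ∈ K, z v := Finset.sum_nonneg fun v _ => Stab_nonneg hz v
        nlinarith
  have h4 := hmax hmem
  have h5 := hmax hx
  simp only [Set.mem_ofPred_eq, map_smul, map_sub, smul_eq_mul] at h4 h5 hu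
  have h6 := hf z hz
  rw [inv_mul_le_iff₀ hd] at h4
  have : t * f y ≤ f z := by
    have : ε * (t * f y) ≤ ε * f z := by nlinarith
    exact le_of_mul_le_mul_left this hε
  nlinarith

/-- restriction of a vector -/
noncomputable def res (A : Finset V) (x : V → ℝ) : V → ℝ := fun v => if v ∈ A then x v else 0

theorem res_mem_Q {S A : Finset V} {x : V → ℝ} (hx : x ∈ Q G S) (hA : A ⊆ S) :
    res A x ∈ Q G A := by
  refine ⟨fun v => ?_, fun v hv => by simp [res, hv], fun K hK hc => ?_⟩
  · unfold res; split_ifs; exacts [hx.1 v, le_rfl]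
  · rw [Finset.sum_congr rfl (fun v hv => show res A x v = x v by simp [res, hK hv])]
    exact hx.2.2 K (hK.trans hA) hc

theorem sum_ind_le_one {I K : Finset V} (hI : G.IsIndepSet (↑I : Set V))
    (hK : G.IsClique (↑K : Set V)) : ∑ v ∈ K, ind I v = if (K ∩ I).Nonempty then 1 else 0 := by
  have : ∑ v ∈ K, ind I v = ((K ∩ I).card : ℝ) := by
    simp only [ind]
    rw [Finset.sum_ite, Finset.sum_const_zero, add_zero, Finset.sum_const, Finset.filter_mem_eq_inter]
    simp
  rw [this]
  split_ifs with h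
  · have : (K ∩ I).card = 1 := by
      apply le_antisymm _ h.card_pos
      rw [Finset.card_le_one]
      intro a ha b hb
      by_contra hne
      rw [Finset.mem_inter] at ha hb
      exact hI ha.2 hb.2 hne (hK ha.1 hb.1 hne)
    simp [this]
  · rw [Finset.not_nonempty_iff_eq_empty.1 h]; simp

/-- every set in the support of a law with exact marginals meets the tight cliques -/
theorem exists_hit {A : Finset V} {x : V → ℝ} (hx : x ∈ Stab G A) {v : V} (hv : 0 < x v) :
    ∃ I ∈ inds G A, v ∈ I ∧ ∀ K : Finset V, G.IsClique (↑K : Set V) → ∑ u ∈ K, x u = 1 →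
      (K ∩ I).Nonempty := by
  obtain ⟨c, h0, h1, h⟩ := exists_law hx
  have : ∃ I ∈ inds G A, 0 < c I * ind I v := by
    by_contra hn
    push Not at hn
    have := Finset.sum_nonpos hn
    linarith [h v]
  obtain ⟨I, hI, hpos⟩ := this
  have hvI : v ∈ I := by
    by_contra hn; simp [ind, hn] at hpos
  have hc : 0 < c I := by simpa [ind, hvI] using hpos
  refine ⟨I, hI, hvI, fun K hK hs => ?_⟩
  by_contra hn
  have e : ∑ u ∈ K, x u = ∑ J ∈ inds G A, c J * (if (K ∩ J).Nonempty then 1 else 0) := by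
    simp only [h]
    rw [Finset.sum_comm]
    apply Finset.sum_congr rfl
    intro J hJ
    rw [← Finset.mul_sum, sum_ind_le_one (mem_inds.1 hJ).2 hK]
  have : ∑ J ∈ inds G A, c J * (if (K ∩ J).Nonempty then 1 else 0) < ∑ J ∈ inds G A, c J := by
    apply Finset.sum_lt_sum
    · intro J _; split_ifs; simp; simpa using h0 J
    · exact ⟨I, hI, by simpa [hn] using hc⟩
  linarith

/-- Independent sampling of two parts, with priority to the first. -/
theorem prod_mem {S A B : Finset V} (hA : A ⊆ S) (hB : B ⊆ S) (hAB : Disjoint A B)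
    {x y : V → ℝ} (hx : x ∈ Stab G A) (hy : y ∈ Stab G B)
    (hc : ∀ v ∈ B, G.IsClique (↑(A.filter (G.Adj v)) : Set V)) :
    (fun v => x v + y v * (1 - ∑ u ∈ A.filter (G.Adj v), x u)) ∈ Stab G S := by
  obtain ⟨c, c0, c1, hcx⟩ := exists_law hx
  obtain ⟨d, d0, d1, hdy⟩ := exists_law hy
  have key := mem_Stab_of_sum (G := G) (S := S) (inds G A ×ˢ inds G B) (fun p => c p.1 * d p.2)
    (fun p => ind (p.1 ∪ p.2.filter (fun v => ∀ u ∈ p.1, ¬ G.Adj v u)))
    (fun p _ => mul_nonneg (c0 _) (d0 _))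
    (by rw [Finset.sum_product]; simp only [← Finset.mul_sum, d1, mul_one, c1])
    (by
      rintro ⟨I, J⟩ hp
      rw [Finset.mem_product] at hp
      obtain ⟨hI, hJ⟩ := hp
      rw [mem_inds] at hI hJ
      apply ind_mem
      rw [mem_inds]
      constructor
      · exact Finset.union_subset (hI.1.trans hA) ((Finset.filter_subset _ _).trans (hJ.1.trans hB))
      · intro a ha b hb hne hab
        simp only [Finset.coe_union, Finset.coe_filter, Set.mem_union, Finset.mem_coe,
          Set.mem_ofPred_eq] at ha hb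
        rcases ha with ha | ha <;> rcases hb with hb | hb
        · exact hI.2 ha hb hne hab
        · exact hb.2 a ha hab.symm
        · exact ha.2 b hb hab
        · exact hJ.2 ha.1 hb.1 hne hab)
  convert key using 1
  ext v
  rw [Finset.sum_product]
  have e : ∀ I ∈ inds G A, ∀ J ∈ inds G B,
      ind (I ∪ J.filter (fun v => ∀ u ∈ I, ¬ G.Adj v u)) v =
        ind I v + ind J v * (1 - ∑ u ∈ A.filter (G.Adj v), ind I u) := by
    intro I hI J hJ
    rw [mem_inds] at hI hJ
    by_cases hvJ : v ∈ J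
    · have hvI : v ∉ I := fun h => Finset.disjoint_left.1 hAB (hI.1 h) (hJ.1 hvJ)
      rw [sum_ind_le_one hI.2 (hc v (hJ.1 hvJ))]
      by_cases hn : (A.filter (G.Adj v) ∩ I).Nonempty
      · obtain ⟨u, hu⟩ := hn
        have hu' := hu
        rw [Finset.mem_inter, Finset.mem_filter] at hu'
        rw [if_pos ⟨u, hu⟩]
        have : ¬ ∀ u ∈ I, ¬ G.Adj v u := fun h => h u hu'.2 hu'.1.2
        simp [ind, hvI, this]
      · rw [if_neg hn]
        have : ∀ u ∈ I, ¬ G.Adj v u := fun u hu h =>
          hn ⟨u, by simp [hu, h, hI.1 hu]⟩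
        simp only [ind, Finset.mem_union, Finset.mem_filter, hvI, hvJ, false_or, true_and]
        rw [if_pos this]; simp
    · simp [ind, hvJ]
  rw [Finset.sum_congr rfl (fun I hI => Finset.sum_congr rfl (fun J hJ => by rw [e I hI J hJ]))]
  have e2 : ∑ u ∈ A.filter (G.Adj v), x u =
      ∑ I ∈ inds G A, c I * ∑ u ∈ A.filter (G.Adj v), ind I u := by
    simp only [hcx, Finset.mul_sum]; rw [Finset.sum_comm]
  rw [e2, hcx v, hdy v]
  have e3 : ∀ I ∈ inds G A, ∑ J ∈ inds G B, c I * d J *
      (ind I v + ind J v * (1 - ∑ u ∈ A.filter (G.Adj v), ind I u)) =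
      c I * ind I v + (∑ J ∈ inds G B, d J * ind J v) *
        (c I - c I * ∑ u ∈ A.filter (G.Adj v), ind I u) := by
    intro I _
    have : c I * ind I v = ∑ J ∈ inds G B, d J * (c I * ind I v) := by
      rw [← Finset.sum_mul, d1, one_mul]
    rw [Finset.sum_mul, this, ← Finset.sum_add_distrib]
    apply Finset.sum_congr rfl; intros; ring
  rw [Finset.sum_congr rfl e3, Finset.sum_add_distrib, ← Finset.mul_sum, Finset.sum_sub_distrib, c1]

/-- properly two-coloured sets are perfect -/
theorem bip_mem {S : Finset V} (ψ : V → Prop)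
    (hψ : ∀ u ∈ S, ∀ v ∈ S, G.Adj u v → (ψ u ↔ ¬ ψ v)) : ∀ x ∈ Q G S, x ∈ Stab G S := by
  have := descent (G := G) (S := S) (t := 1) one_pos (fun x hx => ?_)
  · simpa using this
  set I := S.filter (fun v => x v ≠ 0 ∧ (ψ v ∨ ∀ u ∈ S, G.Adj v u → x u = 0)) with hI
  have hind : G.IsIndepSet (↑I : Set V) := by
    intro a ha b hb _ hab
    simp only [hI, Finset.coe_filter, Set.mem_ofPred_eq] at ha hb
    rcases ha.2.2 with h | h
    · rcases hb.2.2 with h' | h'
      · exact (hψ a ha.1 b hb.1 hab).1 h h'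
      · exact ha.2.1 (h' a ha.1 hab.symm)
    · exact hb.2.1 (h b hb.1 hab)
  refine ⟨ind I, ind_mem (mem_inds.2 ⟨Finset.filter_subset _ _, hind⟩), fun v hv => ?_,
    fun K hK hc hs => ?_⟩
  · simp [ind, hI, hv]
  · rw [sum_ind_le_one hind hc, if_pos]
    obtain ⟨a, ha, hxa⟩ : ∃ a ∈ K, x a ≠ 0 := by
      by_contra hn; push Not at hn
      rw [Finset.sum_eq_zero hn] at hs; norm_num at hs
    by_cases hb : ∃ b ∈ K, b ≠ a ∧ x b ≠ 0
    · obtain ⟨b, hb, hba, hxb⟩ := hb
      have := hψ a (hK ha) b (hK hb) (hc ha hb hba.symm)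
      by_cases h : ψ a
      · exact ⟨a, by simp [hI, ha, hK ha, hxa, h]⟩
      · have : ψ b := by tauto
        exact ⟨b, by simp [hI, hb, hK hb, hxb, this]⟩
    · push Not at hb
      have h1 : x a = 1 := by
        rw [← hs, Finset.sum_eq_single a (fun b hb' hne => hb b hb' hne) (fun h => absurd ha h)]
      refine ⟨a, ?_⟩
      simp only [hI, Finset.mem_inter, Finset.mem_filter, ha, hK ha, true_and]
      refine ⟨hxa, Or.inr fun u hu hadj => ?_⟩
      have := hx.2.2 {a, u} (by intro w hw; simp at hw; rcases hw with rfl | rfl; exacts [hK ha, hu])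
        (by simpa [SimpleGraph.isClique_pair] using fun _ => hadj)
      rw [Finset.sum_pair hadj.ne] at this
      linarith [hx.1 u]

/-- final conversion to a fractional colouring -/
theorem colouring_of {S : Finset V} {r : ℝ} (hr : 0 < r) (H : ∀ x ∈ Q G S, r⁻¹ • x ∈ Stab G S)
    (w : V → ℝ) (hw : ∀ v, 0 ≤ w v) (M : ℝ)
    (hM : ∀ C : Finset V, C ⊆ S → G.IsClique (↑C : Set V) → ∑ v ∈ C, w v ≤ M) :
    ∃ c : Finset V → ℝ, (∀ I, 0 ≤ c I) ∧
      (∀ v ∈ S, w v ≤ ∑ I ∈ S.powerset.filter
          (fun I : Finset V => G.IsIndepSet (↑I : Set V) ∧ v ∈ I), c I) ∧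
      ∑ I ∈ S.powerset.filter (fun I : Finset V => G.IsIndepSet (↑I : Set V)), c I ≤ r * M := by
  have hM0 : 0 ≤ M := by simpa using hM ∅ (by simp) (by simp)
  rcases hM0.eq_or_lt with h | h
  · refine ⟨fun _ => 0, fun _ => le_rfl, fun v hv => ?_, by simp [← h]⟩
    have := hM {v} (by simpa using hv) (by simp)
    simp at this ⊢; linarith
  · have hx : res S (fun v => w v / M) ∈ Q G S := by
      refine ⟨fun v => ?_, fun v hv => by simp [res, hv], fun K hK hc => ?_⟩
      · unfold res; split_ifs; exacts [div_nonneg (hw v) h.le, le_rfl]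
      · rw [Finset.sum_congr rfl (fun v hv => show res S _ v = w v / M by simp [res, hK hv]),
          ← Finset.sum_div, div_le_one h]
        exact hM K hK hc
    obtain ⟨c, c0, c1, hc⟩ := exists_law (H _ hx)
    refine ⟨fun I => r * M * c I, fun I => by have := c0 I; positivity, fun v hv => ?_, ?_⟩
    · have e := hc v
      simp only [Pi.smul_apply, res, hv, if_true, smul_eq_mul] at e
      rw [← Finset.mul_sum]
      have : ∑ I ∈ S.powerset.filter (fun I : Finset V => G.IsIndepSet (↑I : Set V) ∧ v ∈ I), c I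
          = ∑ I ∈ inds G S, c I * ind I v := by
        rw [inds, ← Finset.filter_filter, Finset.sum_filter (p := fun I => v ∈ I)]
        apply Finset.sum_congr rfl; intro I _; simp [ind]
      rw [this, ← e]
      field_simp; rfl
    · rw [← Finset.mul_sum]
      have : ∑ I ∈ S.powerset.filter (fun I : Finset V => G.IsIndepSet (↑I : Set V)), c I = 1 := c1
      rw [this, mul_one]

end Pool.Agent.Lib.MP_ae9f52_co
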