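import Pool.Agent.Lib.MP_ae9f52_co.CertData

/-! Kernel check of the potential certificate. -/

set_option autoImplicit false

namespace Pool.Agent.Lib.MP_ae9f52_co

/-- conjunction over an initial segment -/
def allN (n : ℕ) (f : ℕ → Bool) : Bool := Nat.rec true (fun k acc => f k && acc) n

theorem allN_spec {n : ℕ} {f : ℕ → Bool} (h : allN n f = true) : ∀ k < n, f k = true := by
  induction n with
  | zero => intro k hk; omega
  | succ n ih =>
    have h' : (f n && allN n f) = true := h
    rw [Bool.and_eq_true] at h'
    intro k hk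
    rcases Nat.lt_succ_iff_lt_or_eq.mp hk with hk | rfl
    · exact ih h'.2 k hk
    · exact h'.1

/-- eager evaluation of a numeral -/
def force (n : ℕ) (f : ℕ → Bool) : Bool := Nat.rec (f 0) (fun k _ => f (Nat.succ k)) n

theorem force_eq (n : ℕ) (f : ℕ → Bool) : force n f = f n := by cases n <;> rfl

/-- byte of a number -/
def dig (A i : ℕ) : ℕ := Nat.mod (Nat.shiftRight A (Nat.add (Nat.mul 8 i) 16)) 256

/-- the local rule -/
def tab (a b c : ℕ) : ℕ := (bigT >>> (3 * (25 * a + 5 * b + c))) % 8

/-- code of a state -/
def code (h p ff fb : ℕ) : ℕ := ((h * 2 + p) * 5 + ff) * 5 + fb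

/-- offset of the target -/
def offA (h : ℕ) : ℕ := if h = 0 then 1 else if h = 1 then 20 else if h = 2 then 19 else 0

/-- offset of the source -/
def offB (h : ℕ) : ℕ := if h = 3 then 1 else if h = 4 then 20 else if h = 5 then 19 else 0

/-- check of one transition over all cells -/
noncomputable def chk (c h c' w : ℕ) : Bool :=
  force (col c') fun A => force (col c) fun B => force (offA h) fun a => force (offB h) fun b =>
  force w fun w => allN 380 fun i =>
    Nat.ble (dig A (Nat.add i a)) (Nat.add (Nat.add (dig B (Nat.add i b)) (dig bigM (Nat.add i b))) w)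

/-- largest discount at a left turn -/
def mL (b fo fb : ℕ) : ℕ :=
  if b = 1 then tab 0 fo fb else max (max (tab 1 fo fb) (tab 2 fo fb)) (max (tab 3 fo fb) (tab 4 fo fb))

/-- all transitions from the states with a given heading -/
noncomputable def chkH (h : ℕ) : Bool :=
  allN 2 fun p => allN 5 fun ff => allN 5 fun fb => allN 5 fun fo =>
    if ff = 0 then chk (code h p ff fb) h (code h (1 - p) fo 0) 6 else
      (if (fo = 0 ↔ (ff - 1) / 2 = 1) then
        chk (code h p ff fb) ((h + 1) % 6)
          (code ((h + 1) % 6) (1 - p) fo (1 + 2 * ((ff - 1) % 2) + if fb = 0 then 1 else 0))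
          (6 - mL ((ff - 1) % 2) fo fb) else true) &&
      (if (fo = 0 ↔ (ff - 1) % 2 = 1) then
        chk (code h p ff fb) ((h + 5) % 6)
          (code ((h + 5) % 6) (1 - p) fo (1 + 2 * (if fb = 0 then 1 else 0) + (ff - 1) / 2))
          (6 - mL ((ff - 1) / 2) fb fo) else true)

theorem chk_0 : chkH 0 = true := by decide +kernel
theorem chk_1 : chkH 1 = true := by decide +kernel
theorem chk_2 : chkH 2 = true := by decide +kernel
theorem chk_3 : chkH 3 = true := by decide +kernel
theorem chk_4 : chkH 4 = true := by decide +kernel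
theorem chk_5 : chkH 5 = true := by decide +kernel

theorem chk_all (h : ℕ) (hh : h < 6) : chkH h = true := by
  interval_cases h
  exacts [chk_0, chk_1, chk_2, chk_3, chk_4, chk_5]

theorem chk_border : (allN 300 fun c => force (col c) fun A => allN 20 fun i =>
    Nat.beq (dig A i) 24 && Nat.beq (dig A (360 + i)) 24 && (Nat.beq i 19 ||
      (Nat.beq (dig A (20 * i)) 24 && Nat.beq (dig A (20 * i + 19)) 24))) = true := by
  decide +kernel

theorem chk_mask : (allN 380 fun i => Nat.beq (dig bigM i) 0 || Nat.beq i 209 || Nat.beq i 208 ||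
    Nat.beq i 169 || Nat.beq i 170) = true := by decide +kernel

theorem chk_ends : (allN 5 fun f => Nat.beq (dig (col (code 0 1 f 0)) 190) 0 &&
    Nat.ble 48 (dig (col (code 0 1 0 f)) 189)) = true := by decide +kernel

theorem chk_tab : (allN 5 fun a => allN 5 fun b => allN 5 fun c =>
    Nat.beq (tab a b c + tab b c a + tab c a b) 6) = true := by decide +kernel

end Pool.Agent.Lib.MP_ae9f52_co
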