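import Pool.Agent.Lib.MP_ae9f52_co.Potential

/-! The discount lemma: every odd closed non-backtracking walk has weight at least 54. -/

set_option autoImplicit false
open Classical Finset

namespace Pool.Agent.Lib.MP_ae9f52_co

/-- two occupied cells in a direction -/
noncomputable def lng (occ : ℤ × ℤ → Prop) (q : ℤ × ℤ) (j : Fin 6) : ℕ :=
  if occ (q + dir j) ∧ occ (q + dir j + dir j) then 1 else 0

/-- feature of a dart -/
noncomputable def feat (occ : ℤ × ℤ → Prop) (p : ℤ × ℤ) (k : Fin 6) : ℕ :=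
  if occ (p + dir k + dir k) then 0 else
    1 + 2 * lng occ (p + dir k) (k + 1) + lng occ (p + dir k) (k + 5)

/-- mass of a dart -/
noncomputable def zd (occ : ℤ × ℤ → Prop) (p : ℤ × ℤ) (k : Fin 6) : ℕ :=
  if occ (p + dir (k + 2)) ∧ occ (p + dir (k + 4)) then
    tab (feat occ p k) (feat occ p (k + 2)) (feat occ p (k + 4)) else 3

/-- no occupied triangle -/
def TF (occ : ℤ × ℤ → Prop) : Prop := ∀ p k, occ p → occ (p + dir k) → ¬ occ (p + dir (k + 1))

theorem lng_lt (occ : ℤ × ℤ → Prop) (q : ℤ × ℤ) (j : Fin 6) : lng occ q j < 2 := by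
  unfold lng; split_ifs <;> norm_num

theorem feat_lt (occ : ℤ × ℤ → Prop) (q : ℤ × ℤ) (j : Fin 6) : feat occ q j < 5 := by
  unfold feat
  have := lng_lt occ (q + dir j) (j + 1)
  have := lng_lt occ (q + dir j) (j + 5)
  split_ifs <;> omega

theorem feat_zero {occ : ℤ × ℤ → Prop} {q : ℤ × ℤ} {j : Fin 6} :
    feat occ q j = 0 ↔ occ (q + dir j + dir j) := by
  unfold feat; split_ifs with h <;> simp [h]

theorem feat_lng {occ : ℤ × ℤ → Prop} {q : ℤ × ℤ} {j : Fin 6} (h : occ (q + dir j)) :
    feat occ q j = 0 ↔ lng occ q j = 1 := by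
  rw [feat_zero]; unfold lng; split_ifs with h' <;> simp_all

theorem lng_eq {occ : ℤ × ℤ → Prop} {q : ℤ × ℤ} {j : Fin 6} (h : occ (q + dir j)) :
    lng occ q j = if feat occ q j = 0 then 1 else 0 := by
  have := feat_lng h
  have := lng_lt occ q j
  split_ifs with h' <;> omega

theorem dir_back (p : ℤ × ℤ) (h : Fin 6) : p + dir h + dir (h + 3) = p := by
  rw [add_assoc, add_eq_left]; revert h; decide

theorem zd_pair {occ : ℤ × ℤ → Prop} {u : ℤ × ℤ} {k : Fin 6} (h0 : occ (u + dir k))
    (h2 : occ (u + dir (k + 2))) :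
    6 - mL (lng occ u (k + 4)) (feat occ u k) (feat occ u (k + 2)) ≤ zd occ u k + zd occ u (k + 2) := by
  have e1 : k + 2 + 2 = k + 4 := by clear * -; revert k; decide
  have e2 : k + 2 + 4 = k := by clear * -; revert k; decide
  unfold zd
  rw [e1, e2]
  by_cases h4 : occ (u + dir (k + 4))
  · rw [if_pos ⟨h2, h4⟩, if_pos ⟨h4, h0⟩]
    have := tab_sum (feat_lt occ u k) (feat_lt occ u (k + 2)) (feat_lt occ u (k + 4))
    have := tab_le_mL (x := feat occ u k) (y := feat occ u (k + 2)) (feat_lt occ u (k + 4))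
      (feat_lng h4)
    omega
  · rw [if_neg (fun h => h4 h.2), if_neg (fun h => h4 h.1)]
    omega

theorem step {occ : ℤ × ℤ → Prop} (tf : TF occ) {p : ℤ × ℤ} {h h' : Fin 6} {q : ℕ} (hq : q < 2)
    (o0 : occ p) (o1 : occ (p + dir h)) (o2 : occ (p + dir h + dir h')) (hne : h' ≠ h + 3)
    (hf : ¬ forb (p + dir h)) :
    phi (p + dir h + dir h') (code h' (1 - q) (feat occ (p + dir h) h')
      (feat occ (p + dir h + dir h') (h' + 3))) ≤
    phi (p + dir h) (code h q (feat occ p h) (feat occ (p + dir h) (h + 3))) +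
      (zd occ (p + dir h) (h + 3) + zd occ (p + dir h) h') := by
  have o3 : occ (p + dir h + dir (h + 3)) := by rw [dir_back]; exact o0
  have e1 : h + 2 + 1 = h + 3 := by clear * -; revert h; decide
  have e2 : h + 3 + 1 = h + 4 := by clear * -; revert h; decide
  have n2 : ¬ occ (p + dir h + dir (h + 2)) := fun hh => tf _ _ o1 hh (by rw [e1]; exact o3)
  have n4 : ¬ occ (p + dir h + dir (h + 4)) := by rw [← e2]; exact tf _ _ o1 o3
  have hc : h' = h ∨ h' = h + 1 ∨ h' = h + 5 := by
    have a2 : h' ≠ h + 2 := by rintro rfl; exact n2 o2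
    have a4 : h' ≠ h + 4 := by rintro rfl; exact n4 o2
    clear * - hne a2 a4
    revert h h'; decide
  set u := p + dir h with hu
  rcases hc with rfl | rfl | rfl
  · have f1 : feat occ p h' = 0 := feat_zero.2 o2
    have f2 : feat occ (u + dir h') (h' + 3) = 0 := by
      rw [feat_zero, dir_back]; exact o3
    have e3 : h' + 3 + 2 = h' + 5 := by clear * -; revert h'; decide
    have e4 : h' + 5 + 1 = h' := by clear * -; revert h'; decide
    have z1 : zd occ u (h' + 3) = 3 := by
      unfold zd; rw [if_neg]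
      rw [e3]; exact fun hh => tf _ _ o1 hh.1 (by rw [e4]; exact o2)
    have z2 : zd occ u h' = 3 := by
      unfold zd; rw [if_neg (fun hh => n2 hh.1)]
    rw [f1, f2, z1, z2]
    exact phi_straight h' hq (feat_lt _ _ _) (feat_lt _ _ _) hf
  · have n0 : ¬ occ (u + dir h) := fun hh => tf _ _ o1 hh o2
    have f1 : feat occ p h = 1 + 2 * lng occ u (h + 1) + lng occ u (h + 5) := by
      unfold feat; rw [if_neg n0]
    have e3 : h + 1 + 3 = h + 4 := by clear * -; revert h; decide
    have e4 : h + 4 + 1 = h + 5 := by clear * -; revert h; decide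
    have e5 : h + 4 + 5 = h + 3 := by clear * -; revert h; decide
    have e6 : h + 1 + 2 = h + 3 := by clear * -; revert h; decide
    have e7 : h + 1 + 4 = h + 5 := by clear * -; revert h; decide
    have f2 : feat occ (u + dir (h + 1)) (h + 1 + 3) =
        1 + 2 * lng occ u (h + 5) + if feat occ u (h + 3) = 0 then 1 else 0 := by
      rw [← lng_eq o3, feat, dir_back, e3, if_neg n4, e4, e5]
    have z := zd_pair (k := h + 1) o2 (by rw [e6]; exact o3)
    rw [e6, e7] at z
    have := phi_left h hq (lng_lt occ u (h + 1)) (lng_lt occ u (h + 5)) (feat_lt occ u (h + 3))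
      (feat_lt occ u (h + 1)) (feat_lng o2) hf
    rw [f1, f2]
    omega
  · have e0 : h + 5 + 1 = h := by clear * -; revert h; decide
    have n0 : ¬ occ (u + dir h) := fun hh => tf _ _ o1 o2 (by rw [e0]; exact hh)
    have f1 : feat occ p h = 1 + 2 * lng occ u (h + 1) + lng occ u (h + 5) := by
      unfold feat; rw [if_neg n0]
    have e3 : h + 5 + 3 = h + 2 := by clear * -; revert h; decide
    have e5 : h + 2 + 5 = h + 1 := by clear * -; revert h; decide
    have e6 : h + 3 + 2 = h + 5 := by clear * -; revert h; decide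
    have e7 : h + 3 + 4 = h + 1 := by clear * -; revert h; decide
    have f2 : feat occ (u + dir (h + 5)) (h + 5 + 3) =
        1 + 2 * (if feat occ u (h + 3) = 0 then 1 else 0) + lng occ u (h + 1) := by
      rw [← lng_eq o3, feat, dir_back, e3, if_neg n2, e1, e5]
    have z := zd_pair (k := h + 3) o3 (by rw [e6]; exact o2)
    rw [e6, e7] at z
    have := phi_right h hq (lng_lt occ u (h + 1)) (lng_lt occ u (h + 5)) (feat_lt occ u (h + 3))
      (feat_lt occ u (h + 5)) (feat_lng o2) hf
    rw [f1, f2]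
    omega

theorem anchored {occ : ℤ × ℤ → Prop} (tf : TF occ) (p : ℕ → ℤ × ℤ) (g : ℕ → Fin 6) (m : ℕ)
    (hm : m % 2 = 0) (hp : ∀ i, p (i + 1) = p i + dir (g i)) (ho : ∀ i, occ (p i))
    (hg : ∀ i, g (i + 1) ≠ g i + 3) (p0 : p 0 = (0, 0)) (pn : p (m + 1) = (0, 0)) (g0 : g 0 = 0)
    (gm : g m = 0) :
    54 ≤ ∑ i ∈ range (m + 1), (zd occ (p i) (g i) + zd occ (p (i + 1)) (g i + 3)) := by
  have p1 : p 1 = (1, 0) := by rw [hp, p0, g0]; decide
  have pm : p m = (-1, 0) := by
    have := dir_back (p m) (g m)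
    rw [← hp, pn, gm] at this
    rw [← this]; decide
  have o0 : occ (0, 0) := p0 ▸ ho 0
  have o1 : occ ((0, 0) + dir 0) := by have := ho 1; rw [p1] at this; exact this
  have o3 : occ ((0, 0) + dir 3) := by have := ho m; rw [pm] at this; exact this
  have n1 : ¬ occ ((0, 0) + dir 1) := tf _ 0 o0 o1
  have n4 : ¬ occ ((0, 0) + dir 4) := tf _ 3 o0 o3
  have n2 : ¬ occ ((0, 0) + dir 2) := fun h => tf _ 2 o0 h o3
  have n5 : ¬ occ ((0, 0) + dir 5) := fun h => tf _ 5 o0 h o1
  have hf : ∀ i, ¬ forb (p i) := by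
    intro i hi
    have := ho i
    rcases hi with h | h | h | h <;> rw [h] at this
    exacts [n1 this, n2 this, n4 this, n5 this]
  have z0 : zd occ (0, 0) 0 = 3 := by unfold zd; exact if_neg (fun h => n2 h.1)
  have z3 : zd occ (0, 0) 3 = 3 := by unfold zd; exact if_neg (fun h => n5 h.1)
  have inv : ∀ j, phi (p (j + 1)) (code (g j) ((j + 1) % 2) (feat occ (p j) (g j))
      (feat occ (p (j + 1)) (g j + 3))) + 3 + zd occ (p (j + 1)) (g j + 3) ≤
      ∑ i ∈ range (j + 1), (zd occ (p i) (g i) + zd occ (p (i + 1)) (g i + 3)) := by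
    intro j
    induction j with
    | zero =>
      have f : feat occ (p 1) (g 0 + 3) = 0 := by
        rw [feat_zero, hp, dir_back, p0, g0]; exact o3
      simp only [zero_add, Finset.range_one, Finset.sum_singleton]
      rw [f, p0, p1, g0, z0]
      have := phi_start (feat_lt occ (0, 0) 0)
      have e : code ((0 : Fin 6) : ℕ) (1 % 2) (feat occ (0, 0) 0) 0 = code 0 1 (feat occ (0, 0) 0) 0 := rfl
      rw [e, this]
    | succ j ih =>
      rw [Finset.sum_range_succ]
      have := step tf (p := p j) (h := g j) (h' := g (j + 1)) (q := (j + 1) % 2) (by omega) (ho j)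
        (by rw [← hp]; exact ho _) (by rw [← hp, ← hp]; exact ho _) (hg j) (by rw [← hp]; exact hf _)
      rw [← hp, ← hp] at this
      have e : 1 - (j + 1) % 2 = (j + 1 + 1) % 2 := by omega
      rw [e] at this
      omega
  have := inv m
  have f : feat occ (p m) (g m) = 0 := by
    rw [feat_zero, ← hp, pn, gm]; exact o1
  have e : (m + 1) % 2 = 1 := by omega
  rw [f, e, pn] at this
  have h48 := phi_end (feat_lt occ (0, 0) (g m + 3))
  rw [gm] at this h48
  have e3 : (0 : Fin 6) + 3 = 3 := rfl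
  rw [e3] at this h48
  have e4 : code ((0 : Fin 6) : ℕ) 1 0 (feat occ (0, 0) 3) = code 0 1 0 (feat occ (0, 0) 3) := rfl
  rw [e4, z3] at this
  omega

/-- change of frame -/
def frame (o : ℤ × ℤ) (h : Fin 6) (q : ℤ × ℤ) : ℤ × ℤ := o + q.1 • dir h + q.2 • dir (h + 1)

theorem frame_add (o : ℤ × ℤ) (h : Fin 6) (q : ℤ × ℤ) (k : Fin 6) :
    frame o h (q + dir k) = frame o h q + dir (h + k) := by
  have : dir (h + k) = (dir k).1 • dir h + (dir k).2 • dir (h + 1) := by revert h k; decide
  rw [this]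
  simp only [frame, Prod.fst_add, Prod.snd_add, add_smul]
  abel

theorem frame_inj (o : ℤ × ℤ) (h : Fin 6) (q : ℤ × ℤ) (hq : frame o h q = o) : q = (0, 0) := by
  obtain ⟨x, y⟩ := q
  unfold frame at hq
  rw [add_assoc, add_eq_left] at hq
  fin_cases h <;> simp [dir] at hq ⊢ <;> omega

theorem lng_frame (occ : ℤ × ℤ → Prop) (o : ℤ × ℤ) (h : Fin 6) (q : ℤ × ℤ) (k : Fin 6) :
    lng (fun r => occ (frame o h r)) q k = lng occ (frame o h q) (h + k) := by
  simp only [lng, frame_add]

theorem feat_frame (occ : ℤ × ℤ → Prop) (o : ℤ × ℤ) (h : Fin 6) (q : ℤ × ℤ) (k : Fin 6) :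
    feat (fun r => occ (frame o h r)) q k = feat occ (frame o h q) (h + k) := by
  simp only [feat, lng_frame, frame_add, add_assoc h]

theorem zd_frame (occ : ℤ × ℤ → Prop) (o : ℤ × ℤ) (h : Fin 6) (q : ℤ × ℤ) (k : Fin 6) :
    zd (fun r => occ (frame o h r)) q k = zd occ (frame o h q) (h + k) := by
  simp only [zd, feat_frame, frame_add, add_assoc h]

theorem straight_start {occ : ℤ × ℤ → Prop} (tf : TF occ) (p : ℕ → ℤ × ℤ) (g : ℕ → Fin 6) (m : ℕ)
    (hm : m % 2 = 0) (hp : ∀ i, p (i + 1) = p i + dir (g i)) (ho : ∀ i, occ (p i))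
    (hg : ∀ i, g (i + 1) ≠ g i + 3) (pn : p (m + 1) = p 0) (gm : g m = g 0) :
    54 ≤ ∑ i ∈ range (m + 1), (zd occ (p i) (g i) + zd occ (p (i + 1)) (g i + 3)) := by
  let q : ℕ → ℤ × ℤ := fun i => Nat.rec (0, 0) (fun j a => a + dir (g j - g 0)) i
  have hq : ∀ i, q (i + 1) = q i + dir (g i - g 0) := fun _ => rfl
  have hfr : ∀ i, frame (p 0) (g 0) (q i) = p i := by
    intro i
    induction i with
    | zero => simp [q, frame]
    | succ i ih => rw [hq, frame_add, ih, hp, add_sub_cancel]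
  have := anchored (occ := fun r => occ (frame (p 0) (g 0) r))
    (fun a k h1 h2 => by
      simp only [frame_add] at h1 h2 ⊢
      rw [← add_assoc]; exact tf _ _ h1 h2)
    q (fun i => g i - g 0) m hm hq (fun i => by simp only [hfr]; exact ho i)
    (fun i h => hg i (by
      have : g (i + 1) = (g (i + 1) - g 0) + g 0 := by abel
      rw [this, h]; abel)) rfl
    (frame_inj (p 0) (g 0) _ ((hfr (m + 1)).trans pn)) (sub_self _) (by simp [gm])
  simpa only [zd_frame, hfr, add_sub_cancel, ← add_assoc] using this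

end Pool.Agent.Lib.MP_ae9f52_co
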