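import Pool.Agent.Lib.MP_ae9f52_co.Joins

/-! A min-max inequality for joins and odd cuts (after Seymour, Lovasz and Sebo). -/

set_option autoImplicit false
open Classical Finset
open scoped symmDiff

namespace Pool.Agent.Lib.MP_ae9f52_co

variable {N E : Type}

/-- an extremal join for a conservative weighting -/
structure Ext (s t : E → N) (A : Finset E) (l : E → ℤ) (F : Finset E) (u v : N) : Prop where
  sub : F ⊆ A
  join : IsJoin s t F u v
  neg : ∑ e ∈ F, l e < 0
  cons : ∀ C ⊆ A, Ev s t C → 0 ≤ ∑ e ∈ C, l e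
  min1 : ∀ P ⊆ A, ∀ a b, IsJoin s t P a b → ∑ e ∈ F, l e ≤ ∑ e ∈ P, l e
  min2 : ∀ P ⊆ A, ∀ a b, IsJoin s t P a b → ∑ e ∈ P, l e = ∑ e ∈ F, l e →
    ∑ e ∈ F, |l e| ≤ ∑ e ∈ P, |l e|

theorem exists_ext {s t : E → N} {A : Finset E} {l : E → ℤ}
    (cons : ∀ C ⊆ A, Ev s t C → 0 ≤ ∑ e ∈ C, l e) {e0 : E} (he : e0 ∈ A) (hl : l e0 < 0) :
    ∃ F u v, Ext s t A l F u v := by
  set 𝓕 := A.powerset.filter (fun P => ∃ a b, IsJoin s t P a b) with h𝓕
  have hm : ∀ P, P ∈ 𝓕 ↔ P ⊆ A ∧ ∃ a b, IsJoin s t P a b := fun P => by simp [h𝓕]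
  have h0 : {e0} ∈ 𝓕 := (hm _).2 ⟨by simpa using he, _, _, (ends_self e0).join⟩
  obtain ⟨F0, hF0, m0⟩ := Finset.exists_min_image 𝓕 (fun P => ∑ e ∈ P, l e) ⟨_, h0⟩
  obtain ⟨F, hF, m1⟩ := Finset.exists_min_image (𝓕.filter (fun P => ∑ e ∈ P, l e = ∑ e ∈ F0, l e))
    (fun P => ∑ e ∈ P, |l e|) ⟨F0, by simp [hF0]⟩
  rw [Finset.mem_filter] at hF
  obtain ⟨hA, u, v, hj⟩ := (hm _).1 hF.1
  refine ⟨F, u, v, hA, hj, ?_, cons, fun P hP a b h => ?_, fun P hP a b h h' => ?_⟩
  · have := m0 _ h0
    simp only [Finset.sum_singleton] at this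
    rw [hF.2]; omega
  · rw [hF.2]; exact m0 P ((hm _).2 ⟨hP, a, b, h⟩)
  · exact m1 P (Finset.mem_filter.2 ⟨(hm _).2 ⟨hP, a, b, h⟩, h'.trans hF.2⟩)

/-- edges of weight zero -/
noncomputable def zer (A : Finset E) (l : E → ℤ) : Finset E := A.filter (fun e => l e = 0)

theorem mem_zer {A : Finset E} {l : E → ℤ} {e : E} : e ∈ zer A l ↔ e ∈ A ∧ l e = 0 := by simp [zer]

theorem zer_sub {A : Finset E} {l : E → ℤ} : zer A l ⊆ A := Finset.filter_subset _ _

namespace Ext

variable {s t : E → N} {A : Finset E} {l : E → ℤ} {F : Finset E} {u v : N} (X : Ext s t A l F u v)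
include X

theorem subneg {P : Finset E} (hP : P ⊆ F ∪ zer A l) {a b : N} (hj : IsJoin s t (F ∆ P) a b)
    {g : E} (hg : g ∈ P) (hl : l g ≠ 0) : ∑ e ∈ P, l e < 0 := by
  have hz : ∀ e ∈ P, e ∉ F → l e = 0 := fun e he hn => by
    rcases Finset.mem_union.1 (hP he) with h | h
    exacts [absurd h hn, (mem_zer.1 h).2]
  have hA : F ∆ P ⊆ A := sd_sub X.sub (hP.trans (Finset.union_subset X.sub zer_sub))
  have h1 := X.min1 _ hA a b hj
  have h2 := X.min2 _ hA a b hj
  rw [sum_sd_sub hz] at h1 h2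
  rw [sum_sd_sub (f := fun e => |l e|) (fun e he hn => by simp [hz e he hn])] at h2
  have h3 : |l g| ≤ ∑ e ∈ P, |l e| :=
    Finset.single_le_sum (f := fun e => |l e|) (fun e _ => abs_nonneg _) hg
  have h4 : 0 < |l g| := abs_pos.2 hl
  by_contra hn
  have := h2 (by omega)
  omega

theorem noeven {P : Finset E} (hP : P ⊆ F ∪ zer A l) (he : Ev s t P) : ∀ g ∈ P, l g = 0 := by
  intro g hg
  by_contra hl
  have := X.subneg hP (X.join.sd_ev he) hg hl
  have := X.cons P (hP.trans (Finset.union_subset X.sub zer_sub)) he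
  omega

theorem u_notin : ¬ Conn s t (zer A l) v u := by
  rintro ⟨P, hP, hj⟩
  have := X.cons _ (sd_sub X.sub (hP.trans zer_sub)) (X.join.trans hj).ev
  rw [sum_sd_disj (fun e he _ => (mem_zer.1 (hP he)).2),
    Finset.sum_eq_zero (s := P) (fun e he => (mem_zer.1 (hP he)).2)] at this
  have := X.neg
  omega

omit X in
theorem cross_ne {g : E} (hg : g ∈ A) {k o : N} (he : Ends s t g k o)
    (hk : Conn s t (zer A l) v k) (ho : ¬ Conn s t (zer A l) v o) : l g ≠ 0 :=
  fun h => ho (hk.trans (he.conn (mem_zer.2 ⟨hg, h⟩)))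

theorem cross_sign {g : E} (hg : g ∈ A) {k o : N} (he : Ends s t g k o)
    (hk : Conn s t (zer A l) v k) : (g ∈ F → l g ≤ 0) ∧ (g ∉ F → 0 ≤ l g) := by
  obtain ⟨P, hP, hj⟩ := hk
  have h1 := X.min1 _ (sd_sub X.sub (sd_sub (hP.trans zer_sub) (by simpa using hg))) _ _
    (show IsJoin s t (F ∆ (P ∆ {g})) u o from X.join.trans (hj.trans he.join))
  have hz : ∀ e ∈ P, l e = 0 := fun e he => (mem_zer.1 (hP he)).2
  have h2 : ∀ e ∈ P ∆ {g}, e ≠ g → l e = 0 := by
    intro e he hne
    rw [Finset.mem_symmDiff] at he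
    rcases he with he | he
    · exact hz e he.1
    · exact absurd (Finset.mem_singleton.1 he.1) hne
  have h3 : ∑ e ∈ P ∆ {g}, l e = l g := by
    rw [symmDiff_comm, sum_sd_disj (fun e he _ => hz e he), Finset.sum_eq_zero hz]; simp
  constructor
  · intro hF
    rw [sum_sd_sub (fun e he hn => h2 e he (fun h => hn (h ▸ hF))), h3] at h1
    omega
  · intro hF
    rw [sum_sd_disj (fun e he hn => h2 e he (fun h => hF (h ▸ hn))), h3] at h1
    omega

theorem bridge {g : E} (hg : g ∈ F) (hl : l g ≠ 0) {k o : N} (he : Ends s t g k o) :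
    ¬ Conn s t (F.erase g ∪ zer A l) k o := by
  rintro ⟨P, hP, hj⟩
  have hgP : g ∉ P := by
    intro h
    rcases Finset.mem_union.1 (hP h) with h | h
    · simp at h
    · exact hl (mem_zer.1 h).2
  apply hl
  apply X.noeven (P := P ∆ {g}) (sd_sub (hP.trans (Finset.union_subset_union_left
    (Finset.erase_subset _ _))) (by simp [hg])) (hj.trans he.symm.join).ev
  rw [Finset.mem_symmDiff]; simp [hgP]

theorem cross_unique {g g' : E} (hg : g ∈ F) (hg' : g' ∈ F) {k o k' o' : N} (he : Ends s t g k o)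
    (he' : Ends s t g' k' o') (hk : Conn s t (zer A l) v k) (ho : ¬ Conn s t (zer A l) v o)
    (hk' : Conn s t (zer A l) v k') (ho' : ¬ Conn s t (zer A l) v o') : g = g' := by
  by_contra hne
  have main : ∀ {g g' : E} {k o k' o' : N}, g ≠ g' → g ∈ F → g' ∈ F → Ends s t g k o →
      Ends s t g' k' o' → Conn s t (zer A l) v k → ¬ Conn s t (zer A l) v o →
      Conn s t (zer A l) v k' → ¬ Conn s t ((F \ {g, g'}) ∪ zer A l) o o' ∧
        Conn s t ((F \ {g, g'}) ∪ zer A l) o u := by
    intro g g' k o k' o' hne hg hg' he he' hk ho hk'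
    have hb := X.bridge hg (cross_ne (X.sub hg) he hk ho) he
    have hsub : (F \ {g, g'}) ∪ zer A l ⊆ F.erase g ∪ zer A l := by
      apply Finset.union_subset_union_left
      intro e; simp only [Finset.mem_sdiff, Finset.mem_insert, Finset.mem_singleton,
        Finset.mem_erase]; tauto
    have hK : ∀ x, Conn s t (zer A l) v x → ¬ Conn s t (F.erase g ∪ zer A l) o x := fun x hx h =>
      hb (((hk.symm.trans hx).mono Finset.subset_union_right).trans h.symm)
    have h1 : ¬ Conn s t ((F \ {g, g'}) ∪ zer A l) o o' := fun h =>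
      hK k' hk' ((h.mono hsub).trans (he'.symm.conn (by simp [hg', Ne.symm hne])))
    refine ⟨h1, ?_⟩
    by_contra h2
    have h3 := bd_closed (s := s) (t := t) (F := F \ {g, g'})
      (X := Conn s t ((F \ {g, g'}) ∪ zer A l) o)
      (fun e he => conn_closed (Finset.mem_union_left _ he) o)
    have h4 := X.join (chi (Conn s t ((F \ {g, g'}) ∪ zer A l) o))
    have h5 : ({g, g'} : Finset E) ⊆ F := by
      intro e; simp only [Finset.mem_insert, Finset.mem_singleton]; rintro (rfl | rfl) <;> assumption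
    unfold bd at h3 h4
    rw [← Finset.sum_sdiff h5, h3, Finset.sum_pair hne, he.add, he'.add] at h4
    have a1 := fun h => hK v (Conn.refl _ _) (Conn.mono h hsub)
    have a2 := fun h => hK k hk (Conn.mono h hsub)
    have a3 := fun h => hK k' hk' (Conn.mono h hsub)
    simp only [chi, if_neg h1, if_neg h2, if_neg a1, if_neg a2, if_neg a3, if_pos (Conn.refl _ _)] at h4
    revert h4; decide
  have m1 := main hne hg hg' he he' hk ho hk'
  have m2 := main (Ne.symm hne) hg' hg he' he hk' ho' hk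
  rw [Finset.pair_comm] at m2
  exact m1.1 (m1.2.trans m2.2.symm)

theorem cross_exists : ∃ f ∈ F, ∃ k o, Ends s t f k o ∧ Conn s t (zer A l) v k ∧
    ¬ Conn s t (zer A l) v o := by
  have h := X.join (chi (Conn s t (zer A l) v))
  simp only [chi, if_neg X.u_notin, if_pos (Conn.refl _ _)] at h
  by_contra hn
  have : bd s t F (chi (Conn s t (zer A l) v)) = 0 := by
    apply Finset.sum_eq_zero
    intro e he
    by_contra h'
    exact hn ⟨e, he, chi_cross h'⟩
  have e : bd s t F (chi (Conn s t (zer A l) v)) = 0 + 1 := h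
  rw [this] at e
  revert e; decide

/-- no even set of length zero leaves the component through an edge outside `F` -/
theorem no_zero {C : Finset E} (hC : C ⊆ A) (he : Ev s t C) (h0 : ∑ e ∈ C, l e = 0)
    (hF : ∀ g ∈ C, g ∈ F → ∀ k o, Ends s t g k o → Conn s t (zer A l) v k → Conn s t (zer A l) v o)
    {g : E} (hg : g ∈ C) {k o : N} (hko : Ends s t g k o) (hk : Conn s t (zer A l) v k) :
    Conn s t (zer A l) v o := by
  by_contra ho
  set Y := Conn s t (C ∪ zer A l) v with hY
  have hcl : ∀ e ∈ C ∪ zer A l, Y (s e) ↔ Y (t e) := fun e he => conn_closed he v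
  set C1 := C.filter (fun e => Y (s e)) with hC1
  have hs1 : C1 ⊆ C := Finset.filter_subset _ _
  have ev1 : Ev s t C1 := fun ψ => by
    rw [hC1, bd_filter (fun e he => hcl e (Finset.mem_union_left _ he)), he]
  have z1 : ∑ e ∈ C1, l e = 0 := by
    have a1 := X.cons C1 (hs1.trans hC) ev1
    have a2 := X.cons _ (sd_sub hC (hs1.trans hC)) (he.sd ev1)
    rw [sum_sd_sub (fun e he hn => absurd (hs1 he) hn)] at a2
    omega
  have hYe : ∀ e ∈ C, ∀ a b, Ends s t e a b → Y a → e ∈ C1 := by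
    intro e he a b hab ha
    rw [hC1, Finset.mem_filter]
    refine ⟨he, ?_⟩
    rcases hab with ⟨rfl, rfl⟩ | ⟨rfl, rfl⟩
    exacts [ha, (hcl e (Finset.mem_union_left _ he)).2 ha]
  have hg1 : g ∈ C1 := hYe g hg k o hko (hk.mono Finset.subset_union_right)
  have hgF : g ∉ F := fun h => ho (hF g hg h k o hko hk)
  have hgpos : 0 < l g :=
    lt_of_le_of_ne ((X.cross_sign (hC hg) hko hk).2 hgF) (cross_ne (hC hg) hko hk ho).symm
  by_cases hA : ∀ e ∈ C1, e ∈ F → l e = 0
  · obtain ⟨P, hP, hj⟩ := hk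
    have hz : ∀ e ∈ P, l e = 0 := fun e he => (mem_zer.1 (hP he)).2
    have h1 := X.min1 _ (sd_sub (sd_sub X.sub (hs1.trans hC))
      (sd_sub (hP.trans zer_sub) (by simpa using hC hg))) _ _
      (show IsJoin s t ((F ∆ C1) ∆ (P ∆ {g})) u o from (X.join.sd_ev ev1).trans (hj.trans hko.join))
    have h3 : ∑ e ∈ P ∆ {g}, l e = l g := by
      rw [symmDiff_comm, sum_sd_disj (fun e he _ => hz e he), Finset.sum_eq_zero hz]; simp
    rw [sum_sd_sub, sum_sd_disj hA, h3] at h1
    · omega
    · intro e he hn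
      rw [Finset.mem_symmDiff] at he
      rcases he with he | he
      · exact hz e he.1
      · exfalso; apply hn
        rw [Finset.mem_singleton.1 he.1, Finset.mem_symmDiff]
        exact Or.inr ⟨hg1, hgF⟩
  push Not at hA
  set W := Conn s t ((F \ C1) ∪ zer A l) v with hW
  by_cases hB : ∃ h ∈ C1, h ∈ F ∧ l h ≠ 0 ∧ ∃ x y, Ends s t h x y ∧ W x
  · obtain ⟨h, h1, h2, h3, x, y, hxy, P, hP, hj⟩ := hB
    have hxK : ¬ Conn s t (zer A l) v x := fun hx =>
      X.bridge h2 h3 hxy ((hx.symm.trans (hF h (hs1 h1) h2 x y hxy hx)).mono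
        Finset.subset_union_right)
    have hPF : P ⊆ F ∪ zer A l := hP.trans (Finset.union_subset_union_left Finset.sdiff_subset)
    have hPA : P ⊆ A := hPF.trans (Finset.union_subset X.sub zer_sub)
    obtain ⟨e0, he0, hl0⟩ : ∃ e ∈ P, l e ≠ 0 := by
      by_contra hn
      push Not at hn
      exact hxK ⟨P, fun e he => mem_zer.2 ⟨hPA he, hn e he⟩, hj⟩
    have hneg := X.subneg hPF (X.join.trans hj) he0 hl0
    have hYx : Y x := by
      have := (Finset.mem_filter.1 h1).2
      rcases hxy with ⟨rfl, rfl⟩ | ⟨rfl, rfl⟩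
      exacts [this, (hcl h (Finset.mem_union_left _ (hs1 h1))).1 this]
    obtain ⟨Q, hQ, hq⟩ := id hYx
    set Q1 := Q.filter (fun e => Y (s e)) with hQ1
    have j1 : IsJoin s t Q1 v x := fun ψ => by
      rw [hQ1, bd_filter (fun e he => hcl e (hQ he)), hq, if_pos hYx, if_pos (Conn.refl _ _)]
    have s1 : Q1 ⊆ C1 ∪ zer A l := by
      intro e he
      rw [hQ1, Finset.mem_filter] at he
      rcases Finset.mem_union.1 (hQ he.1) with h | h
      · exact Finset.mem_union_left _ (Finset.mem_filter.2 ⟨h, he.2⟩)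
      · exact Finset.mem_union_right _ h
    have sA : C1 ∪ zer A l ⊆ A := Finset.union_subset (hs1.trans hC) zer_sub
    have key : ∀ R ⊆ C1 ∪ zer A l, IsJoin s t R v x → 0 < ∑ e ∈ R, l e := by
      intro R hR jR
      have := X.cons _ (sd_sub hPA (hR.trans sA)) (hj.trans jR.symm).ev
      rw [sum_sd_disj] at this
      · omega
      · intro e h1 h2
        rcases Finset.mem_union.1 (hR h1) with h3 | h3
        · rcases Finset.mem_union.1 (hP h2) with h4 | h4
          exacts [absurd h3 (Finset.mem_sdiff.1 h4).2, (mem_zer.1 h4).2]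
        · exact (mem_zer.1 h3).2
    have k1 := key Q1 s1 j1
    have k2 := key (Q1 ∆ C1) (sd_sub s1 Finset.subset_union_left) (j1.sd_ev ev1)
    rw [symmDiff_comm, sum_sd_sub (fun e he hn => by
      rcases Finset.mem_union.1 (s1 he) with h | h
      exacts [absurd h hn, (mem_zer.1 h).2])] at k2
    omega
  · push Not at hB
    obtain ⟨h, h1, h2, h3⟩ := hA
    have hcl2 : ∀ e ∈ F, ¬ W (s e) ↔ ¬ W (t e) := by
      intro e he
      by_cases a1 : e ∈ C1
      · by_cases a2 : l e = 0
        · exact not_congr (conn_closed (Finset.mem_union_right _ (mem_zer.2 ⟨X.sub he, a2⟩)) v)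
        · exact iff_of_true (hB e a1 he a2 _ _ (ends_self e)) (hB e a1 he a2 _ _ (ends_self e).symm)
      · exact not_congr (conn_closed (Finset.mem_union_left _ (Finset.mem_sdiff.2 ⟨he, a1⟩)) v)
    have hv : W v := Conn.refl _ _
    have e2 : ∀ ψ, bd s t (F.filter (fun e => ¬ W (s e))) ψ = if ¬ W u then ψ u else 0 := fun ψ => by
      have := bd_filter (X := fun n => ¬ W n) hcl2 ψ
      rw [X.join, if_neg (not_not.2 hv), add_zero] at this
      convert this
    have hu : W u := by
      by_contra hu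
      have := e2 (fun _ => 1)
      rw [if_pos hu, bd, Finset.sum_eq_zero (fun e _ => add_self2 1)] at this
      revert this; decide
    apply h3
    apply X.noeven (P := F.filter (fun e => ¬ W (s e)))
      ((Finset.filter_subset _ _).trans Finset.subset_union_left)
      (fun ψ => by rw [e2, if_neg (not_not.2 hu)])
    exact Finset.mem_filter.2 ⟨h2, hB h h1 h2 h3 _ _ (ends_self h)⟩

end Ext

/-- edges leaving a node set -/
noncomputable def cut (s t : E → N) (A : Finset E) (φ : N → ZMod 2) : Finset E :=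
  A.filter (fun e => φ (s e) + φ (t e) ≠ 0)

theorem bd_cut {s t : E → N} {A C : Finset E} (hC : C ⊆ A) (φ : N → ZMod 2) :
    bd s t C φ = ((C ∩ cut s t A φ).card : ZMod 2) := by
  unfold bd
  rw [← Finset.sum_inter_add_sum_sdiff C (cut s t A φ), Finset.sum_eq_zero (s := C \ _), add_zero,
    Finset.card_eq_sum_ones, Nat.cast_sum]
  · apply Finset.sum_congr rfl
    intro e he
    have := (Finset.mem_filter.1 (Finset.mem_inter.1 he).2).2
    generalize φ (s e) + φ (t e) = x at this
    revert x; decide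
  · intro e he
    rw [Finset.mem_sdiff] at he
    by_contra h
    exact he.2 (Finset.mem_filter.2 ⟨hC he.1, h⟩)

theorem cut_lemma {s t : E → N} {A : Finset E} {l : E → ℤ}
    (cons : ∀ C ⊆ A, Ev s t C → 0 ≤ ∑ e ∈ C, l e) (par : ∀ C ⊆ A, Ev s t C → Even (∑ e ∈ C, l e))
    {e0 : E} (he0 : e0 ∈ A) (hl0 : l e0 < 0) :
    ∃ φ : N → ZMod 2, ∃ f ∈ cut s t A φ, l f < 0 ∧ (∀ e ∈ cut s t A φ, e ≠ f → 0 < l e) ∧
      ∀ C ⊆ A, Ev s t C →
        0 ≤ ∑ e ∈ C, (l e - if e ∈ cut s t A φ then (if e = f then -1 else 1) else 0) := by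
  obtain ⟨F, u, v, X⟩ := exists_ext cons he0 hl0
  set K := Conn s t (zer A l) v with hK
  set D := cut s t A (chi K) with hD
  have memD : ∀ e ∈ A, ∀ k o, Ends s t e k o → K k → ¬ K o → e ∈ D := by
    intro e he k o h hk ho
    refine Finset.mem_filter.2 ⟨he, ?_⟩
    rw [h.add, chi, chi, if_pos hk, if_neg ho]; decide
  have ofD : ∀ e ∈ D, e ∈ A ∧ ∃ k o, Ends s t e k o ∧ K k ∧ ¬ K o := fun e he =>
    ⟨(Finset.mem_filter.1 he).1, chi_cross (Finset.mem_filter.1 he).2⟩
  obtain ⟨f, hfF, k0, o0, hf, hk0, ho0⟩ := X.cross_exists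
  have hfD := memD f (X.sub hfF) k0 o0 hf hk0 ho0
  have huniq : ∀ e ∈ D, e ∈ F → e = f := by
    intro e he heF
    obtain ⟨-, k, o, h, hk, ho⟩ := ofD e he
    exact X.cross_unique heF hfF h hf hk ho hk0 ho0
  have hzD : ∀ e ∈ zer A l, e ∉ D := by
    intro e he heD
    obtain ⟨hA, k, o, h, hk, ho⟩ := ofD e heD
    exact Ext.cross_ne hA h hk ho (mem_zer.1 he).2
  refine ⟨chi K, f, hfD, lt_of_le_of_ne ((X.cross_sign (X.sub hfF) hf hk0).1 hfF)
    (Ext.cross_ne (X.sub hfF) hf hk0 ho0), fun e he hne => ?_, ?_⟩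
  · obtain ⟨hA, k, o, h, hk, ho⟩ := ofD e he
    exact lt_of_le_of_ne ((X.cross_sign hA h hk).2 (fun h' => hne (huniq e he h')))
      (Ext.cross_ne hA h hk ho).symm
  rw [← hD]
  have two : ∀ C ⊆ A, Ev s t C → ∀ g g', g ≠ g' → C ∩ D = {g, g'} →
      0 ≤ ∑ e ∈ C, (l e - if e ∈ D then (if e = f then -1 else 1) else 0) := by
    intro C hC ev g g' hne hCD
    rw [Finset.sum_sub_distrib, Finset.sum_ite_mem, hCD, Finset.sum_pair hne]
    have h1 := cons C hC ev
    by_cases a1 : g = f
    · rw [if_pos a1, if_neg (fun h => hne (a1.trans h.symm))]; omega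
    by_cases a2 : g' = f
    · rw [if_pos a2, if_neg a1]; omega
    rw [if_neg a1, if_neg a2]
    have h2 := par C hC ev
    have h3 : ∑ e ∈ C, l e ≠ 0 := by
      intro h0
      have hg : g ∈ C ∩ D := by rw [hCD]; simp
      rw [Finset.mem_inter] at hg
      obtain ⟨-, k, o, h, hk, ho⟩ := ofD g hg.2
      refine ho (X.no_zero hC ev h0 (fun e he heF k' o' h' hk' => ?_) hg.1 h hk)
      by_contra ho'
      have b1 := memD e (hC he) k' o' h' hk' ho'
      have b2 := huniq e b1 heF
      have b3 : e ∈ C ∩ D := Finset.mem_inter.2 ⟨he, b1⟩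
      rw [hCD, Finset.mem_insert, Finset.mem_singleton, b2] at b3
      tauto
    obtain ⟨r, hr⟩ := h2
    omega
  intro C
  induction hn : (C ∩ D).card using Nat.strong_induction_on generalizing C with
  | _ n ih =>
  intro hC ev
  rcases (C ∩ D).eq_empty_or_nonempty with h0 | ⟨g, hg⟩
  · rw [Finset.sum_sub_distrib, Finset.sum_ite_mem, h0]
    simpa using cons C hC ev
  rw [Finset.mem_inter] at hg
  obtain ⟨-, k, o, hko, hk, ho⟩ := ofD g hg.2
  set W := Conn s t (C \ D) o with hW
  have hWK : ∀ x, W x → ¬ K x := by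
    rintro x ⟨P, hP, hj⟩ hx
    have h1 := hj (chi K)
    rw [bd_cut (A := A) (hP.trans (Finset.sdiff_subset.trans hC)), ← hD,
      Finset.disjoint_iff_inter_eq_empty.1 (Finset.disjoint_of_subset_left hP Finset.sdiff_disjoint),
      chi, chi, if_neg ho, if_pos hx, Finset.card_empty, Nat.cast_zero] at h1
    revert h1; decide
  obtain ⟨g', hg', hne, k', o', hko', hk', ho'⟩ : ∃ g' ∈ C ∩ D, g' ≠ g ∧ ∃ k' o', Ends s t g' k' o' ∧
      K k' ∧ W o' := by
    by_contra hcon
    push Not at hcon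
    have h1 := ev (chi W)
    unfold bd at h1
    rw [← Finset.sum_inter_add_sum_sdiff C D, Finset.sum_eq_zero (s := C \ D)
      (fun e he => chi_closed (conn_closed he o)), add_zero,
      Finset.sum_eq_single_of_mem g (Finset.mem_inter.2 hg), hko.add, chi, chi,
      if_neg (fun h => hWK k h hk), if_pos (Conn.refl _ _)] at h1
    · revert h1; decide
    · intro e he hne
      obtain ⟨-, k', o', h, hk', -⟩ := ofD e (Finset.mem_inter.1 he).2
      rw [h.add, chi, chi, if_neg (fun h => hWK k' h hk'), if_neg (hcon e he hne k' o' h hk')]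
      rfl
  rw [Finset.mem_inter] at hg'
  obtain ⟨P, hP, jP⟩ := ho'
  obtain ⟨Z, hZ, jZ⟩ := hk'.symm.trans hk
  set C1 := ((P ∆ {g'}) ∆ Z) ∆ {g} with hC1
  have ev1 : Ev s t C1 := (((jP.trans hko'.symm.join).trans jZ).trans hko.join).ev
  have mem1 : ∀ e ∈ D, e ∈ C1 ↔ e = g ∨ e = g' := by
    intro e he
    have a1 : e ∉ P := fun h => (Finset.mem_sdiff.1 (hP h)).2 he
    have a2 : e ∉ Z := fun h => hzD e (hZ h) he
    simp only [hC1, Finset.mem_symmDiff, Finset.mem_singleton, a1, a2]
    by_cases b1 : e = g <;> by_cases b2 : e = g'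
    · exact absurd (b2.symm.trans b1) hne
    all_goals simp [b1, b2, hne, hne.symm]
  have s1 : C1 ⊆ C ∪ zer A l :=
    sd_sub (sd_sub (sd_sub (hP.trans (Finset.sdiff_subset.trans Finset.subset_union_left))
      (by simp [hg'.1])) (hZ.trans Finset.subset_union_right)) (by simp [hg.1])
  have sA : C1 ⊆ A := s1.trans (Finset.union_subset hC zer_sub)
  have t1 := two C1 sA ev1 g g' hne.symm (by
    ext e
    simp only [Finset.mem_inter, Finset.mem_insert, Finset.mem_singleton]
    constructor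
    · exact fun h => (mem1 e h.2).1 h.1
    · rintro (rfl | rfl)
      exacts [⟨(mem1 _ hg.2).2 (Or.inl rfl), hg.2⟩, ⟨(mem1 _ hg'.2).2 (Or.inr rfl), hg'.2⟩])
  have t2 := ih ((C ∆ C1) ∩ D).card (by
    rw [← hn]
    apply Finset.card_lt_card
    refine ⟨fun e he => ?_, fun h => ?_⟩
    · rw [Finset.mem_inter, Finset.mem_symmDiff] at he
      refine Finset.mem_inter.2 ⟨?_, he.2⟩
      rcases he.1 with h | h
      · exact h.1
      · rcases (mem1 e he.2).1 h.1 with rfl | rfl
        exacts [hg.1, hg'.1]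
    · have := h (Finset.mem_inter.2 hg)
      rw [Finset.mem_inter, Finset.mem_symmDiff] at this
      have a := (mem1 g hg.2).2 (Or.inl rfl)
      tauto) (C ∆ C1) rfl (sd_sub hC sA) (ev.sd ev1)
  rw [sum_sd_sub] at t2
  · omega
  · intro e he hn
    rcases Finset.mem_union.1 (s1 he) with h | h
    · exact absurd h hn
    · rw [if_neg (hzD e h), (mem_zer.1 h).2]; rfl

theorem zmod_one {x : ZMod 2} (h : x ≠ 0) : x = 1 := by revert x; decide

/-- The weight of a minimum join is at most the weight of any fractional cover of odd cuts. -/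
theorem tjoin {s t : E → N} {A J : Finset E} (hJ : J ⊆ A) (y : E → ℤ) (hy0 : ∀ e, 0 ≤ y e) (c : ℤ)
    (l : E → ℤ) (h1 : ∀ e ∈ J, l e ≤ 0) (h2 : ∀ e ∈ A, e ∉ J → 0 ≤ l e)
    (cons : ∀ C ⊆ A, Ev s t C → 0 ≤ ∑ e ∈ C, l e) (par : ∀ C ⊆ A, Ev s t C → Even (∑ e ∈ C, l e))
    (hy : ∀ φ : N → ZMod 2, (∀ e ∈ cut s t A φ, l e ≠ 0) → bd s t J φ = 1 →
      c ≤ ∑ e ∈ cut s t A φ, y e) :
    c * ∑ e ∈ J, (- l e) ≤ ∑ e ∈ A, |l e| * y e := by
  induction hn : (∑ e ∈ J, (- l e)).toNat generalizing l with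
  | zero =>
    have a1 : 0 ≤ ∑ e ∈ J, (- l e) := Finset.sum_nonneg fun e he => by have := h1 e he; omega
    have a2 : ∑ e ∈ J, (- l e) = 0 := by omega
    rw [a2, mul_zero]
    exact Finset.sum_nonneg fun e _ => mul_nonneg (abs_nonneg _) (hy0 e)
  | succ n ih =>
    obtain ⟨e0, he0, hl0⟩ : ∃ e ∈ J, l e < 0 := by
      by_contra hc
      push Not at hc
      have : ∑ e ∈ J, (- l e) ≤ 0 := Finset.sum_nonpos fun e he => by have := hc e he; omega
      omega
    obtain ⟨φ, f, hf, hlf, hpos, hcons⟩ := cut_lemma cons par (hJ he0) hl0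
    set D := cut s t A φ with hD
    have hDA : D ⊆ A := Finset.filter_subset _ _
    have hfJ : f ∈ J := by
      by_contra h
      have := h2 f (hDA hf) h
      omega
    have hJD : J ∩ D = {f} := by
      ext e
      simp only [Finset.mem_inter, Finset.mem_singleton]
      constructor
      · rintro ⟨a, b⟩
        by_contra h
        have := hpos e b h
        have := h1 e a
        omega
      · rintro rfl; exact ⟨hfJ, hf⟩
    have hne : ∀ e ∈ D, l e ≠ 0 := by
      intro e he
      by_cases h : e = f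
      · rw [h]; omega
      · have := hpos e he h; omega
    have hc := hy φ hne (by rw [bd_cut hJ, ← hD, hJD]; simp)
    set l' : E → ℤ := fun e => l e - if e ∈ D then (if e = f then -1 else 1) else 0 with hl'
    have habs : ∀ e, |l e| = |l' e| + if e ∈ D then 1 else 0 := by
      intro e
      simp only [hl']
      by_cases a : e ∈ D
      · by_cases b : e = f
        · subst b; simp only [if_pos a, if_true]
          rw [abs_of_neg hlf, abs_of_nonpos (by omega)]; ring
        · have := hpos e a b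
          simp only [if_pos a, if_neg b]
          rw [abs_of_pos this, abs_of_nonneg (by omega)]; ring
      · simp [a]
    have hsum : ∑ e ∈ J, (- l e) = ∑ e ∈ J, (- l' e) + 1 := by
      simp only [hl', neg_sub]
      rw [Finset.sum_sub_distrib, Finset.sum_ite_mem, hJD, Finset.sum_singleton, if_pos rfl,
        Finset.sum_neg_distrib]
      ring
    have a0 : ∀ e ∈ J, l' e ≤ 0 := by
      intro e he
      simp only [hl']
      by_cases a : e ∈ D
      · have : e = f := by rw [← Finset.mem_singleton, ← hJD]; exact Finset.mem_inter.2 ⟨he, a⟩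
        subst this
        simp only [if_pos a, if_true]; omega
      · simp only [if_neg a]; have := h1 e he; omega
    have a1 : 0 ≤ ∑ e ∈ J, (- l' e) := Finset.sum_nonneg fun e he => by have := a0 e he; omega
    have main := ih l' a0 (by
      intro e he hn
      simp only [hl']
      by_cases a : e ∈ D
      · have b : e ≠ f := fun h => hn (h ▸ hfJ)
        have := hpos e a b
        simp only [if_pos a, if_neg b]; omega
      · simp only [if_neg a]; have := h2 e he hn; omega) hcons (by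
      intro C hC ev
      simp only [hl']
      rw [Finset.sum_sub_distrib, Finset.sum_ite_mem]
      apply (par C hC ev).sub
      have b1 := ev φ
      rw [bd_cut hC, ← hD, ZMod.natCast_eq_zero_iff_even] at b1
      have b2 : ∑ e ∈ C ∩ D, (if e = f then (-1 : ℤ) else 1) =
          ((C ∩ D).card : ℤ) - 2 * ∑ e ∈ C ∩ D, (if e = f then (1 : ℤ) else 0) := by
        rw [Finset.card_eq_sum_ones, Nat.cast_sum, Finset.mul_sum, ← Finset.sum_sub_distrib]
        apply Finset.sum_congr rfl
        intro e _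
        split_ifs <;> simp
      rw [b2]
      exact ((Int.even_coe_nat _).2 b1).sub (even_two_mul _)) (by
      intro ψ hψ hb
      apply hy ψ _ hb
      intro e he h0
      apply hψ e he
      simp only [hl']
      rw [if_neg (fun h => hne e h h0), h0]; rfl) (by omega)
    have a2 : ∑ e ∈ A, |l e| * y e = ∑ e ∈ A, |l' e| * y e + ∑ e ∈ D, y e := by
      simp only [habs, add_mul, Finset.sum_add_distrib, ite_mul, one_mul, zero_mul]
      rw [Finset.sum_ite_mem, Finset.inter_eq_right.2 hDA]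
    rw [a2, hsum]; linarith

end Pool.Agent.Lib.MP_ae9f52_co
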