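import Pool.Agent.Lib.MP_ae9f52_co.OddWalk
import Pool.Agent.Lib.MP_ae9f52_co.TJoin

/-! Plane duality for the triangular lattice and the weighted independent set bound. -/

set_option autoImplicit false
open Classical Finset
open scoped symmDiff

namespace Pool.Agent.Lib.MP_ae9f52_co

/-- offsets of the six triangles around a vertex -/
def fo : Fin 6 → ℤ × ℤ := ![(0, 0), (-1, 0), (-2, 0), (-1, -1), (0, -1), (1, -1)]

/-- the triangle to the left of a dart -/
def lf (e : (ℤ × ℤ) × Fin 6) : ℤ × ℤ := (2 * e.1.1, e.1.2) + fo e.2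

/-- the triangle to the right of a dart -/
def rf (e : (ℤ × ℤ) × Fin 6) : ℤ × ℤ := (2 * e.1.1, e.1.2) + fo (e.2 + 5)

theorem lf_rev (p : ℤ × ℤ) (k : Fin 6) : lf (p + dir k, k + 3) = rf (p, k) := by
  obtain ⟨x, y⟩ := p
  have : ((2 * (dir k).1, (dir k).2) : ℤ × ℤ) + fo (k + 3) = fo (k + 5) := by revert k; decide
  simp only [lf, rf, ← this, Prod.ext_iff, Prod.fst_add, Prod.snd_add]
  constructor <;> ring

theorem rf_rev (p : ℤ × ℤ) (k : Fin 6) : rf (p + dir k, k + 3) = lf (p, k) := by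
  obtain ⟨x, y⟩ := p
  have : ((2 * (dir k).1, (dir k).2) : ℤ × ℤ) + fo (k + 3 + 5) = fo k := by revert k; decide
  simp only [lf, rf, ← this, Prod.ext_iff, Prod.fst_add, Prod.snd_add]
  constructor <;> ring

theorem hex (φ : ℤ × ℤ → ZMod 2) (p : ℤ × ℤ) : ∑ k, (φ (lf (p, k)) + φ (rf (p, k))) = 0 := by
  have : ∑ k, φ (rf (p, k)) = ∑ k, φ (lf (p, k)) :=
    Equiv.sum_comp (Equiv.addRight (5 : Fin 6)) (fun k => φ (lf (p, k)))
  rw [Finset.sum_add_distrib, this, add_self2]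

/-- type-zero edges to the left in the same row -/
noncomputable def left (p : ℤ × ℤ) (e : (ℤ × ℤ) × Fin 6) : ZMod 2 :=
  if e.2 = 0 ∧ e.1.2 = p.2 ∧ e.1.1 < p.1 then 1 else 0

theorem ite3 {a b c d e : Prop} {_ : Decidable a} {_ : Decidable b} {_ : Decidable c}
    {_ : Decidable d} {_ : Decidable e} (h : (a ↔ b) ↔ (c ↔ ¬ (d ↔ e))) :
    ((if a then 1 else 0) + (if b then 1 else 0) : ZMod 2) =
      (if c then 1 else 0) + ((if d then 1 else 0) + (if e then 1 else 0)) := by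
  by_cases ha : a <;> by_cases hb : b <;> by_cases hc : c <;> by_cases hd : d <;> by_cases he : e <;>
    simp_all <;> decide

theorem cobound {Z : Finset ((ℤ × ℤ) × Fin 6)} (hZ : ∀ e ∈ Z, e.2 = 0 ∨ e.2 = 1 ∨ e.2 = 2)
    (ev : Ev lf rf Z) (p : ℤ × ℤ) (k : Fin 6) (hk : k = 0 ∨ k = 1 ∨ k = 2) :
    ∑ e ∈ Z, left p e + ∑ e ∈ Z, left (p + dir k) e = if (p, k) ∈ Z then 1 else 0 := by
  obtain ⟨x, y⟩ := p
  have main : ∀ φ : ℤ × ℤ → ZMod 2, (∀ e ∈ Z, φ (lf e) + φ (rf e) =
      (if e = ((x, y), k) then 1 else 0) + (left (x, y) e + left ((x, y) + dir k) e)) →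
      ∑ e ∈ Z, left (x, y) e + ∑ e ∈ Z, left ((x, y) + dir k) e =
        if ((x, y), k) ∈ Z then 1 else 0 := by
    intro φ h
    have := ev φ
    unfold bd at this
    rw [Finset.sum_congr rfl h, Finset.sum_add_distrib, Finset.sum_add_distrib,
      Finset.sum_ite_eq'] at this
    generalize (if ((x, y), k) ∈ Z then (1 : ZMod 2) else 0) = a at this ⊢
    generalize ∑ e ∈ Z, left (x, y) e + ∑ e ∈ Z, left ((x, y) + dir k) e = b at this ⊢
    clear * - this
    revert a b; decide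
  rcases hk with rfl | rfl | rfl
  · apply main (chi fun _ => False)
    rintro ⟨⟨u, v⟩, j⟩ he
    apply ite3
    rcases hZ _ he with h | h | h <;> simp only at h <;> subst h <;> simp [dir] <;> omega
  · apply main (chi fun n => n.2 = y ∧ n.1 < 2 * x)
    rintro ⟨⟨u, v⟩, j⟩ he
    apply ite3
    rcases hZ _ he with h | h | h <;> simp only at h <;> subst h <;> simp [dir, lf, rf, fo] <;> omega
  · apply main (chi fun n => n.2 = y ∧ n.1 < 2 * x - 1)
    rintro ⟨⟨u, v⟩, j⟩ he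
    apply ite3
    rcases hZ _ he with h | h | h <;> simp only at h <;> subst h <;> simp [dir, lf, rf, fo] <;> omega

theorem dart_sum {R : Type} [AddCommMonoid R] {S B : Finset (ℤ × ℤ)} (hB : S ⊆ B)
    (f : ℤ × ℤ → Fin 6 → R) (hf : ∀ p k, f p k ≠ 0 → p ∈ S ∧ p + dir k ∈ S) :
    ∑ e ∈ B ×ˢ ({0, 1, 2} : Finset (Fin 6)), (f e.1 e.2 + f (e.1 + dir e.2) (e.2 + 3)) =
      ∑ p ∈ S, ∑ k, f p k := by
  have h1 : ∀ k, ∑ p ∈ B, f p k = ∑ p ∈ S, f p k := fun k =>
    (Finset.sum_subset hB fun p _ hn => by by_contra h; exact hn (hf p k h).1).symm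
  have h2 : ∀ k, ∑ p ∈ B, f (p + dir k) (k + 3) = ∑ p ∈ S, f p (k + 3) := by
    intro k
    apply Finset.sum_bij_ne_zero (fun p _ _ => p + dir k)
    · exact fun p _ h => (hf _ _ h).1
    · exact fun a _ _ b _ _ h => add_right_cancel h
    · intro q _ h
      exact ⟨q + dir (k + 3), hB (hf _ _ h).2, by rwa [dir_back'], dir_back' _ _⟩
    · intros; rfl
  rw [Finset.sum_product_right, Finset.sum_comm (s := S), Fin.sum_univ_six]
  simp only [Finset.sum_add_distrib, h1, h2]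
  rw [Finset.sum_insert (by decide), Finset.sum_pair (by decide), Finset.sum_insert (by decide),
    Finset.sum_pair (by decide)]
  show _ + (_ + _) + (∑ p ∈ S, f p 3 + (∑ p ∈ S, f p 4 + ∑ p ∈ S, f p 5)) = _
  abel

theorem row_dir (p : ℤ × ℤ) (k : Fin 6) (hk : k = 0 ∨ k = 1 ∨ k = 2) :
    ((p.2 : ℤ) : ZMod 2) + (((p + dir k).2 : ℤ) : ZMod 2) = if k = 0 then 0 else 1 := by
  rcases hk with rfl | rfl | rfl
  · simp [dir, add_self2]
  · simp [dir, ← add_assoc, add_self2]
  · simp [dir, ← add_assoc, add_self2]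

theorem cut_mass {S B : Finset (ℤ × ℤ)} (tf : TF (· ∈ S)) (hB : S ⊆ B)
    (hB' : ∀ p ∈ S, ∀ k, p + dir k ∈ B) (φ : ℤ × ℤ → ZMod 2)
    (h1 : ∀ e ∈ cut lf rf (B ×ˢ ({0, 1, 2} : Finset (Fin 6))) φ, e.1 ∈ S ∧ e.1 + dir e.2 ∈ S)
    (h2 : bd lf rf (B ×ˢ ({0} : Finset (Fin 6))) φ = 1) :
    54 ≤ ∑ e ∈ cut lf rf (B ×ˢ ({0, 1, 2} : Finset (Fin 6))) φ,
      (zd (· ∈ S) e.1 e.2 + zd (· ∈ S) (e.1 + dir e.2) (e.2 + 3)) := by
  set c : ℤ × ℤ → Fin 6 → ZMod 2 := fun p k => φ (lf (p, k)) + φ (rf (p, k)) with hc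
  have csym : ∀ p k, c (p + dir k) (k + 3) = c p k := fun p k => by
    simp only [hc, lf_rev, rf_rev, add_comm]
  have hin : ∀ p ∈ B, ∀ k, k = 0 ∨ k = 1 ∨ k = 2 → c p k ≠ 0 → p ∈ S ∧ p + dir k ∈ S :=
    fun p hp k hk h => h1 (p, k) (Finset.mem_filter.2 ⟨Finset.mem_product.2 ⟨hp, by simpa using hk⟩, h⟩)
  have hS : ∀ p ∈ S, ∀ k, c p k ≠ 0 → p + dir k ∈ S := by
    intro p hp k h
    by_cases hk : k = 0 ∨ k = 1 ∨ k = 2
    · exact (hin p (hB hp) k hk h).2
    · exact (hin _ (hB' p hp k) (k + 3) (by clear * - hk; revert k; decide) (by rwa [csym])).1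
  set good : ℤ × ℤ → Fin 6 → Prop := fun p k => p ∈ S ∧ c p k ≠ 0 with hgood
  have gsym : ∀ p k, good p k → good (p + dir k) (k + 3) := fun p k h =>
    ⟨hS p h.1 k h.2, by rw [csym]; exact h.2⟩
  have gB : ∀ p ∈ B, ∀ k, k = 0 ∨ k = 1 ∨ k = 2 → (good p k ↔ c p k ≠ 0) := fun p hp k hk =>
    ⟨fun h => h.2, fun h => ⟨(hin p hp k hk h).1, h⟩⟩
  have gB' : ∀ p ∈ B, ∀ k, k = 0 ∨ k = 1 ∨ k = 2 → (good (p + dir k) (k + 3) ↔ c p k ≠ 0) :=
    fun p hp k hk => ⟨fun h => csym p k ▸ h.2, fun h => gsym p k ((gB p hp k hk).2 h)⟩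
  have main := odd_mass tf gsym (fun p k h => h.1) (by
    rintro ⟨κ, hκ⟩
    have e1 := dart_sum hB (fun p k => if good p k then κ p + ((p.2 : ℤ) : ZMod 2) else 0)
      (fun p k h => by
        have : good p k := by by_contra h'; exact h (if_neg h')
        exact ⟨this.1, hS p this.1 k this.2⟩)
    rw [Finset.sum_eq_zero (s := S)] at e1
    · rw [← Finset.sum_subset (s₁ := B ×ˢ ({0} : Finset (Fin 6))), Finset.sum_congr rfl
        (g := fun e => φ (lf e) + φ (rf e))] at e1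
      · exact absurd (e1.symm.trans h2) (by decide)
      · rintro ⟨p, k⟩ he
        rw [Finset.mem_product, Finset.mem_singleton] at he
        obtain ⟨hp, rfl⟩ := he
        simp only at hp ⊢
        have a1 := gB p hp 0 (Or.inl rfl)
        have a2 := gB' p hp 0 (Or.inl rfl)
        by_cases h : c p 0 = 0
        · rw [if_neg (fun h' => a1.1 h' h), if_neg (fun h' => a2.1 h' h), add_zero]; exact h.symm
        · rw [if_pos (a1.2 h), if_pos (a2.2 h)]
          have b1 := hκ p 0 (a1.2 h)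
          have b2 := row_dir p 0 (Or.inl rfl)
          have b3 : φ (lf (p, 0)) + φ (rf (p, 0)) = 1 := zmod_one h
          rw [if_pos rfl] at b2
          rw [b3]
          linear_combination b1 + b2
      · exact Finset.product_subset_product_right (by decide)
      · rintro ⟨p, k⟩ he hn
        rw [Finset.mem_product] at he hn
        have hk : k = 0 ∨ k = 1 ∨ k = 2 := by simpa using he.2
        have hk0 : k ≠ 0 := fun h => hn ⟨he.1, by simpa using h⟩
        have a1 := gB p he.1 k hk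
        have a2 := gB' p he.1 k hk
        simp only
        by_cases h : c p k = 0
        · rw [if_neg (fun h' => a1.1 h' h), if_neg (fun h' => a2.1 h' h), add_zero]
        · rw [if_pos (a1.2 h), if_pos (a2.2 h)]
          have b1 := hκ p k (a1.2 h)
          have b2 := row_dir p k hk
          rw [if_neg hk0] at b2
          linear_combination b1 + b2 + add_self2 1
    · intro p hp
      have : ∀ k, (if good p k then κ p + ((p.2 : ℤ) : ZMod 2) else 0) =
          (κ p + ((p.2 : ℤ) : ZMod 2)) * c p k := by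
        intro k
        by_cases h : c p k = 0
        · rw [if_neg (fun h' => h'.2 h), h, mul_zero]
        · rw [if_pos ⟨hp, h⟩, zmod_one h, mul_one]
      simp only [this]
      rw [← Finset.mul_sum, hex, mul_zero])
  rw [← dart_sum hB _ (fun p k h => by
    have : good p k := by by_contra h'; exact h (if_neg h')
    exact ⟨this.1, hS p this.1 k this.2⟩)] at main
  refine main.trans (le_of_eq ?_)
  rw [cut, Finset.sum_filter]
  apply Finset.sum_congr rfl
  rintro ⟨p, k⟩ he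
  rw [Finset.mem_product] at he
  have hk : k = 0 ∨ k = 1 ∨ k = 2 := by simpa using he.2
  have a1 := gB p he.1 k hk
  have a2 := gB' p he.1 k hk
  simp only
  by_cases h : c p k = 0
  · rw [if_neg (fun h' => a1.1 h' h), if_neg (fun h' => a2.1 h' h), if_neg (not_not.2 h), add_zero]
  · rw [if_pos (a1.2 h), if_pos (a2.2 h), if_pos h]

theorem min_join {N E : Type} {s t : E → N} {A J0 : Finset E} (hJ0A : J0 ⊆ A) (m y : E → ℕ) (c : ℕ)
    (hy : ∀ φ : N → ZMod 2, (∀ e ∈ cut s t A φ, m e ≠ 0) → bd s t J0 φ = 1 →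
      c ≤ ∑ e ∈ cut s t A φ, y e) :
    ∃ Z ⊆ A, Ev s t Z ∧ ∃ J : Finset E, (∀ e, e ∉ J → (e ∈ J0 ↔ e ∈ Z)) ∧
      c * ∑ e ∈ J, m e ≤ ∑ e ∈ A, m e * y e := by
  set w : E → ℤ := fun e => 2 * m e with hw
  have w0 : ∀ e, 0 ≤ w e := fun e => by positivity
  obtain ⟨Z, hZ, hmin⟩ := Finset.exists_min_image (A.powerset.filter (Ev s t))
    (fun Z => ∑ e ∈ J0 ∆ Z, w e) ⟨∅, by simp [Ev, bd]⟩
  rw [Finset.mem_filter, Finset.mem_powerset] at hZ
  set J := J0 ∆ Z with hJ
  set l : E → ℤ := fun e => if e ∈ J then - w e else w e with hl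
  have habs : ∀ e, |l e| = w e := fun e => by
    simp only [hl]; split_ifs
    · rw [abs_neg, abs_of_nonneg (w0 e)]
    · exact abs_of_nonneg (w0 e)
  have main := tjoin (s := s) (t := t) (J := J) (sd_sub hJ0A hZ.1) (fun e => (y e : ℤ))
    (fun e => by positivity) c l
    (fun e he => by simp only [hl]; rw [if_pos he]; linarith [w0 e])
    (fun e _ he => by simp only [hl]; rw [if_neg he]; exact w0 e)
    (fun C hC ev => by
      have h1 := hmin (Z ∆ C) (Finset.mem_filter.2 ⟨Finset.mem_powerset.2 (sd_sub hZ.1 hC),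
        hZ.2.sd ev⟩)
      rw [← symmDiff_assoc, ← hJ, sum_sd w J C] at h1
      have h2 : ∑ e ∈ C, l e = ∑ e ∈ C, w e - 2 * ∑ e ∈ J ∩ C, w e := by
        rw [Finset.inter_comm, ← Finset.sum_ite_mem, Finset.mul_sum, ← Finset.sum_sub_distrib]
        apply Finset.sum_congr rfl
        intro e _
        simp only [hl]; split_ifs <;> ring
      linarith)
    (fun C _ _ => Finset.even_sum _ fun e _ => by
      simp only [hl, hw]; split_ifs <;> simp)
    (fun φ h1 h2 => by
      rw [bd_sd, hZ.2 φ, add_zero] at h2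
      have := hy φ (fun e he hn => by
        apply h1 e he
        rw [← abs_eq_zero, habs]
        simp only [hw, hn]; rfl) h2
      exact_mod_cast this)
  refine ⟨Z, hZ.1, hZ.2, J, fun e he => ?_, ?_⟩
  · rw [hJ, Finset.mem_symmDiff] at he; tauto
  · have e1 : ∑ e ∈ J, - l e = 2 * ((∑ e ∈ J, m e : ℕ) : ℤ) := by
      rw [Nat.cast_sum, Finset.mul_sum]
      apply Finset.sum_congr rfl
      intro e he
      simp only [hl, hw, if_pos he, neg_neg]
    have e5 : ∑ e ∈ A, |l e| * (y e : ℤ) = 2 * ((∑ e ∈ A, m e * y e : ℕ) : ℤ) := by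
      rw [Nat.cast_sum, Finset.mul_sum]
      apply Finset.sum_congr rfl
      intro e _
      rw [habs, Nat.cast_mul, mul_assoc]
    rw [e1, e5, mul_left_comm, ← Nat.cast_mul] at main
    omega

theorem exists_join {S : Finset (ℤ × ℤ)} (tf : TF (· ∈ S)) (a : ℤ × ℤ → ℕ) :
    ∃ (J : Finset ((ℤ × ℤ) × Fin 6)) (κ : ℤ × ℤ → ZMod 2),
      (∀ p ∈ S, ∀ k, k = 0 ∨ k = 1 ∨ k = 2 → (p, k) ∉ J → κ p + κ (p + dir k) = 1) ∧
      9 * ∑ e ∈ J, (if e.1 ∈ S ∧ e.1 + dir e.2 ∈ S then min (a e.1) (a (e.1 + dir e.2)) else 0) ≤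
        ∑ p ∈ S, a p := by
  set B := S ∪ (S ×ˢ (Finset.univ : Finset (Fin 6))).image (fun e => e.1 + dir e.2) with hBd
  have hB : S ⊆ B := Finset.subset_union_left
  have hB' : ∀ p ∈ S, ∀ k, p + dir k ∈ B := fun p hp k =>
    Finset.mem_union_right _ (Finset.mem_image.2 ⟨(p, k), by simpa using hp, rfl⟩)
  clear_value B
  set m : (ℤ × ℤ) × Fin 6 → ℕ := fun e =>
    if e.1 ∈ S ∧ e.1 + dir e.2 ∈ S then min (a e.1) (a (e.1 + dir e.2)) else 0 with hm
  obtain ⟨Z, hZ, ev, J, hJ, main⟩ := min_join (s := lf) (t := rf)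
    (A := B ×ˢ ({0, 1, 2} : Finset (Fin 6))) (J0 := B ×ˢ ({0} : Finset (Fin 6)))
    (Finset.product_subset_product_right (by decide)) m
    (fun e => zd (· ∈ S) e.1 e.2 + zd (· ∈ S) (e.1 + dir e.2) (e.2 + 3)) 54
    (fun φ h1 h2 => cut_mass tf hB hB' φ (fun e he => by
      by_contra hn
      exact h1 e he (if_neg hn)) h2)
  refine ⟨J, fun p => ∑ e ∈ Z, left p e + ((p.2 : ℤ) : ZMod 2), fun p hp k hk hn => ?_, ?_⟩
  · have b1 := cobound (fun e he => by simpa using (Finset.mem_product.1 (hZ he)).2) ev p k hk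
    have b2 := row_dir p k hk
    have b3 := hJ _ hn
    rw [Finset.mem_product, Finset.mem_singleton] at b3
    simp only [hB hp, true_and] at b3
    by_cases h0 : k = 0
    · rw [if_pos h0] at b2
      rw [if_pos (by tauto)] at b1
      linear_combination b1 + b2
    · rw [if_neg h0] at b2
      rw [if_neg (by tauto)] at b1
      linear_combination b1 + b2
  · have e2 := dart_sum hB (fun p k => if p ∈ S ∧ p + dir k ∈ S then a p * zd (· ∈ S) p k else 0)
      (fun p k h => by by_contra h'; exact h (if_neg h'))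
    have e3 : ∑ p ∈ S, ∑ k, (if p ∈ S ∧ p + dir k ∈ S then a p * zd (· ∈ S) p k else 0) ≤
        6 * ∑ p ∈ S, a p := by
      rw [Finset.mul_sum]
      apply Finset.sum_le_sum
      intro p hp
      have := Nat.mul_le_mul_left (a p) (mass_le tf hp)
      rw [Finset.mul_sum, mul_comm (a p) 6] at this
      refine le_trans (le_of_eq ?_) this
      apply Finset.sum_congr rfl
      intro k _
      simp [hp]
    have e4 : ∑ e ∈ B ×ˢ ({0, 1, 2} : Finset (Fin 6)),
        m e * (zd (· ∈ S) e.1 e.2 + zd (· ∈ S) (e.1 + dir e.2) (e.2 + 3)) ≤ 6 * ∑ p ∈ S, a p := by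
      refine le_trans ?_ e3
      rw [← e2]
      apply Finset.sum_le_sum
      intro e _
      simp only [hm, dir_back]
      by_cases h : e.1 ∈ S ∧ e.1 + dir e.2 ∈ S
      · rw [if_pos h, if_pos h, if_pos h.symm, mul_add]
        exact add_le_add (Nat.mul_le_mul_right _ (min_le_left _ _))
          (Nat.mul_le_mul_right _ (min_le_right _ _))
      · rw [if_neg h, zero_mul]; exact Nat.zero_le _
    show 9 * ∑ e ∈ J, m e ≤ _
    omega

theorem exists_indep {S : Finset (ℤ × ℤ)} (tf : TF (· ∈ S)) (a : ℤ × ℤ → ℕ) :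
    ∃ I ∈ inds T S, 4 * ∑ p ∈ S, a p ≤ 9 * ∑ p ∈ I, a p := by
  obtain ⟨J, κ, h1, h2⟩ := exists_join tf a
  set ce : (ℤ × ℤ) × Fin 6 → ℤ × ℤ := fun e =>
    if a e.1 ≤ a (e.1 + dir e.2) then e.1 else e.1 + dir e.2 with hce
  set D := (J.filter (fun e => e.1 ∈ S ∧ e.1 + dir e.2 ∈ S)).image ce with hD
  have hDa : 9 * ∑ p ∈ D, a p ≤ ∑ p ∈ S, a p := by
    refine le_trans (Nat.mul_le_mul_left _ ?_) h2
    refine (Finset.sum_image_le_of_nonneg (fun _ _ => Nat.zero_le _)).trans (le_of_eq ?_)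
    rw [Finset.sum_filter]
    apply Finset.sum_congr rfl
    intro e _
    simp only [hce]
    split_ifs with b1 b2
    · exact (min_eq_left b2).symm
    · exact (min_eq_right (by omega)).symm
    · rfl
  have key : ∀ p ∈ S \ D, ∀ k, k = 0 ∨ k = 1 ∨ k = 2 → p + dir k ∈ S \ D →
      κ p + κ (p + dir k) = 1 := by
    intro p hp k hk hq
    rw [Finset.mem_sdiff] at hp hq
    refine h1 p hp.1 k hk fun hJ => ?_
    have : ce (p, k) ∈ D := Finset.mem_image_of_mem _ (Finset.mem_filter.2 ⟨hJ, hp.1, hq.1⟩)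
    simp only [hce] at this
    split_ifs at this
    exacts [hp.2 this, hq.2 this]
  have hind : ∀ i, (S \ D).filter (fun p => κ p = i) ∈ inds T S := by
    intro i
    refine mem_inds.2 ⟨(Finset.filter_subset _ _).trans Finset.sdiff_subset, ?_⟩
    intro u hu v hv _ hadj
    rw [Finset.mem_coe, Finset.mem_filter] at hu hv
    obtain ⟨k, rfl⟩ := (T_adj_dir _ _).1 hadj
    have : κ u + κ (u + dir k) = 1 := by
      by_cases hk : k = 0 ∨ k = 1 ∨ k = 2
      · exact key u hu.1 k hk hv.1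
      · have := key _ hv.1 (k + 3) (by clear * - hk; revert k; decide) (by rw [dir_back]; exact hu.1)
        rwa [dir_back, add_comm] at this
    rw [hu.2, hv.2, add_self2] at this
    exact absurd this (by decide)
  have e1 := Finset.sum_filter_add_sum_filter_not (S \ D) (fun p => κ p = 0) a
  have e2 : (S \ D).filter (fun p => ¬ κ p = 0) = (S \ D).filter (fun p => κ p = 1) :=
    Finset.filter_congr fun p _ => ⟨zmod_one, fun h => by rw [h]; decide⟩
  have e3 : ∑ p ∈ S, a p ≤ ∑ p ∈ S \ D, a p + ∑ p ∈ D, a p := by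
    rw [← Finset.sum_inter_add_sum_sdiff S D, add_comm]
    exact Nat.add_le_add_left (Finset.sum_le_sum_of_subset Finset.inter_subset_right) _
  rw [e2] at e1
  by_cases h : ∑ p ∈ (S \ D).filter (fun p => κ p = 1), a p ≤
    ∑ p ∈ (S \ D).filter (fun p => κ p = 0), a p
  · exact ⟨_, hind 0, by omega⟩
  · exact ⟨_, hind 1, by omega⟩

end Pool.Agent.Lib.MP_ae9f52_co
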