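import Mathlib

/-! Real inequalities for the bound 29/24. -/

set_option autoImplicit false

namespace Pool.Agent.Lib.MP_ae9f52_co

/-- threshold law -/
noncomputable def gg (a : ℝ) : ℝ := min 1 (11 / 20 + 9 / 10 * a)

/-- extra loss -/
noncomputable def ex (a b c : ℝ) : ℝ := max 0 (3 / 80 - a / 12) * max 0 (1 / 2 - min b c)

/-- lower bound for the probability of a vertex -/
noncomputable def lb (a b c : ℝ) : ℝ :=
  3 / 4 * a + 1 / 24 * (2 * gg a + 2 - gg b - gg c) - a * (1 - a) / 4 - ex a b c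

theorem gg_mono {a b : ℝ} (h : a ≤ b) : gg a ≤ gg b := by
  unfold gg; apply min_le_min le_rfl; linarith

theorem gg_le_one (a : ℝ) : gg a ≤ 1 := min_le_left _ _

theorem gg_nonneg {a : ℝ} (h : 0 ≤ a) : 0 ≤ gg a := by
  unfold gg; apply le_min <;> linarith

theorem ex_nonneg (a b c : ℝ) : 0 ≤ ex a b c := mul_nonneg (le_max_left _ _) (le_max_left _ _)

theorem ex_comm (a b c : ℝ) : ex a b c = ex a c b := by unfold ex; rw [min_comm]

theorem lb_comm (a b c : ℝ) : lb a b c = lb a c b := by unfold lb; rw [ex_comm]; ring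

theorem gain {a b c r : ℝ} (ha : 0 ≤ a) (h : b ≤ r) :
    1 / 24 * (gg r - gg b) - a * (r - b) / 12 ≤ ex a b c := by
  have h1 : 1 / 2 - b ≤ max 0 (1 / 2 - min b c) :=
    le_trans (by linarith [min_le_left b c]) (le_max_right _ _)
  have h2 : 0 ≤ max 0 (1 / 2 - min b c) := le_max_left _ _
  have h3 : 3 / 80 - a / 12 ≤ max 0 (3 / 80 - a / 12) := le_max_right _ _
  have h4 : 0 ≤ max 0 (3 / 80 - a / 12) := le_max_left _ _
  unfold ex
  generalize max 0 (1 / 2 - min b c) = m at *
  generalize max 0 (3 / 80 - a / 12) = k at *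
  by_cases hb : 1 / 2 ≤ b
  · have : gg b = 1 := by unfold gg; apply min_eq_left; linarith
    have := gg_le_one r
    have := mul_nonneg ha (sub_nonneg.2 h)
    have := mul_nonneg h4 h2
    linarith
  · have e : gg b = 11 / 20 + 9 / 10 * b := by unfold gg; apply min_eq_right; linarith
    rw [e]
    by_cases hr : 1 / 2 ≤ r
    · have := gg_le_one r
      have h5 : a * (1 / 2 - b) ≤ a * (r - b) := mul_le_mul_of_nonneg_left (by linarith) ha
      have h6 : (3 / 80 - a / 12) * (1 / 2 - b) ≤ k * m :=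
        mul_le_mul h3 h1 (by linarith) h4
      nlinarith
    · have : gg r ≤ 11 / 20 + 9 / 10 * r := min_le_right _ _
      have h6 : (3 / 80 - a / 12) * (r - b) ≤ k * m :=
        mul_le_mul h3 (by linarith) (by linarith) h4
      nlinarith

theorem vert {a b c p q r s m0 m1 : ℝ} (ha : 0 ≤ a) (h0 : a + b + c = 1) (h1 : a + c + p ≤ 1)
    (h2 : a + p + q ≤ 1) (h3 : a + q + r ≤ 1) (h4 : a + r + s ≤ 1) (h5 : a + s + b ≤ 1)
    (hm0 : m0 ≤ max (gg b) (max (gg p) (gg r))) (hm1 : m1 ≤ max (gg c) (max (gg q) (gg s))) :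
    lb a b c ≤ 3 / 4 * (a * (1 - 1 / 9 * (b + c + p + q + r + s))) +
      1 / 24 * (2 * gg a + 2 - m0 - m1) := by
  have hp : gg p ≤ gg b := gg_mono (by linarith)
  have hs : gg s ≤ gg c := gg_mono (by linarith)
  unfold lb
  by_cases hr : b ≤ r
  · have e0 : m0 ≤ gg r := hm0.trans (max_le (gg_mono hr) (max_le (hp.trans (gg_mono hr)) le_rfl))
    have e1 : m1 ≤ gg c := hm1.trans (max_le le_rfl (max_le (gg_mono (by linarith)) hs))
    have e2 := gain (c := c) ha hr
    have e3 : a * (b + c + p + q + r + s) ≤ a * (3 * (1 - a) - (r - b)) :=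
      mul_le_mul_of_nonneg_left (by linarith) ha
    nlinarith
  · by_cases hq : c ≤ q
    · have e0 : m0 ≤ gg b := hm0.trans (max_le le_rfl (max_le hp (gg_mono (by linarith))))
      have e1 : m1 ≤ gg q := hm1.trans (max_le (gg_mono hq) (max_le le_rfl (hs.trans (gg_mono hq))))
      have e2 := gain (c := b) ha hq
      rw [ex_comm] at e2
      have e3 : a * (b + c + p + q + r + s) ≤ a * (3 * (1 - a) - (q - c)) :=
        mul_le_mul_of_nonneg_left (by linarith) ha
      nlinarith
    · have e0 : m0 ≤ gg b := hm0.trans (max_le le_rfl (max_le hp (gg_mono (by linarith))))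
      have e1 : m1 ≤ gg c := hm1.trans (max_le le_rfl (max_le (gg_mono (by linarith)) hs))
      have e2 := ex_nonneg a b c
      have e3 : a * (b + c + p + q + r + s) ≤ a * (3 * (1 - a)) :=
        mul_le_mul_of_nonneg_left (by linarith) ha
      nlinarith

theorem tri_sorted {a b c : ℝ} (ha : 0 ≤ a) (hab : a ≤ b) (hbc : b ≤ c) (h : a + b + c = 1) :
    24 / 29 ≤ lb a b c + lb b c a + lb c a b := by
  have hc : c = 1 - a - b := by linarith
  unfold lb ex
  rw [min_eq_left hbc, min_eq_right (hab.trans hbc), min_eq_left hab,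
    max_eq_right (show 0 ≤ 1 / 2 - b by linarith), max_eq_right (show 0 ≤ 1 / 2 - a by linarith),
    max_eq_right (show 0 ≤ 3 / 80 - a / 12 by linarith)]
  by_cases h1 : c ≤ 9 / 20
  · rw [max_eq_right (show 0 ≤ 3 / 80 - b / 12 by linarith),
      max_eq_right (show 0 ≤ 3 / 80 - c / 12 by linarith)]
    subst hc
    nlinarith [sq_nonneg (a - 7 / 22), sq_nonneg (b - 33 / 100), sq_nonneg (a + b - 648 / 1000)]
  · rw [max_eq_left (show 3 / 80 - c / 12 ≤ 0 by linarith)]
    by_cases h2 : b ≤ 9 / 20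
    · rw [max_eq_right (show 0 ≤ 3 / 80 - b / 12 by linarith)]
      subst hc
      nlinarith [sq_nonneg (a - b), sq_nonneg (a + b - 11 / 20)]
    · rw [max_eq_left (show 3 / 80 - b / 12 ≤ 0 by linarith)]
      subst hc
      nlinarith [sq_nonneg (a - b), sq_nonneg (a + b - 11 / 20)]

theorem tri_all {a b c : ℝ} (ha : 0 ≤ a) (hb : 0 ≤ b) (hc : 0 ≤ c) (h : a + b + c = 1) :
    24 / 29 ≤ lb a b c + lb b c a + lb c a b := by
  rcases le_total a b with h1 | h1 <;> rcases le_total b c with h2 | h2 <;>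
    rcases le_total a c with h3 | h3
  · exact tri_sorted ha h1 h2 h
  · exact tri_sorted ha h1 h2 h
  · have := tri_sorted ha h3 h2 (by linarith); rw [lb_comm a, lb_comm b, lb_comm c]; linarith
  · have := tri_sorted hc h3 h1 (by linarith); linarith
  · have := tri_sorted hb h1 h3 (by linarith); rw [lb_comm a, lb_comm b, lb_comm c]; linarith
  · have := tri_sorted hb h2 h3 (by linarith); linarith
  · have := tri_sorted hc h2 h1 (by linarith); rw [lb_comm a, lb_comm b, lb_comm c]; linarith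
  · have := tri_sorted hc h2 h1 (by linarith); rw [lb_comm a, lb_comm b, lb_comm c]; linarith

theorem edge_sorted {a b : ℝ} (ha : 0 ≤ a) (hab : a ≤ b) (h : a + b = 1) :
    24 / 29 ≤ lb a b 0 + lb b 0 a := by
  have hc : b = 1 - a := by linarith
  have g0 : gg 0 = 11 / 20 := by unfold gg; norm_num
  have g1 : gg b = 1 := by unfold gg; apply min_eq_left; linarith
  have g2 : gg a = 11 / 20 + 9 / 10 * a := by unfold gg; apply min_eq_right; linarith
  unfold lb ex
  rw [g0, g1, g2, min_eq_right (ha.trans hab), min_eq_left ha,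
    max_eq_left (show 3 / 80 - b / 12 ≤ 0 by linarith),
    max_eq_right (show (0:ℝ) ≤ 1 / 2 - 0 by norm_num)]
  subst hc
  by_cases h1 : a ≤ 9 / 20
  · rw [max_eq_right (show 0 ≤ 3 / 80 - a / 12 by linarith)]
    nlinarith [sq_nonneg (a - 42 / 100)]
  · rw [max_eq_left (show 3 / 80 - a / 12 ≤ 0 by linarith)]
    nlinarith [sq_nonneg (a - 4625 / 10000)]

theorem edge_all {a b : ℝ} (ha : 0 ≤ a) (hb : 0 ≤ b) (h : a + b = 1) :
    24 / 29 ≤ lb a b 0 + lb b 0 a := by
  rcases le_total a b with h1 | h1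
  · exact edge_sorted ha h1 h
  · have := edge_sorted hb h1 (by linarith); rw [lb_comm a, lb_comm b]; linarith

theorem single : 24 / 29 ≤ lb 1 0 0 := by
  unfold lb ex gg; norm_num

/-- the three cases together -/
theorem clique_ineq {a b c za zb zc : ℝ} (ha : 0 ≤ a) (hb : 0 ≤ b) (hc : 0 ≤ c) (h : a + b + c = 1)
    (h1 : a ≠ 0 → lb a b c ≤ za) (h2 : b ≠ 0 → lb b c a ≤ zb) (h3 : c ≠ 0 → lb c a b ≤ zc)
    (p1 : 0 ≤ za) (p2 : 0 ≤ zb) (p3 : 0 ≤ zc) : 24 / 29 ≤ za + zb + zc := by
  by_cases a0 : a = 0 <;> by_cases b0 : b = 0 <;> by_cases c0 : c = 0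
  · exfalso; rw [a0, b0, c0] at h; norm_num at h
  · have := h3 c0; have e : c = 1 := by linarith
    rw [a0, b0, e] at this; linarith [single]
  · have := h2 b0; have e : b = 1 := by linarith
    rw [a0, c0, e] at this; linarith [single]
  · have := h2 b0; have := h3 c0; subst a0
    linarith [edge_all hb hc (by linarith)]
  · have := h1 a0; have e : a = 1 := by linarith
    rw [b0, c0, e] at this; linarith [single]
  · have := h1 a0; have := h3 c0; subst b0
    linarith [edge_all hc ha (by linarith)]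
  · have := h1 a0; have := h2 b0; subst c0
    linarith [edge_all ha hb (by linarith)]
  · linarith [tri_all ha hb hc h, h1 a0, h2 b0, h3 c0]

end Pool.Agent.Lib.MP_ae9f52_co
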