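import Pool.Agent.Lib.MP_ae9f52_co.Lattice
import Pool.Agent.Lib.MP_ae9f52_co.Ineq

/-! The bound 29/24 for all induced subgraphs of the triangular lattice. -/

set_option autoImplicit false
open Classical Finset

namespace Pool.Agent.Lib.MP_ae9f52_co

theorem avg3 {V : Type} {G : SimpleGraph V} {S : Finset V} {a b c : V → ℝ} (ha : a ∈ Stab G S)
    (hb : b ∈ Stab G S) (hc : c ∈ Stab G S) : (fun v => (a v + b v + c v) / 3) ∈ Stab G S := by
  have := mem_Stab_of_sum (G := G) (S := S) (Finset.univ : Finset (Fin 3)) (fun _ => 1 / 3) ![a, b, c]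
    (fun _ _ => by norm_num) (by simp) (fun i _ => by fin_cases i <;> simpa)
  convert this using 1
  ext v; simp [Fin.sum_univ_three]; ring

theorem ar_shift (a b : ℤ) (y : ℝ) (h1 : a - b ≤ 1) (h2 : b - a ≤ 1) :
    (if (a - 0) / 3 ≠ (b - 0) / 3 then y else 0) + (if (a - 1) / 3 ≠ (b - 1) / 3 then y else 0) +
      (if (a - 2) / 3 ≠ (b - 2) / 3 then y else 0) = if a ≠ b then y else 0 := by
  split_ifs <;> first | (exfalso; omega) | simp

theorem coord_mem (C : Coord T) {S : Finset (ℤ × ℤ)} {x : ℤ × ℤ → ℝ} (hx : x ∈ Q T S) :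
    (fun v => x v * (1 - (1 / 6) * ∑ k : Fin 6,
      if C.ρ (v + dir k) ≠ C.ρ v then x (v + dir k) else 0)) ∈ Stab T S := by
  have := avg3 (strips_mem C 0 hx) (strips_mem C 1 hx) (strips_mem C 2 hx)
  convert this using 1
  ext v
  rw [nbr_sum hx.2.1, nbr_sum hx.2.1, nbr_sum hx.2.1]
  have e : ∀ k : Fin 6, (if C.ρ (v + dir k) ≠ C.ρ v then x (v + dir k) else 0) = _ := fun k =>
    (ar_shift _ _ _ (C.bd (adj_dir v k)).2.1 (C.bd (adj_dir v k)).1).symm
  rw [Finset.sum_congr rfl (fun k _ => e k), Finset.sum_add_distrib, Finset.sum_add_distrib]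
  ring

theorem P_mem {S : Finset (ℤ × ℤ)} {x : ℤ × ℤ → ℝ} (hx : x ∈ Q T S) :
    (fun v => x v * (1 - (1 / 9) * ∑ k : Fin 6, x (v + dir k))) ∈ Stab T S := by
  have := avg3 (coord_mem C0 hx) (coord_mem C1 hx) (coord_mem C2 hx)
  convert this using 1
  ext v
  simp [Fin.sum_univ_six, C0, C1, C2, dir]
  rw [if_pos (by omega), if_pos (by omega)]
  ring

theorem bip_edges {V : Type} {G : SimpleGraph V} {A : Finset V} (ψ : V → Prop)
    (hψ : ∀ u ∈ A, ∀ v ∈ A, G.Adj u v → (ψ u ↔ ¬ ψ v)) {y : V → ℝ} (h0 : ∀ v, 0 ≤ y v)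
    (h1 : ∀ v, y v ≤ 1) (h2 : ∀ v, v ∉ A → y v = 0)
    (h3 : ∀ u ∈ A, ∀ v ∈ A, G.Adj u v → y u + y v ≤ 1) : y ∈ Stab G A := by
  apply bip_mem ψ hψ
  refine ⟨h0, h2, fun K hK hc => ?_⟩
  rcases K.eq_empty_or_nonempty with rfl | ⟨a, ha⟩
  · simp
  by_cases h : ∃ b ∈ K, b ≠ a
  · obtain ⟨b, hb, hne⟩ := h
    have hab := hc ha hb hne.symm
    have : K = {a, b} := by
      ext c
      simp only [Finset.mem_insert, Finset.mem_singleton]
      constructor
      · intro hcK
        by_contra hn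
        push Not at hn
        have e1 := hψ a (hK ha) b (hK hb) hab
        have e2 := hψ a (hK ha) c (hK hcK) (hc ha hcK (Ne.symm hn.1))
        have e3 := hψ b (hK hb) c (hK hcK) (hc hb hcK (Ne.symm hn.2))
        tauto
      · rintro (rfl | rfl) <;> assumption
    rw [this, Finset.sum_pair hab.ne]
    exact h3 a (hK ha) b (hK hb) hab
  · push Not at h
    rw [Finset.sum_eq_single a (fun b hb hne => absurd (h b hb) hne) (fun h => absurd ha h)]
    exact h1 a

/-- colour class -/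
def cls (v : ℤ × ℤ) : ℤ := (v.1 - v.2) % 3

/-- largest threshold value among three alternate neighbours -/
noncomputable def mx (x : ℤ × ℤ → ℝ) (v : ℤ × ℤ) (k : Fin 6) : ℝ :=
  max (gg (x (v + dir k))) (max (gg (x (v + dir (k + 2)))) (gg (x (v + dir (k + 4)))))

theorem cls_dir (v : ℤ × ℤ) (k : Fin 6) : cls (v + dir k) = (cls v + 1 + (k : ℕ) % 2) % 3 := by
  unfold cls
  fin_cases k <;> simp [dir] <;> omega

theorem B_one {S : Finset (ℤ × ℤ)} {x : ℤ × ℤ → ℝ} (hx : x ∈ Q T S) (j : ℤ) (k : Fin 6) :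
    (fun v => if x v = 0 then 0 else if cls v = (j + 1 + (k : ℕ) % 2) % 3 then gg (x v) else
      if cls v = j % 3 then 1 - mx x v k else 0) ∈ Stab T S := by
  set A := S.filter (fun v => cls v = (j + 1 + (k : ℕ) % 2) % 3 ∨ cls v = j % 3) with hA
  have hjk : (j + 1 + (k : ℕ) % 2) % 3 ≠ j % 3 := by omega
  apply Stab_mono (Finset.filter_subset _ _ : A ⊆ S)
  have hmx : ∀ v, 0 ≤ mx x v k ∧ mx x v k ≤ 1 := fun v =>
    ⟨le_max_of_le_left (gg_nonneg (hx.1 _)),
      max_le (gg_le_one _) (max_le (gg_le_one _) (gg_le_one _))⟩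
  have hne : ∀ u v, T.Adj u v → cls u ≠ cls v := by
    intro u v h
    obtain ⟨i, rfl⟩ := (T_adj_dir _ _).1 h
    rw [cls_dir]; unfold cls; omega
  have key : ∀ u v, T.Adj u v → cls u = j % 3 → cls v = (j + 1 + (k : ℕ) % 2) % 3 →
      gg (x v) ≤ mx x u k := by
    intro u v h hu hv
    obtain ⟨i, rfl⟩ := (T_adj_dir _ _).1 h
    rw [cls_dir, hu] at hv
    have : (i : ℕ) % 2 = (k : ℕ) % 2 := by omega
    have : i = k ∨ i = k + 2 ∨ i = k + 4 := by
      clear hv h hjk hA hmx A
      revert this; revert i k; decide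
    unfold mx
    rcases this with rfl | rfl | rfl
    · exact le_max_left _ _
    · exact le_max_of_le_right (le_max_left _ _)
    · exact le_max_of_le_right (le_max_right _ _)
  apply bip_edges (fun v => cls v = j % 3)
  · intro u hu v hv h
    have := hne u v h
    rw [Finset.mem_filter] at hu hv
    omega
  · intro v
    split_ifs
    · exact le_rfl
    · exact gg_nonneg (hx.1 v)
    · linarith [(hmx v).2]
    · exact le_rfl
  · intro v
    split_ifs
    · norm_num
    · exact gg_le_one _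
    · linarith [(hmx v).1]
    · norm_num
  · intro v hv
    rw [Finset.mem_filter, not_and_or, not_or] at hv
    rcases hv with hv | hv
    · simp [hx.2.1 v hv]
    · simp [hv.1, hv.2]
  · intro u hu v hv h
    have h1 := hne u v h
    rw [Finset.mem_filter] at hu hv
    have := hmx u
    have := hmx v
    have := gg_le_one (x u)
    have := gg_le_one (x v)
    rcases hu.2 with h2 | h2 <;> rcases hv.2 with h3 | h3
    · exact absurd (h2.trans h3.symm) h1
    · have := key v u h.symm h3 h2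
      simp only [if_pos h2, if_pos h3, if_neg (h3 ▸ hjk.symm :  ¬ cls v = _)]
      split_ifs <;> linarith
    · have := key u v h h2 h3
      simp only [if_pos h2, if_pos h3, if_neg (h2 ▸ hjk.symm :  ¬ cls u = _)]
      split_ifs <;> linarith
    · exact absurd (h2.trans h3.symm) h1

theorem B_three {S : Finset (ℤ × ℤ)} {x : ℤ × ℤ → ℝ} (hx : x ∈ Q T S) (k : Fin 6) :
    (fun v => if x v = 0 then 0 else (gg (x v) + (1 - mx x v k)) / 3) ∈ Stab T S := by
  have := avg3 (B_one hx 0 k) (B_one hx 1 k) (B_one hx 2 k)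
  convert this using 1
  ext v
  by_cases h : x v = 0
  · simp [h]
  · simp only [h, if_false]
    have h3 : cls v = 0 ∨ cls v = 1 ∨ cls v = 2 := by unfold cls; omega
    have hk : ((k : ℕ) : ℤ) % 2 = 0 ∨ ((k : ℕ) : ℤ) % 2 = 1 := by omega
    rcases h3 with h3 | h3 | h3 <;> rcases hk with hk | hk <;> rw [h3, hk] <;> norm_num <;> ring

/-- the final random independent set -/
noncomputable def zz (x : ℤ × ℤ → ℝ) (v : ℤ × ℤ) : ℝ :=
  3 / 4 * (x v * (1 - (1 / 9) * ∑ k : Fin 6, x (v + dir k))) +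
    if x v = 0 then 0 else 1 / 24 * (2 * gg (x v) + 2 - mx x v 0 - mx x v 1)

theorem zz_mem {S : Finset (ℤ × ℤ)} {x : ℤ × ℤ → ℝ} (hx : x ∈ Q T S) : zz x ∈ Stab T S := by
  have h1 := convex_Stab S (B_three hx 0) (B_three hx 1) (a := 1 / 2) (b := 1 / 2) (by norm_num)
    (by norm_num) (by norm_num)
  have h2 := convex_Stab S (P_mem hx) h1 (a := 3 / 4) (b := 1 / 4) (by norm_num)
    (by norm_num) (by norm_num)
  convert h2 using 1
  ext v
  simp only [zz, Pi.add_apply, Pi.smul_apply, smul_eq_mul]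
  split_ifs <;> ring

theorem mx_rot (x : ℤ × ℤ → ℝ) (v : ℤ × ℤ) (k : Fin 6) : mx x v (k + 2) = mx x v k := by
  unfold mx
  have e1 : k + 2 + 2 = k + 4 := by revert k; decide
  have e2 : k + 2 + 4 = k := by revert k; decide
  rw [e1, e2, max_comm (gg (x (v + dir k))), max_assoc]

theorem mx_sum (x : ℤ × ℤ → ℝ) (v : ℤ × ℤ) (k : Fin 6) :
    mx x v 0 + mx x v 1 = mx x v k + mx x v (k + 1) := by
  have a2 : mx x v 2 = mx x v 0 := mx_rot x v 0
  have a3 : mx x v 3 = mx x v 1 := mx_rot x v 1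
  have a4 : mx x v 4 = mx x v 2 := mx_rot x v 2
  have a5 : mx x v 5 = mx x v 3 := mx_rot x v 3
  fin_cases k
  · rfl
  · show _ = mx x v 1 + mx x v 2; linarith
  · show _ = mx x v 2 + mx x v 3; linarith
  · show _ = mx x v 3 + mx x v 4; linarith
  · show _ = mx x v 4 + mx x v 5; linarith
  · show _ = mx x v 5 + mx x v 0; linarith

theorem zz_lb {S : Finset (ℤ × ℤ)} {x : ℤ × ℤ → ℝ} (hx : x ∈ Q T S) (v : ℤ × ℤ) (k : Fin 6)
    (h : x v + x (v + dir k) + x (v + dir (k + 1)) = 1) (hv : x v ≠ 0) :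
    lb (x v) (x (v + dir k)) (x (v + dir (k + 1))) ≤ zz x v := by
  have e1 : k + 1 + 1 = k + 2 := by clear * -; revert k; decide
  have e2 : k + 2 + 1 = k + 3 := by clear * -; revert k; decide
  have e3 : k + 3 + 1 = k + 4 := by clear * -; revert k; decide
  have e4 : k + 4 + 1 = k + 5 := by clear * -; revert k; decide
  have e5 : k + 5 + 1 = k := by clear * -; revert k; decide
  have e6 : k + 1 + 2 = k + 3 := by clear * -; revert k; decide
  have e7 : k + 1 + 4 = k + 5 := by clear * -; revert k; decide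
  have t1 := tri_le hx v (k + 1)
  have t2 := tri_le hx v (k + 2)
  have t3 := tri_le hx v (k + 3)
  have t4 := tri_le hx v (k + 4)
  have t5 := tri_le hx v (k + 5)
  rw [e1] at t1; rw [e2] at t2; rw [e3] at t3; rw [e4] at t4; rw [e5] at t5
  have := vert (hx.1 v) h t1 t2 t3 t4 t5 (m0 := mx x v k) (m1 := mx x v (k + 1)) le_rfl
    (by unfold mx; rw [e6, e7])
  have s : ∑ i : Fin 6, x (v + dir i) = x (v + dir k) + x (v + dir (k + 1)) + x (v + dir (k + 2)) +
      x (v + dir (k + 3)) + x (v + dir (k + 4)) + x (v + dir (k + 5)) := by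
    rw [← Equiv.sum_comp (Equiv.addLeft k), Fin.sum_univ_six]; simp
  unfold zz
  rw [if_neg hv, s]
  have := mx_sum x v k
  linarith

theorem general (S : Finset (ℤ × ℤ)) : ∀ x ∈ Q T S, (29 / 24 : ℝ)⁻¹ • x ∈ Stab T S := by
  have : (29 / 24 : ℝ)⁻¹ = 24 / 29 := by norm_num
  rw [this]
  apply descent (by norm_num)
  intro x hx
  have hz := zz_mem hx
  have h0 : ∀ v, x v = 0 → zz x v = 0 := fun v hv => by simp [zz, hv]
  refine ⟨zz x, hz, h0, fun K hK hc hs => ?_⟩
  have hne : K.Nonempty := by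
    rcases K.eq_empty_or_nonempty with rfl | h
    · simp at hs
    · exact h
  obtain ⟨a, k, hsub⟩ := clique_sub hc hne
  have h1 := tri_le hx a k
  have h2 := Finset.sum_sdiff (f := x) hsub
  rw [tri_sum] at h2
  have h3 := Finset.sum_nonneg (s := {a, a + dir k, a + dir (k + 1)} \ K) (fun v _ => hx.1 v)
  have h4 : ∑ v ∈ {a, a + dir k, a + dir (k + 1)} \ K, x v = 0 := by linarith
  rw [Finset.sum_eq_zero_iff_of_nonneg (fun v _ => hx.1 v)] at h4
  have h5 := Finset.sum_sdiff (f := zz x) hsub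
  rw [tri_sum, Finset.sum_eq_zero (fun v hv => h0 v (h4 v hv)), zero_add] at h5
  rw [h5]
  have h6 : x a + x (a + dir k) + x (a + dir (k + 1)) = 1 := by linarith
  have d1 : a + dir k + dir (k + 2) = a + dir (k + 1) := by
    rw [add_assoc]; congr 1; clear * -; revert k; decide
  have d2 : a + dir k + dir (k + 2 + 1) = a := by
    rw [add_assoc, add_eq_left]; clear * -; revert k; decide
  have d3 : a + dir (k + 1) + dir (k + 4) = a := by
    rw [add_assoc, add_eq_left]; clear * -; revert k; decide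
  have d4 : a + dir (k + 1) + dir (k + 4 + 1) = a + dir k := by
    rw [add_assoc]; congr 1; clear * -; revert k; decide
  apply clique_ineq (hx.1 _) (hx.1 _) (hx.1 _) h6 (zz_lb hx a k h6) _ _ (Stab_nonneg hz _)
    (Stab_nonneg hz _) (Stab_nonneg hz _)
  · intro h
    have := zz_lb hx (a + dir k) (k + 2) (by rw [d1, d2]; linarith) h
    rwa [d1, d2] at this
  · intro h
    have := zz_lb hx (a + dir (k + 1)) (k + 4) (by rw [d3, d4]; linarith) h
    rwa [d3, d4] at this

end Pool.Agent.Lib.MP_ae9f52_co
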