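import Mathlib

/-! Joins and even edge sets of a multigraph, through pairings with functions mod 2. -/

set_option autoImplicit false
open Classical Finset
open scoped symmDiff

namespace Pool.Agent.Lib.MP_ae9f52_co

variable {N E : Type} (s t : E → N)

/-- boundary pairing -/
noncomputable def bd (F : Finset E) (φ : N → ZMod 2) : ZMod 2 := ∑ e ∈ F, (φ (s e) + φ (t e))

/-- `F` has odd degree exactly at `u` and `v` -/
def IsJoin (F : Finset E) (u v : N) : Prop := ∀ φ, bd s t F φ = φ u + φ v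

/-- all degrees are even -/
def Ev (F : Finset E) : Prop := ∀ φ, bd s t F φ = 0

/-- connected through edges of `B` -/
def Conn (B : Finset E) (u v : N) : Prop := ∃ P ⊆ B, IsJoin s t P u v

/-- the ends of an edge -/
def Ends (e : E) (a b : N) : Prop := (s e = a ∧ t e = b) ∨ (s e = b ∧ t e = a)

/-- indicator -/
noncomputable def chi (X : N → Prop) : N → ZMod 2 := fun n => if X n then 1 else 0

variable {s t}

theorem sum_sd {R : Type} [CommRing R] (f : E → R) (F C : Finset E) :
    ∑ e ∈ F ∆ C, f e = ∑ e ∈ F, f e + ∑ e ∈ C, f e - 2 * ∑ e ∈ F ∩ C, f e := by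
  rw [symmDiff_def, Finset.sup_eq_union, Finset.sum_union disjoint_sdiff_sdiff]
  have h1 := Finset.sum_inter_add_sum_sdiff F C f
  have h2 := Finset.sum_inter_add_sum_sdiff C F f
  rw [Finset.inter_comm C F] at h2
  rw [← h1, ← h2]; ring

theorem two_zero (x : ZMod 2) : 2 * x = 0 := by revert x; decide
theorem add_self2 (x : ZMod 2) : x + x = 0 := by revert x; decide

theorem bd_sd (F C : Finset E) (φ : N → ZMod 2) : bd s t (F ∆ C) φ = bd s t F φ + bd s t C φ := by
  unfold bd; rw [sum_sd, two_zero, sub_zero]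

theorem IsJoin.symm {F : Finset E} {u v : N} (h : IsJoin s t F u v) : IsJoin s t F v u :=
  fun φ => by rw [h φ, add_comm]

theorem IsJoin.trans {F C : Finset E} {u v w : N} (h : IsJoin s t F u v) (h' : IsJoin s t C v w) :
    IsJoin s t (F ∆ C) u w := fun φ => by
  rw [bd_sd, h φ, h' φ]; linear_combination add_self2 (φ v)

theorem IsJoin.ev {F : Finset E} {u : N} (h : IsJoin s t F u u) : Ev s t F := fun φ => by
  rw [h φ, add_self2]

theorem IsJoin.sd_ev {F C : Finset E} {u v : N} (h : IsJoin s t F u v) (h' : Ev s t C) :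
    IsJoin s t (F ∆ C) u v := fun φ => by rw [bd_sd, h φ, h' φ, add_zero]

theorem Ev.sd {F C : Finset E} (h : Ev s t F) (h' : Ev s t C) : Ev s t (F ∆ C) := fun φ => by
  rw [bd_sd, h φ, h' φ, add_zero]

theorem Ends.symm {e : E} {a b : N} (h : Ends s t e a b) : Ends s t e b a := Or.symm h

theorem Ends.add {e : E} {a b : N} (h : Ends s t e a b) (φ : N → ZMod 2) :
    φ (s e) + φ (t e) = φ a + φ b := by
  rcases h with ⟨rfl, rfl⟩ | ⟨rfl, rfl⟩
  exacts [rfl, add_comm _ _]

theorem Ends.join {e : E} {a b : N} (h : Ends s t e a b) : IsJoin s t {e} a b := fun φ => by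
  unfold bd; rw [Finset.sum_singleton, h.add]

theorem ends_self (e : E) : Ends s t e (s e) (t e) := Or.inl ⟨rfl, rfl⟩

theorem sd_sub {P Q B : Finset E} (h : P ⊆ B) (h' : Q ⊆ B) : P ∆ Q ⊆ B := by
  intro e he
  rw [Finset.mem_symmDiff] at he
  rcases he with he | he
  exacts [h he.1, h' he.1]

theorem Conn.refl (B : Finset E) (u : N) : Conn s t B u u :=
  ⟨∅, Finset.empty_subset _, fun φ => by simp [bd, add_self2]⟩

theorem Conn.symm {B : Finset E} {u v : N} (h : Conn s t B u v) : Conn s t B v u :=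
  let ⟨P, h1, h2⟩ := h; ⟨P, h1, h2.symm⟩

theorem Conn.trans {B : Finset E} {u v w : N} (h : Conn s t B u v) (h' : Conn s t B v w) :
    Conn s t B u w :=
  let ⟨P, h1, h2⟩ := h; let ⟨Q, h3, h4⟩ := h'; ⟨P ∆ Q, sd_sub h1 h3, h2.trans h4⟩

theorem Conn.mono {B B' : Finset E} {u v : N} (h : Conn s t B u v) (hB : B ⊆ B') :
    Conn s t B' u v :=
  let ⟨P, h1, h2⟩ := h; ⟨P, h1.trans hB, h2⟩

theorem Ends.conn {B : Finset E} {e : E} {a b : N} (h : Ends s t e a b) (he : e ∈ B) :
    Conn s t B a b := ⟨{e}, by simpa using he, h.join⟩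

theorem conn_closed {B : Finset E} {e : E} (he : e ∈ B) (v : N) :
    Conn s t B v (s e) ↔ Conn s t B v (t e) :=
  ⟨fun h => h.trans ((ends_self e).conn he), fun h => h.trans ((ends_self e).symm.conn he)⟩

theorem chi_closed {X : N → Prop} {a b : N} (h : X a ↔ X b) : chi X a + chi X b = 0 := by
  unfold chi; simp only [h]; exact add_self2 _

theorem bd_closed {F : Finset E} {X : N → Prop} (h : ∀ e ∈ F, X (s e) ↔ X (t e)) :
    bd s t F (chi X) = 0 := Finset.sum_eq_zero fun e he => chi_closed (h e he)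

theorem chi_cross {X : N → Prop} {e : E} (h : chi X (s e) + chi X (t e) ≠ 0) :
    ∃ k o, Ends s t e k o ∧ X k ∧ ¬ X o := by
  by_cases h1 : X (s e) <;> by_cases h2 : X (t e)
  · exact absurd (chi_closed (by tauto)) h
  · exact ⟨_, _, ends_self e, h1, h2⟩
  · exact ⟨_, _, (ends_self e).symm, h2, h1⟩
  · exact absurd (chi_closed (by tauto)) h

theorem bd_filter {F : Finset E} {X : N → Prop} (h : ∀ e ∈ F, X (s e) ↔ X (t e)) (ψ : N → ZMod 2) :
    bd s t (F.filter (fun e => X (s e))) ψ = bd s t F (fun n => if X n then ψ n else 0) := by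
  unfold bd
  rw [Finset.sum_filter]
  apply Finset.sum_congr rfl
  intro e he
  have := h e he
  by_cases h1 : X (s e)
  · simp [h1, this.1 h1]
  · have h2 : ¬ X (t e) := fun h' => h1 (this.2 h')
    simp [h1, h2]

theorem sum_sd_sub {f : E → ℤ} {F C : Finset E} (h : ∀ e ∈ C, e ∉ F → f e = 0) :
    ∑ e ∈ F ∆ C, f e = ∑ e ∈ F, f e - ∑ e ∈ C, f e := by
  rw [sum_sd]
  have : ∑ e ∈ F ∩ C, f e = ∑ e ∈ C, f e := by
    apply Finset.sum_subset Finset.inter_subset_right
    intro e he hn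
    exact h e he (fun h' => hn (Finset.mem_inter.2 ⟨h', he⟩))
  rw [this]; ring

theorem sum_sd_disj {f : E → ℤ} {F C : Finset E} (h : ∀ e ∈ C, e ∈ F → f e = 0) :
    ∑ e ∈ F ∆ C, f e = ∑ e ∈ F, f e + ∑ e ∈ C, f e := by
  rw [sum_sd, Finset.sum_eq_zero (s := F ∩ C)
    (fun e he => h e (Finset.mem_inter.1 he).2 (Finset.mem_inter.1 he).1)]
  ring

end Pool.Agent.Lib.MP_ae9f52_co
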