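import Pool.Agent.Lib.MP_ae9f52_co.Strip

/-! The triangular lattice: neighbours, coordinates, cliques. -/

set_option autoImplicit false
open Classical Finset

namespace Pool.Agent.Lib.MP_ae9f52_co

/-- the triangular lattice -/
def T : SimpleGraph (ℤ × ℤ) := SimpleGraph.fromRel
  (fun p q : ℤ × ℤ => q - p = ((1 : ℤ), (0 : ℤ)) ∨ q - p = ((0 : ℤ), (1 : ℤ)) ∨
    q - p = ((1 : ℤ), (-1 : ℤ)))

/-- the six unit steps in counterclockwise order -/
def dir : Fin 6 → ℤ × ℤ := ![(1, 0), (0, 1), (-1, 1), (-1, 0), (0, -1), (1, -1)]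

theorem T_adj (u v : ℤ × ℤ) : T.Adj u v ↔ (v.1 = u.1 + 1 ∧ v.2 = u.2) ∨ (v.1 = u.1 ∧ v.2 = u.2 + 1) ∨
    (v.1 = u.1 - 1 ∧ v.2 = u.2 + 1) ∨ (v.1 = u.1 - 1 ∧ v.2 = u.2) ∨ (v.1 = u.1 ∧ v.2 = u.2 - 1) ∨
    (v.1 = u.1 + 1 ∧ v.2 = u.2 - 1) := by
  obtain ⟨a, b⟩ := u
  obtain ⟨c, d⟩ := v
  simp only [T, SimpleGraph.fromRel_adj, ne_eq, Prod.mk.injEq, Prod.mk_sub_mk]
  omega

theorem T_adj_dir (u v : ℤ × ℤ) : T.Adj u v ↔ ∃ k, v = u + dir k := by
  rw [T_adj]
  obtain ⟨a, b⟩ := u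
  obtain ⟨c, d⟩ := v
  simp only [Fin.exists_fin_succ, dir]
  simp
  omega

theorem dir_inj : Function.Injective dir := by decide

theorem adj_dir (u : ℤ × ℤ) (k : Fin 6) : T.Adj u (u + dir k) := (T_adj_dir _ _).2 ⟨k, rfl⟩

theorem adj_dir_dir (u : ℤ × ℤ) (i j : Fin 6) :
    T.Adj (u + dir i) (u + dir j) ↔ j = i + 1 ∨ i = j + 1 := by
  rw [T_adj]
  fin_cases i <;> fin_cases j <;> simp [dir] <;> omega

/-- rows -/
def C0 : Coord T where
  ρ v := v.2
  ξ v := 2 * v.1 + v.2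
  adj u v := by rw [T_adj]; omega
  inj u v h1 h2 := by ext <;> omega
  par v := by omega

/-- columns -/
def C1 : Coord T where
  ρ v := v.1
  ξ v := 2 * v.2 + v.1
  adj u v := by rw [T_adj]; omega
  inj u v h1 h2 := by ext <;> omega
  par v := by omega

/-- antidiagonals -/
def C2 : Coord T where
  ρ v := v.1 + v.2
  ξ v := v.1 - v.2
  adj u v := by rw [T_adj]; omega
  inj u v h1 h2 := by ext <;> omega
  par v := by omega

theorem nbr_sum {S : Finset (ℤ × ℤ)} {x : ℤ × ℤ → ℝ} (hx : ∀ v, v ∉ S → x v = 0) (v : ℤ × ℤ)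
    (p : ℤ × ℤ → Prop) [DecidablePred p] [DecidablePred (fun u => T.Adj v u ∧ p u)] :
    ∑ u ∈ S.filter (fun u => T.Adj v u ∧ p u), x u =
      ∑ k : Fin 6, if p (v + dir k) then x (v + dir k) else 0 := by
  rw [← Finset.sum_filter]
  symm
  apply Finset.sum_bij_ne_zero (fun k _ _ => v + dir k)
  · intro k hk hne
    rw [Finset.mem_filter] at hk ⊢
    refine ⟨?_, adj_dir v k, hk.2⟩
    by_contra h; exact hne (hx _ h)
  · intro a _ _ b _ _ h
    exact dir_inj (add_left_cancel h)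
  · intro u hu hne
    rw [Finset.mem_filter] at hu
    obtain ⟨k, rfl⟩ := (T_adj_dir _ _).1 hu.2.1
    exact ⟨k, by simp [hu.2.2], hne, rfl⟩
  · intros; rfl

theorem clique_sub {K : Finset (ℤ × ℤ)} (hK : T.IsClique (↑K : Set (ℤ × ℤ))) (hne : K.Nonempty) :
    ∃ a k, K ⊆ {a, a + dir k, a + dir (k + 1)} := by
  obtain ⟨a, ha⟩ := hne
  have h1 : ∀ e ∈ K, e = a ∨ ∃ j, e = a + dir j := by
    intro e he
    by_cases h : e = a
    · exact Or.inl h
    · exact Or.inr ((T_adj_dir _ _).1 (hK ha he (Ne.symm h)))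
  have h2 : ∀ i j, a + dir i ∈ K → a + dir j ∈ K → i = j ∨ j = i + 1 ∨ i = j + 1 := by
    intro i j hi hj
    by_cases h : i = j
    · exact Or.inl h
    · exact Or.inr ((adj_dir_dir a i j).1 (hK hi hj (fun h' => h (dir_inj (add_left_cancel h')))))
  by_cases h3 : ∃ k, a + dir k ∈ K ∧ a + dir (k + 1) ∈ K
  · obtain ⟨k, hk, hk'⟩ := h3
    refine ⟨a, k, fun e he => ?_⟩
    rcases h1 e he with rfl | ⟨j, rfl⟩
    · simp
    · have e1 := h2 k j hk he
      have e2 := h2 (k + 1) j hk' he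
      have : j = k ∨ j = k + 1 := by clear hk hk' he; revert e1 e2; revert j k; decide
      rcases this with rfl | rfl <;> simp
  · by_cases h4 : ∃ k, a + dir k ∈ K
    · obtain ⟨k, hk⟩ := h4
      refine ⟨a, k, fun e he => ?_⟩
      rcases h1 e he with rfl | ⟨j, rfl⟩
      · simp
      · rcases h2 k j hk he with rfl | rfl | rfl
        · simp
        · simp
        · exact absurd ⟨j, he, hk⟩ h3
    · refine ⟨a, 0, fun e he => ?_⟩
      rcases h1 e he with rfl | ⟨j, rfl⟩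
      · simp
      · exact absurd ⟨j, he⟩ h4

theorem tri_clique (a : ℤ × ℤ) (k : Fin 6) :
    T.IsClique (↑({a, a + dir k, a + dir (k + 1)} : Finset (ℤ × ℤ)) : Set (ℤ × ℤ)) := by
  have h1 := adj_dir a k
  have h2 := adj_dir a (k + 1)
  have h3 := (adj_dir_dir a k (k + 1)).2 (Or.inl rfl)
  intro u hu v hv hne
  simp only [Finset.coe_insert, Finset.coe_singleton, Set.mem_insert_iff, Set.mem_singleton_iff] at hu hv
  rcases hu with rfl | rfl | rfl <;> rcases hv with rfl | rfl | rfl <;>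
    first | exact absurd rfl hne | assumption | exact SimpleGraph.Adj.symm ‹_›

theorem tri_sum (a : ℤ × ℤ) (k : Fin 6) (x : ℤ × ℤ → ℝ) :
    ∑ v ∈ ({a, a + dir k, a + dir (k + 1)} : Finset (ℤ × ℤ)), x v =
      x a + x (a + dir k) + x (a + dir (k + 1)) := by
  have h1 := (adj_dir a k).ne
  have h2 := (adj_dir a (k + 1)).ne
  have h3 := ((adj_dir_dir a k (k + 1)).2 (Or.inl rfl)).ne
  rw [Finset.sum_insert (by simp only [Finset.mem_insert, Finset.mem_singleton]; tauto),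
    Finset.sum_pair h3, add_assoc]

theorem tri_le {S : Finset (ℤ × ℤ)} {x : ℤ × ℤ → ℝ} (hx : x ∈ Q T S) (a : ℤ × ℤ) (k : Fin 6) :
    x a + x (a + dir k) + x (a + dir (k + 1)) ≤ 1 := by
  rw [← tri_sum]
  have := hx.2.2 (({a, a + dir k, a + dir (k + 1)} : Finset (ℤ × ℤ)).filter (· ∈ S))
    (fun v hv => (Finset.mem_filter.1 hv).2)
    ((tri_clique a k).subset (by rw [Finset.coe_subset]; exact Finset.filter_subset _ _))
  rwa [Finset.sum_filter_of_ne] at this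
  intro v _ h
  by_contra h'; exact h (hx.2.1 v h')

end Pool.Agent.Lib.MP_ae9f52_co
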