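import Pool.Agent.Lib.MP_ae9f52_co.Discount

/-! Odd closed walks in a symmetric set of darts carry mass at least 54. -/

set_option autoImplicit false
open Classical Finset

namespace Pool.Agent.Lib.MP_ae9f52_co

theorem dir_back' (p : ℤ × ℤ) (h : Fin 6) : p + dir (h + 3) + dir h = p := by
  rw [add_assoc, add_eq_left]; revert h; decide

theorem dir_ne (p : ℤ × ℤ) (h : Fin 6) : p + dir h ≠ p := by
  rw [Ne, add_eq_left]; revert h; decide

/-- closed walk along good darts -/
def CW (good : ℤ × ℤ → Fin 6 → Prop) (n : ℕ) : Prop :=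
  ∃ (p : ℕ → ℤ × ℤ) (g : ℕ → Fin 6), (∀ i < n, p (i + 1) = p i + dir (g i) ∧ good (p i) (g i)) ∧
    p n = p 0

theorem exists_cw {good : ℤ × ℤ → Fin 6 → Prop} (sym : ∀ p k, good p k → good (p + dir k) (k + 3))
    (h : ¬ ∃ κ : ℤ × ℤ → ZMod 2, ∀ p k, good p k → κ p + κ (p + dir k) = 1) :
    ∃ n, n % 2 = 1 ∧ CW good n := by
  let H : SimpleGraph (ℤ × ℤ) :=
    { Adj := fun p q => ∃ k, q = p + dir k ∧ good p k
      symm := ⟨by
        rintro p q ⟨k, rfl, hk⟩
        exact ⟨k + 3, (dir_back p k).symm, sym p k hk⟩⟩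
      loopless := ⟨by
        rintro p ⟨k, hk, -⟩
        exact dir_ne p k hk.symm⟩ }
  have h2 : ¬ H.Colorable 2 := by
    rintro ⟨C⟩
    apply h
    refine ⟨fun p => (C p : Fin 2), fun p k hk => ?_⟩
    have := C.valid (show H.Adj p (p + dir k) from ⟨k, rfl, hk⟩)
    have key : ∀ x y : Fin 2, x ≠ y → (x : ZMod 2) + (y : ZMod 2) = 1 := by decide
    exact key _ _ this
  rw [SimpleGraph.two_colorable_iff_forall_loop_even] at h2
  push Not at h2
  obtain ⟨u, w, hw⟩ := h2
  have : ∀ i, ∃ k, i < w.length → w.getVert (i + 1) = w.getVert i + dir k ∧ good (w.getVert i) k := by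
    intro i
    by_cases hi : i < w.length
    · obtain ⟨k, hk⟩ := w.adj_getVert_succ hi
      exact ⟨k, fun _ => hk⟩
    · exact ⟨0, fun h => absurd h hi⟩
  choose g hg using this
  exact ⟨w.length, Nat.not_even_iff.1 hw, w.getVert, g, hg, by simp⟩

theorem odd_mass {S : Finset (ℤ × ℤ)} (tf : TF (· ∈ S)) {good : ℤ × ℤ → Fin 6 → Prop}
    (sym : ∀ p k, good p k → good (p + dir k) (k + 3)) (hS : ∀ p k, good p k → p ∈ S)
    (h : ¬ ∃ κ : ℤ × ℤ → ZMod 2, ∀ p k, good p k → κ p + κ (p + dir k) = 1) :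
    54 ≤ ∑ p ∈ S, ∑ k, if good p k then zd (· ∈ S) p k else 0 := by
  have ex := exists_cw sym h
  obtain ⟨hn, p, g, hpg, hp0⟩ := Nat.find_spec ex
  have hmin := fun m => Nat.find_min ex (m := m)
  set n := Nat.find ex
  have npos : 0 < n := by omega
  set P : ℕ → ℤ × ℤ := fun i => p (i % n) with hP
  set G : ℕ → Fin 6 := fun i => g (i % n) with hG
  have st : ∀ i, P (i + 1) = P i + dir (G i) := by
    intro i
    have hi := Nat.mod_lt i npos
    simp only [hP, hG]
    rw [← (hpg _ hi).1, ← Nat.mod_add_mod]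
    rcases Nat.lt_or_ge (i % n + 1) n with h1 | h1
    · rw [Nat.mod_eq_of_lt h1]
    · have e : i % n + 1 = n := by omega
      rw [e, Nat.mod_self, hp0]
  have gd : ∀ i, good (P i) (G i) := fun i => (hpg _ (Nat.mod_lt i npos)).2
  have pP : ∀ i, P (i + n) = P i := fun i => by simp only [hP, Nat.add_mod_right]
  have pG : ∀ i, G (i + n) = G i := fun i => by simp only [hG, Nat.add_mod_right]
  clear_value P G
  have sub : ∀ i d, P (i + d) = P i → CW good d := fun i d hd =>
    ⟨fun t => P (i + t), fun t => G (i + t), fun t _ => ⟨st (i + t), gd _⟩, hd⟩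
  have inj : ∀ i d, 0 < d → d < n → P (i + d) ≠ P i := by
    intro i d h0 h1 he
    rcases Nat.mod_two_eq_zero_or_one d with h2 | h2
    · refine hmin (n - d) (by omega) ⟨by omega, sub (i + d) _ ?_⟩
      rw [he, ← pP i]; congr 1; omega
    · exact hmin d h1 ⟨h2, sub i d he⟩
  have n1 : n ≠ 1 := by
    intro h1
    have := pP 0
    rw [h1, st] at this
    exact dir_ne _ _ this
  have nb : ∀ i, G (i + 1) ≠ G i + 3 := by
    intro i hi
    apply inj i 2 (by omega) (by omega)
    rw [st (i + 1), st, hi, dir_back]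
  have occ : ∀ i, P i ∈ S := fun i => hS _ _ (gd i)
  obtain ⟨j, hj⟩ : ∃ j, G (j + 1) = G j := by
    by_contra hc
    push Not at hc
    have alt : ∀ i, (G (i + 1)).val % 2 = ((G i).val + 1) % 2 := by
      intro i
      have o1 := occ (i + 1)
      have o2 := occ (i + 1 + 1)
      rw [st (i + 1)] at o2
      have o3 : P (i + 1) + dir (G i + 3) ∈ S := by rw [st, dir_back]; exact occ i
      have a2 : G (i + 1) + 1 ≠ G i + 3 := fun hh => tf _ _ o1 o2 (by rw [hh]; exact o3)
      have a4 : G (i + 1) ≠ G i + 3 + 1 := fun hh => tf _ _ o1 o3 (by rw [← hh]; exact o2)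
      have a0 := hc i
      have a3 := nb i
      generalize G (i + 1) = x at *
      generalize G i = y at *
      clear * - a0 a2 a3 a4
      revert x y; decide
    have : ∀ i, (G i).val % 2 = ((G 0).val + i) % 2 := by
      intro i
      induction i with
      | zero => rfl
      | succ i ih => rw [alt]; omega
    have a := this (0 + n)
    rw [pG] at a
    omega
  obtain ⟨m, hm⟩ : ∃ m, n = m + 1 := ⟨n - 1, by omega⟩
  have key := straight_start tf (fun t => P (j + 1 + t)) (fun t => G (j + 1 + t)) m (by omega)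
    (fun t => st _) (fun t => occ _) (fun t => nb _) (by rw [← hm]; exact pP _)
    (by rw [show j + 1 + m = j + n by omega, pG, hj.symm])
  refine key.trans ?_
  have e1 : ∑ i ∈ range (m + 1), zd (· ∈ S) (P (j + 1 + i)) (G (j + 1 + i)) =
      ∑ i ∈ range (m + 1), zd (· ∈ S) (P (j + 1 + (i + 1))) (G (j + 1 + (i + 1))) := by
    rw [Finset.sum_range_succ', Finset.sum_range_succ, ← hm, pP, pG]
  rw [Finset.sum_add_distrib, e1, ← Finset.sum_add_distrib]
  have inj' : Set.InjOn (fun i => P (j + 1 + (i + 1))) (range (m + 1) : Set ℕ) := by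
    intro a ha b hb hab
    simp only [Finset.coe_range, Set.mem_Iio] at ha hb hab
    rcases lt_trichotomy a b with h1 | h1 | h1
    · exact absurd (by rw [hab]; congr 1; omega) (inj (j + 1 + (a + 1)) (b - a) (by omega) (by omega))
    · exact h1
    · exact absurd (by rw [← hab]; congr 1; omega)
        (inj (j + 1 + (b + 1)) (a - b) (by omega) (by omega))
  calc _ ≤ ∑ i ∈ range (m + 1), ∑ k, if good (P (j + 1 + (i + 1))) k then
          zd (· ∈ S) (P (j + 1 + (i + 1))) k else 0 := by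
        apply Finset.sum_le_sum
        intro i _
        have g1 := gd (j + 1 + (i + 1))
        have g2 := sym _ _ (gd (j + 1 + i))
        rw [← st] at g2
        have hne : G (j + 1 + (i + 1)) ≠ G (j + 1 + i) + 3 := nb _
        refine le_trans ?_ (Finset.sum_le_sum_of_subset (Finset.subset_univ
          {G (j + 1 + (i + 1)), G (j + 1 + i) + 3}))
        rw [Finset.sum_pair hne, if_pos g1, if_pos (by exact g2)]
    _ = ∑ q ∈ (range (m + 1)).image (fun i => P (j + 1 + (i + 1))),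
          ∑ k, if good q k then zd (· ∈ S) q k else 0 := by
        rw [Finset.sum_image inj']
    _ ≤ _ := by
        apply Finset.sum_le_sum_of_subset
        intro q hq
        obtain ⟨i, -, rfl⟩ := Finset.mem_image.1 hq
        exact occ _

theorem six_aux {a0 a1 a2 a3 a4 a5 : Prop} {x0 x1 x2 x3 x4 x5 : ℕ} (t0 : a0 → ¬ a1) (t1 : a1 → ¬ a2)
    (t2 : a2 → ¬ a3) (t3 : a3 → ¬ a4) (t4 : a4 → ¬ a5) (t5 : a5 → ¬ a0) (s0 : x0 + x2 + x4 = 6)
    (s1 : x1 + x3 + x5 = 6) :
    (if a0 then (if a2 ∧ a4 then x0 else 3) else 0) + (if a1 then (if a3 ∧ a5 then x1 else 3) else 0) +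
    (if a2 then (if a4 ∧ a0 then x2 else 3) else 0) + (if a3 then (if a5 ∧ a1 then x3 else 3) else 0) +
    (if a4 then (if a0 ∧ a2 then x4 else 3) else 0) + (if a5 then (if a1 ∧ a3 then x5 else 3) else 0)
      ≤ 6 := by
  by_cases h0 : a0 <;> by_cases h1 : a1 <;> by_cases h2 : a2 <;> by_cases h3 : a3 <;>
    by_cases h4 : a4 <;> by_cases h5 : a5 <;> simp_all

theorem mass_le {occ : ℤ × ℤ → Prop} (tf : TF occ) {p : ℤ × ℤ} (hp : occ p) :
    ∑ k, (if occ (p + dir k) then zd occ p k else 0) ≤ 6 := by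
  have t0 : occ (p + dir 0) → ¬ occ (p + dir 1) := tf p 0 hp
  have t1 : occ (p + dir 1) → ¬ occ (p + dir 2) := tf p 1 hp
  have t2 : occ (p + dir 2) → ¬ occ (p + dir 3) := tf p 2 hp
  have t3 : occ (p + dir 3) → ¬ occ (p + dir 4) := tf p 3 hp
  have t4 : occ (p + dir 4) → ¬ occ (p + dir 5) := tf p 4 hp
  have t5 : occ (p + dir 5) → ¬ occ (p + dir 0) := tf p 5 hp
  have s0 := tab_sum (feat_lt occ p 0) (feat_lt occ p 2) (feat_lt occ p 4)
  have s1 := tab_sum (feat_lt occ p 1) (feat_lt occ p 3) (feat_lt occ p 5)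
  have z0 : zd occ p 0 = if occ (p + dir 2) ∧ occ (p + dir 4) then
    tab (feat occ p 0) (feat occ p 2) (feat occ p 4) else 3 := rfl
  have z1 : zd occ p 1 = if occ (p + dir 3) ∧ occ (p + dir 5) then
    tab (feat occ p 1) (feat occ p 3) (feat occ p 5) else 3 := rfl
  have z2 : zd occ p 2 = if occ (p + dir 4) ∧ occ (p + dir 0) then
    tab (feat occ p 2) (feat occ p 4) (feat occ p 0) else 3 := rfl
  have z3 : zd occ p 3 = if occ (p + dir 5) ∧ occ (p + dir 1) then
    tab (feat occ p 3) (feat occ p 5) (feat occ p 1) else 3 := rfl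
  have z4 : zd occ p 4 = if occ (p + dir 0) ∧ occ (p + dir 2) then
    tab (feat occ p 4) (feat occ p 0) (feat occ p 2) else 3 := rfl
  have z5 : zd occ p 5 = if occ (p + dir 1) ∧ occ (p + dir 3) then
    tab (feat occ p 5) (feat occ p 1) (feat occ p 3) else 3 := rfl
  rw [Fin.sum_univ_six, z0, z1, z2, z3, z4, z5]
  exact six_aux t0 t1 t2 t3 t4 t5 s0 s1

end Pool.Agent.Lib.MP_ae9f52_co
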