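import Pool.Agent.Lib.MP_ae9f52_co.Cert
import Pool.Agent.Lib.MP_ae9f52_co.Lattice

/-! The potential defined by the certificate. -/

set_option autoImplicit false

namespace Pool.Agent.Lib.MP_ae9f52_co

/-- the box of the table -/
def inBox (p : ℤ × ℤ) : Prop := -9 ≤ p.1 ∧ p.1 ≤ 10 ∧ -9 ≤ p.2 ∧ p.2 ≤ 9

instance (p : ℤ × ℤ) : Decidable (inBox p) := by unfold inBox; infer_instance

/-- index of a cell -/
def idx (p : ℤ × ℤ) : ℕ := (p.1 + 9 + 20 * (p.2 + 9)).toNat

/-- the potential -/
noncomputable def phi (p : ℤ × ℤ) (c : ℕ) : ℕ := if inBox p then dig (col c) (idx p) else 24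

/-- the four empty cells next to the anchor -/
def forb (p : ℤ × ℤ) : Prop := p = (0, 1) ∨ p = (-1, 1) ∨ p = (0, -1) ∨ p = (1, -1)

theorem phi_border {p : ℤ × ℤ} {c : ℕ} (hc : c < 300)
    (h : p.1 ≤ -9 ∨ 10 ≤ p.1 ∨ p.2 ≤ -9 ∨ 9 ≤ p.2) : phi p c = 24 := by
  unfold phi
  split_ifs with hb
  · have h1 := allN_spec chk_border c hc
    rw [force_eq] at h1
    have h2 := allN_spec h1
    obtain ⟨x, y⟩ := p
    unfold inBox at hb
    simp only at h hb
    simp only [Bool.and_eq_true, Bool.or_eq_true, Nat.beq_eq] at h2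
    rcases h with h | h | h | h
    · have e : idx (x, y) = 20 * (y + 9).toNat := by unfold idx; simp only; omega
      rcases (h2 (y + 9).toNat (by omega)).2 with h3 | h3
      · omega
      · rw [e]; exact h3.1
    · have e : idx (x, y) = 20 * (y + 9).toNat + 19 := by unfold idx; simp only; omega
      rcases (h2 (y + 9).toNat (by omega)).2 with h3 | h3
      · omega
      · rw [e]; exact h3.2
    · have e : idx (x, y) = (x + 9).toNat := by unfold idx; simp only; omega
      rw [e]; exact (h2 (x + 9).toNat (by omega)).1.1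
    · have e : idx (x, y) = 360 + (x + 9).toNat := by unfold idx; simp only; omega
      rw [e]; exact (h2 (x + 9).toNat (by omega)).1.2
  · rfl

theorem mask_zero {p : ℤ × ℤ} (hb : inBox p) (hf : ¬ forb p) : dig bigM (idx p) = 0 := by
  obtain ⟨x, y⟩ := p
  unfold inBox at hb
  simp only [forb, Prod.mk.injEq] at hf hb
  have := allN_spec chk_mask (idx (x, y)) (by unfold idx; simp only; omega)
  simp only [Bool.or_eq_true, Nat.beq_eq] at this
  rcases this with (((h | h) | h) | h) | h
  · exact h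
  all_goals (unfold idx at h; simp only at h; omega)

theorem phi_step {c c' w : ℕ} {h : Fin 6} (hk : chk c h c' w = true) (hc : c < 300) (hc' : c' < 300)
    {p : ℤ × ℤ} (hf : ¬ forb p) : phi (p + dir h) c' ≤ phi p c + w := by
  have hd : -1 ≤ (dir h).1 ∧ (dir h).1 ≤ 1 ∧ -1 ≤ (dir h).2 ∧ (dir h).2 ≤ 1 ∧
      (dir h).1 + 20 * (dir h).2 = (offA h : ℤ) - offB h ∧ (offA h = 0 ∨ offB h = 0) := by
    clear hk; revert h; decide
  by_cases b1 : inBox p
  · by_cases b2 : inBox (p + dir h)
    · unfold chk at hk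
      simp only [force_eq] at hk
      have e1 : idx p - offB h + offA h = idx (p + dir h) ∧ idx p - offB h + offB h = idx p ∧
          idx p - offB h < 380 := by
        unfold inBox at b1 b2
        unfold idx
        simp only [Prod.fst_add, Prod.snd_add] at b2 ⊢
        omega
      have := allN_spec hk _ e1.2.2
      simp only [Nat.add_eq, Nat.ble_eq] at this
      rw [e1.1, e1.2.1, mask_zero b1 hf] at this
      unfold phi
      rw [if_pos b1, if_pos b2]
      omega
    · rw [phi_border (p := p) hc, phi, if_neg b2]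
      · omega
      · unfold inBox at b2
        simp only [Prod.fst_add, Prod.snd_add] at b2
        omega
  · rw [phi_border (p := p + dir h) hc', phi, if_neg b1]
    · omega
    · unfold inBox at b1
      simp only [Prod.fst_add, Prod.snd_add]
      omega

theorem code_lt {h p a b : ℕ} (h1 : h < 6) (h2 : p < 2) (h3 : a < 5) (h4 : b < 5) :
    code h p a b < 300 := by unfold code; omega

theorem phi_straight (h : Fin 6) {q fb fo : ℕ} (hq : q < 2) (hb : fb < 5) (ho : fo < 5)
    {p : ℤ × ℤ} (hf : ¬ forb p) :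
    phi (p + dir h) (code h (1 - q) fo 0) ≤ phi p (code h q 0 fb) + 6 := by
  have := allN_spec (allN_spec (allN_spec (allN_spec (chk_all h h.2) q hq) 0 (by norm_num)) fb hb) fo ho
  rw [if_pos rfl] at this
  exact phi_step this (code_lt h.2 hq (by norm_num) hb) (code_lt h.2 (by omega) ho (by norm_num)) hf

theorem phi_left (h : Fin 6) {q a b fb fo : ℕ} (hq : q < 2) (ha : a < 2) (hb' : b < 2) (hb : fb < 5)
    (ho : fo < 5) (hfo : fo = 0 ↔ a = 1) {p : ℤ × ℤ} (hf : ¬ forb p) :
    phi (p + dir (h + 1)) (code (h + 1 : Fin 6) (1 - q) fo (1 + 2 * b + if fb = 0 then 1 else 0)) ≤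
      phi p (code h q (1 + 2 * a + b) fb) + (6 - mL b fo fb) := by
  have := allN_spec (allN_spec (allN_spec (allN_spec (chk_all h h.2) q hq) (1 + 2 * a + b)
    (by omega)) fb hb) fo ho
  have e1 : (1 + 2 * a + b - 1) / 2 = a := by omega
  have e2 : (1 + 2 * a + b - 1) % 2 = b := by omega
  have e3 : ((h : ℕ) + 1) % 6 = (h + 1 : Fin 6) := by clear * -; revert h; decide
  rw [if_neg (by omega), e1, e2, e3, if_pos hfo, Bool.and_eq_true] at this
  exact phi_step this.1 (code_lt h.2 hq (by omega) hb)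
    (code_lt (h + 1).2 (by omega) ho (by split_ifs <;> omega)) hf

theorem phi_right (h : Fin 6) {q a b fb fo : ℕ} (hq : q < 2) (ha : a < 2) (hb' : b < 2) (hb : fb < 5)
    (ho : fo < 5) (hfo : fo = 0 ↔ b = 1) {p : ℤ × ℤ} (hf : ¬ forb p) :
    phi (p + dir (h + 5)) (code (h + 5 : Fin 6) (1 - q) fo (1 + 2 * (if fb = 0 then 1 else 0) + a)) ≤
      phi p (code h q (1 + 2 * a + b) fb) + (6 - mL a fb fo) := by
  have := allN_spec (allN_spec (allN_spec (allN_spec (chk_all h h.2) q hq) (1 + 2 * a + b)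
    (by omega)) fb hb) fo ho
  have e1 : (1 + 2 * a + b - 1) / 2 = a := by omega
  have e2 : (1 + 2 * a + b - 1) % 2 = b := by omega
  have e3 : ((h : ℕ) + 5) % 6 = (h + 5 : Fin 6) := by clear * -; revert h; decide
  rw [if_neg (by omega), e1, e2, e3, if_pos hfo, Bool.and_eq_true] at this
  exact phi_step this.2 (code_lt h.2 hq (by omega) hb)
    (code_lt (h + 5).2 (by omega) ho (by split_ifs <;> omega)) hf

theorem phi_start {f : ℕ} (hf : f < 5) : phi (1, 0) (code 0 1 f 0) = 0 := by
  have := allN_spec chk_ends f hf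
  simp only [Bool.and_eq_true, Nat.beq_eq] at this
  unfold phi
  rw [if_pos (by decide)]
  exact this.1

theorem phi_end {f : ℕ} (hf : f < 5) : 48 ≤ phi (0, 0) (code 0 1 0 f) := by
  have := allN_spec chk_ends f hf
  simp only [Bool.and_eq_true, Nat.ble_eq] at this
  unfold phi
  rw [if_pos (by decide)]
  exact this.2

theorem tab_sum {a b c : ℕ} (ha : a < 5) (hb : b < 5) (hc : c < 5) :
    tab a b c + tab b c a + tab c a b = 6 := by
  have := allN_spec (allN_spec (allN_spec chk_tab a ha) b hb) c hc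
  simpa using this

theorem tab_le_mL {f b x y : ℕ} (hf : f < 5) (h : f = 0 ↔ b = 1) : tab f x y ≤ mL b x y := by
  unfold mL
  split_ifs with hb
  · rw [h.2 hb]
  · have : f ≠ 0 := fun h' => hb (h.1 h')
    have : f = 1 ∨ f = 2 ∨ f = 3 ∨ f = 4 := by omega
    rcases this with rfl | rfl | rfl | rfl <;> simp

end Pool.Agent.Lib.MP_ae9f52_co
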