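import Pool.Agent.Lib.MP_ae9f52_co.Basic

/-! Strips of three rows of a triangular lattice are perfect. -/

set_option autoImplicit false
open Classical Finset

namespace Pool.Agent.Lib.MP_ae9f52_co

theorem ar_near (a b p q : ℤ) (h : a - b ≤ 1) (h' : b - a ≤ 1) (h1 : (p - a) % 2 = 0) (h2 : (q - b) % 2 = 0)
    (h3 : p - q ≤ 2) (h4 : q - p ≤ 2) : (a = b ∧ p = q) ∨ (a = b ∧ (p = q + 2 ∨ q = p + 2)) ∨
    ((a = b + 1 ∨ b = a + 1) ∧ (p = q + 1 ∨ q = p + 1)) := by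
  omega
theorem ar_row (a b r : ℤ) (h : (a - r) / 3 = (b - r) / 3) (hb : (b - r) % 3 = 1) : a - b ≤ 1 ∧ b - a ≤ 1 := by
  omega
theorem ar_sep (a b r e : ℤ) (h : (a - r) / 3 ≠ (b - r) / 3) (ha : ((a - r) / 3) % 2 = e) (hb : ((b - r) / 3) % 2 = e) : 1 < a - b ∨ 1 < b - a := by
  omega
theorem ar_out (a b r : ℤ) (h : (a - r) / 3 = (b - r) / 3) (ha : (a - r) % 3 ≠ 1) (hb : (b - r) % 3 ≠ 1) (h1 : a - b ≤ 1) (h2 : b - a ≤ 1): a = b := by
  omega
theorem ar_mm (a b r : ℤ) (h : (a - r) / 3 = (b - r) / 3) (ha : (a - r) % 3 = 1) (hb : (b - r) % 3 = 1) : a = b := by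
  omega
theorem ar_two (a b v r e e' : ℤ) (hee : e ≠ e') (ha : ((a - r) / 3) % 2 = e) (hb : ((b - r) / 3) % 2 = e) (hv : ((v - r) / 3) % 2 = e') 
  (h1 : a - v ≤ 1) (h2 : v - a ≤ 1) (h3 : b - v ≤ 1) (h4 : v - b ≤ 1) : a = b ∧ a ≠ v := by
  omega
theorem ar_par (a v r e : ℤ) (he : ((v - r) / 3) % 2 ≠ e) (he' : e = 0 ∨ e = 1) (h : (a - r) / 3 ≠ (v - r) / 3) (h1 : a - v ≤ 1) (h2 : v - a ≤ 1) : ((a - r) / 3) % 2 = e := by
  omega
theorem ar_col (p q : ℤ) (h : p = q + 2 ∨ q = p + 2) : (p / 2) % 2 = 0 ↔ ¬ (q / 2) % 2 = 0 := by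
  omega

variable {V : Type} {G : SimpleGraph V}

/-- row and doubled column coordinates -/
structure Coord (G : SimpleGraph V) where
  ρ : V → ℤ
  ξ : V → ℤ
  adj : ∀ u v, G.Adj u v ↔ (ρ u = ρ v ∧ (ξ u = ξ v + 2 ∨ ξ v = ξ u + 2)) ∨
    ((ρ u = ρ v + 1 ∨ ρ v = ρ u + 1) ∧ (ξ u = ξ v + 1 ∨ ξ v = ξ u + 1))
  inj : ∀ u v, ρ u = ρ v → ξ u = ξ v → u = v
  par : ∀ v, (ξ v - ρ v) % 2 = 0

theorem Coord.bd (C : Coord G) {u v : V} (h : G.Adj u v) :
    C.ρ u - C.ρ v ≤ 1 ∧ C.ρ v - C.ρ u ≤ 1 ∧ C.ξ u - C.ξ v ≤ 2 ∧ C.ξ v - C.ξ u ≤ 2 ∧ C.ξ u ≠ C.ξ v := by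
  have := (C.adj u v).1 h
  omega

theorem Coord.near (C : Coord G) {u v : V} (h : C.ρ u - C.ρ v ≤ 1) (h' : C.ρ v - C.ρ u ≤ 1)
    (h3 : C.ξ u - C.ξ v ≤ 2) (h4 : C.ξ v - C.ξ u ≤ 2) : u = v ∨ G.Adj u v := by
  rcases ar_near _ _ _ _ h h' (C.par u) (C.par v) h3 h4 with h | h
  · exact Or.inl (C.inj u v h.1 h.2)
  · exact Or.inr ((C.adj u v).2 h)

theorem Coord.same (C : Coord G) {u v : V} (h : G.Adj u v) (h' : C.ρ u = C.ρ v) :
    C.ξ u = C.ξ v + 2 ∨ C.ξ v = C.ξ u + 2 := by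
  have := (C.adj u v).1 h
  omega

theorem Coord.diff (C : Coord G) {u v : V} (h : G.Adj u v) (h' : C.ρ u ≠ C.ρ v) :
    C.ξ u = C.ξ v + 1 ∨ C.ξ v = C.ξ u + 1 := by
  have := (C.adj u v).1 h
  omega

theorem split_hit {S L R : Finset V} {x : V → ℝ} (hL : L ⊆ S) (hR : R ⊆ S)
    (h1 : res L x ∈ Stab G L) (h2 : res R x ∈ Stab G R) {v : V} (hvL : v ∈ L) (hvR : v ∈ R)
    (hv : 0 < x v) (hcl : ∀ K : Finset V, K ⊆ S → G.IsClique (↑K : Set V) → K ⊆ L ∨ K ⊆ R)
    (hadj : ∀ a ∈ L, ∀ b ∈ R, G.Adj a b → a = v ∨ b = v ∨ G.Adj a v ∨ G.Adj b v) :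
    ∃ I ∈ inds G S, ∀ K : Finset V, K ⊆ S → G.IsClique (↑K : Set V) → ∑ u ∈ K, x u = 1 →
      (K ∩ I).Nonempty := by
  obtain ⟨I, hI, hvI, hIK⟩ := exists_hit h1 (v := v) (by simpa [res, hvL] using hv)
  obtain ⟨J, hJ, hvJ, hJK⟩ := exists_hit h2 (v := v) (by simpa [res, hvR] using hv)
  rw [mem_inds] at hI hJ
  have cross : ∀ a ∈ I, ∀ b ∈ J, ¬ G.Adj a b := by
    intro a ha b hb hab
    rcases hadj a (hI.1 ha) b (hJ.1 hb) hab with h | h | h | h
    · subst h; exact hJ.2 hvJ hb hab.ne hab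
    · subst h; exact hI.2 ha hvI hab.ne hab
    · exact hI.2 ha hvI h.ne h
    · exact hJ.2 hb hvJ h.ne h
  refine ⟨I ∪ J, mem_inds.2 ⟨Finset.union_subset (hI.1.trans hL) (hJ.1.trans hR), ?_⟩, ?_⟩
  · intro a ha b hb hne hab
    simp only [Finset.coe_union, Set.mem_union, Finset.mem_coe] at ha hb
    rcases ha with ha | ha <;> rcases hb with hb | hb
    · exact hI.2 ha hb hne hab
    · exact cross a ha b hb hab
    · exact cross b hb a ha hab.symm
    · exact hJ.2 ha hb hne hab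
  · intro K hK hc hs
    rcases hcl K hK hc with h | h
    · obtain ⟨a, ha⟩ := hIK K hc (by
        rw [← hs]; exact Finset.sum_congr rfl fun u hu => by simp [res, h hu])
      exact ⟨a, by simp only [Finset.mem_inter, Finset.mem_union] at ha ⊢; tauto⟩
    · obtain ⟨a, ha⟩ := hJK K hc (by
        rw [← hs]; exact Finset.sum_congr rfl fun u hu => by simp [res, h hu])
      exact ⟨a, by simp only [Finset.mem_inter, Finset.mem_union] at ha ⊢; tauto⟩

theorem strip_perfect (C : Coord G) (r e : ℤ) (S : Finset V) :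
    (∀ v ∈ S, ((C.ρ v - r) / 3) % 2 = e) → ∀ x ∈ Q G S, x ∈ Stab G S := by
  induction S using Finset.strongInduction with
  | H S ih =>
  intro hS
  have ih' : ∀ T ⊂ S, ∀ x ∈ Q G S, res T x ∈ Stab G T := fun T hT x hx =>
    ih T hT (fun v hv => hS v (hT.1 hv)) _ (res_mem_Q hx hT.1)
  by_cases hbip : ∃ ψ : V → Prop, ∀ u ∈ S, ∀ v ∈ S, G.Adj u v → (ψ u ↔ ¬ ψ v)
  · obtain ⟨ψ, hψ⟩ := hbip
    exact bip_mem ψ hψ
  have := descent (G := G) (S := S) (t := 1) one_pos (fun x hx => ?_)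
  · simpa using this
  suffices h : x ∈ Stab G S ∨ ((∀ v ∈ S, 0 < x v) ∧ ∃ I ∈ inds G S, ∀ K : Finset V, K ⊆ S →
      G.IsClique (↑K : Set V) → ∑ u ∈ K, x u = 1 → (K ∩ I).Nonempty) by
    rcases h with h | ⟨hp, I, hI, h⟩
    · exact ⟨x, h, fun _ h => h, fun K _ _ h => h.ge⟩
    · refine ⟨ind I, ind_mem hI, fun v hv => ?_, fun K hK hc hs => ?_⟩
      · have : v ∉ I := fun h => (hp v ((mem_inds.1 hI).1 h)).ne' hv
        simp [ind, this]
      · rw [sum_ind_le_one (mem_inds.1 hI).2 hc, if_pos (h K hK hc hs)]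
  by_cases hz : ∃ v ∈ S, x v = 0
  · obtain ⟨v, hv, hxv⟩ := hz
    left
    have := ih' (S.erase v) (Finset.erase_ssubset hv) x hx
    have e : res (S.erase v) x = x := by
      ext u
      by_cases h : u ∈ S.erase v
      · simp only [res, h, if_true]
      · simp only [res, h, if_false]
        rw [Finset.mem_erase] at h
        by_cases h' : u = v
        · rw [h', hxv]
        · exact (hx.2.1 u (fun h'' => h ⟨h', h''⟩)).symm
    rw [e] at this
    exact Stab_mono (Finset.erase_subset _ _) this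
  push Not at hz
  have hp : ∀ v ∈ S, 0 < x v := fun v hv => lt_of_le_of_ne (hx.1 v) (hz v hv).symm
  by_cases h2 : ∃ u ∈ S, ∃ v ∈ S, (C.ρ u - r) / 3 ≠ (C.ρ v - r) / 3
  · obtain ⟨u, hu, v, hv, huv⟩ := h2
    left
    set A := S.filter (fun w => (C.ρ w - r) / 3 = (C.ρ u - r) / 3) with hA
    set B := S.filter (fun w => ¬ (C.ρ w - r) / 3 = (C.ρ u - r) / 3) with hB
    have hAS : A ⊂ S := Finset.filter_ssubset.2 ⟨v, hv, huv.symm⟩
    have hBS : B ⊂ S := Finset.filter_ssubset.2 ⟨u, hu, by simp⟩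
    have hemp : ∀ w ∈ B, A.filter (G.Adj w) = ∅ := by
      intro w hw
      rw [Finset.filter_eq_empty_iff]
      intro a ha hadj
      simp only [hA, hB, Finset.mem_filter] at ha hw
      have h3 := C.bd hadj
      have h4 := ar_sep _ _ r e (fun h => hw.2 (h.trans ha.2)) (hS w hw.1) (hS a ha.1)
      clear ha hw huv
      omega
    have := prod_mem hAS.1 hBS.1 (Finset.disjoint_filter_filter_not _ _ _) (ih' A hAS x hx)
      (ih' B hBS x hx) (fun w hw => by rw [hemp w hw]; simp)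
    convert this using 1
    ext w
    by_cases hw : w ∈ B
    · have : w ∉ A := by simp only [hA, hB, Finset.mem_filter] at hw ⊢; tauto
      simp [res, hw, this, hemp w hw]
    · by_cases hw' : w ∈ A
      · simp [res, hw, hw']
      · have : w ∉ S := by simp only [hA, hB, Finset.mem_filter] at hw hw'; tauto
        simp [res, hw, hw', hx.2.1 w this]
  push Not at h2
  right
  refine ⟨hp, ?_⟩
  by_cases hc1 : ∃ v ∈ S, (C.ρ v - r) % 3 = 1 ∧ ∃ a ∈ S, ∃ b ∈ S, ∃ k : ℤ, (k = 0 ∨ k = 1) ∧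
      C.ξ a < C.ξ v - k ∧ C.ξ v + 1 - k < C.ξ b
  · obtain ⟨v, hv, hm, a, ha, b, hb, k, hk, hav, hbv⟩ := hc1
    have hrow : ∀ w ∈ S, C.ρ w - C.ρ v ≤ 1 ∧ C.ρ v - C.ρ w ≤ 1 := fun w hw =>
      ar_row _ _ r (h2 w hw v hv) hm
    clear hm
    have hL : S.filter (fun w => C.ξ w ≤ C.ξ v + 1 - k) ⊂ S :=
      Finset.filter_ssubset.2 ⟨b, hb, by omega⟩
    have hR : S.filter (fun w => C.ξ v - k ≤ C.ξ w) ⊂ S :=
      Finset.filter_ssubset.2 ⟨a, ha, by omega⟩
    refine split_hit hL.1 hR.1 (ih' _ hL x hx) (ih' _ hR x hx) (v := v)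
      (Finset.mem_filter.2 ⟨hv, by omega⟩) (Finset.mem_filter.2 ⟨hv, by omega⟩) (hp v hv) ?_ ?_
    · intro K hK hc
      by_contra hn
      rw [not_or, Finset.not_subset, Finset.not_subset] at hn
      obtain ⟨⟨p, hp, hp'⟩, ⟨q, hq, hq'⟩⟩ := hn
      simp only [Finset.mem_filter, hK hp, hK hq, true_and] at hp' hq'
      have hne : p ≠ q := by rintro rfl; omega
      have := C.bd (hc hp hq hne)
      omega
    · intro p hp q hq hpq
      rw [Finset.mem_filter] at hp hq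
      have e1 := C.bd hpq
      by_cases hp2 : C.ξ v - C.ξ p ≤ 2
      · rcases C.near (hrow p hp.1).1 (hrow p hp.1).2 (by omega) hp2 with h | h <;> tauto
      · rcases C.near (hrow q hq.1).1 (hrow q hq.1).2 (by omega) (by omega) with h | h <;> tauto
  by_cases hc2 : ∃ v ∈ S, ∀ u ∈ S, u = v ∨ G.Adj u v
  · obtain ⟨v, hv, hu⟩ := hc2
    refine ⟨{v}, mem_inds.2 ⟨by simpa using hv, by simp⟩, fun K hK hc hs => ⟨v, ?_⟩⟩
    by_contra hn
    have hvK : v ∉ K := by simpa using hn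
    have := hx.2.2 (insert v K) (Finset.insert_subset hv hK) (by
      rw [Finset.coe_insert]
      apply hc.insert
      intro b hb hne
      rcases hu b (hK hb) with h | h
      · exact absurd h.symm hne
      · exact h.symm)
    rw [Finset.sum_insert hvK] at this
    linarith [hp v hv]
  exfalso
  apply hbip
  push Not at hc1 hc2
  have near : ∀ v ∈ S, (C.ρ v - r) % 3 = 1 → ∃ u ∈ S, C.ξ u + 2 < C.ξ v ∨ C.ξ v + 2 < C.ξ u := by
    intro v hv hm
    obtain ⟨u, hu, h1, h3⟩ := hc2 v hv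
    refine ⟨u, hu, ?_⟩
    have e2 := ar_row _ _ r (h2 u hu v hv) hm
    by_contra hn
    push Not at hn
    rcases C.near e2.1 e2.2 (by linarith [hn.2]) (by linarith [hn.1]) with h | h
    exacts [h1 h, h3 h]
  have mid : ∀ v ∈ S, (C.ρ v - r) % 3 = 1 →
      ((∀ u ∈ S, C.ξ v ≤ C.ξ u) ∨ (¬ (∀ u ∈ S, C.ξ v ≤ C.ξ u) ∧ ∀ u ∈ S, C.ξ u ≤ C.ξ v)) := by
    intro v hv hm
    by_cases h : ∀ u ∈ S, C.ξ v ≤ C.ξ u
    · exact Or.inl h
    · refine Or.inr ⟨h, fun u hu => ?_⟩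
      push Not at h
      obtain ⟨a, ha, hav⟩ := h
      obtain ⟨w, hw, hwv⟩ := near v hv hm
      have f1 := hc1 v hv hm a ha w hw 0 (Or.inl rfl)
      have f2 := hc1 v hv hm w hw u hu 1 (Or.inr rfl)
      clear hm
      omega
  refine ⟨fun v => ((if (C.ρ v - r) % 3 = 1 then
      (if ∀ u ∈ S, C.ξ v ≤ C.ξ u then C.ξ v - 1 else C.ξ v + 1) else C.ξ v) / 2) % 2 = 0, ?_⟩
  intro u hu v hv huv
  have e1 := C.bd huv
  have e2 := h2 u hu v hv
  by_cases mu : (C.ρ u - r) % 3 = 1 <;> by_cases mv : (C.ρ v - r) % 3 = 1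
  · exfalso
    obtain ⟨w, hw, hwv⟩ := near v hv mv
    obtain ⟨w', hw', hwv'⟩ := near u hu mu
    have m1 := mid u hu mu
    have m2 := mid v hv mv
    clear e2 mu mv
    rcases m1 with h | h <;> rcases m2 with h' | h'
    · have := h v hv; have := h' u hu; omega
    · have := h w hw; have := h'.2 w hw; omega
    · have := h.2 w' hw'; have := h' w' hw'; omega
    · have := h.2 v hv; have := h'.2 u hu; omega
  · have e3 := C.diff huv (fun h => mv (h ▸ mu))
    simp only [if_pos mu, if_neg mv]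
    apply ar_col
    rcases mid u hu mu with h | h
    · have := h v hv
      rw [if_pos h]; clear e2 mu mv; omega
    · have := h.2 v hv
      rw [if_neg h.1]; clear e2 mu mv; omega
  · have e3 := C.diff huv (fun h => mu (h ▸ mv))
    simp only [if_pos mv, if_neg mu]
    apply ar_col
    rcases mid v hv mv with h | h
    · have := h u hu
      rw [if_pos h]; clear e2 mu mv; omega
    · have := h.2 u hu
      rw [if_neg h.1]; clear e2 mu mv; omega
  · simp only [if_neg mv, if_neg mu]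
    apply ar_col
    exact C.same huv (ar_out _ _ r e2 mu mv e1.1 e1.2.1)

/-- independent sampling of the strips with conflicts resolved by a fair coin -/
theorem strips_mem (C : Coord G) (r : ℤ) {S : Finset V} {x : V → ℝ} (hx : x ∈ Q G S) :
    (fun v => x v * (1 - (1 / 2) * ∑ u ∈ S.filter (fun u => G.Adj v u ∧
      (C.ρ u - r) / 3 ≠ (C.ρ v - r) / 3), x u)) ∈ Stab G S := by
  set A : ℤ → Finset V := fun e => S.filter (fun w => ((C.ρ w - r) / 3) % 2 = e) with hA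
  have hAS : ∀ e, A e ⊆ S := fun e => Finset.filter_subset _ _
  have hSt : ∀ e, res (A e) x ∈ Stab G (A e) := fun e =>
    strip_perfect C r e (A e) (fun v hv => (Finset.mem_filter.1 hv).2) _ (res_mem_Q hx (hAS e))
  have hcl : ∀ e e', e ≠ e' → ∀ v ∈ A e', G.IsClique (↑((A e).filter (G.Adj v)) : Set V) := by
    intro e e' hee v hv a ha b hb hne
    simp only [hA, Finset.coe_filter, Finset.mem_filter, Set.mem_ofPred_eq] at ha hb hv
    have e1 := C.bd ha.2
    have e2 := C.bd hb.2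
    have e3 := ar_two _ _ _ r e e' hee ha.1.2 hb.1.2 hv.2 e1.2.1 e1.1 e2.2.1 e2.1
    have e4 := C.diff ha.2 e3.2.symm
    have e5 := C.diff hb.2 (e3.1 ▸ e3.2.symm)
    clear ha hb hv
    rcases C.near (u := a) (v := b) (by omega) (by omega) (by omega) (by omega) with h | h
    exacts [absurd h hne, h]
  have hdis : ∀ e e', e ≠ e' → Disjoint (A e) (A e') := by
    intro e e' hee
    rw [Finset.disjoint_left]
    intro a ha hb
    simp only [hA, Finset.mem_filter] at ha hb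
    exact hee (ha.2.symm.trans hb.2)
  have h1 := prod_mem (hAS 0) (hAS 1) (hdis 0 1 (by norm_num)) (hSt 0) (hSt 1) (hcl 0 1 (by norm_num))
  have h2 := prod_mem (hAS 1) (hAS 0) (hdis 1 0 (by norm_num)) (hSt 1) (hSt 0) (hcl 1 0 (by norm_num))
  have := convex_Stab S h1 h2 (a := 1 / 2) (b := 1 / 2) (by norm_num) (by norm_num) (by norm_num)
  convert this using 1
  ext v
  simp only [Pi.add_apply, Pi.smul_apply, smul_eq_mul]
  by_cases hv : v ∈ S
  · have key : ∀ e, ((C.ρ v - r) / 3) % 2 ≠ e → (e = 0 ∨ e = 1) →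
        ∑ u ∈ (A e).filter (G.Adj v), res (A e) x u = ∑ u ∈ S.filter (fun u => G.Adj v u ∧
          (C.ρ u - r) / 3 ≠ (C.ρ v - r) / 3), x u := by
      intro e he he'
      apply Finset.sum_congr
      · ext u
        simp only [hA, Finset.mem_filter]
        constructor
        · rintro ⟨⟨h1, h2⟩, h3⟩
          exact ⟨h1, h3, fun h => he (h ▸ h2)⟩
        · rintro ⟨h1, h2, h3⟩
          have := C.bd h2
          exact ⟨⟨h1, ar_par _ _ r e he he' h3 this.2.1 this.1⟩, h2⟩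
      · intro u hu
        have : u ∈ A e := by
          simp only [hA, Finset.mem_filter] at hu ⊢
          have := C.bd hu.2.1
          exact ⟨hu.1, ar_par _ _ r e he he' hu.2.2 this.2.1 this.1⟩
        simp [res, this]
    rcases Int.emod_two_eq_zero_or_one ((C.ρ v - r) / 3) with h | h
    · have m0 : v ∈ A 0 := Finset.mem_filter.2 ⟨hv, h⟩
      have m1 : v ∉ A 1 := by simp [hA, h]
      rw [key 1 (by rw [h]; norm_num) (Or.inr rfl)]
      simp only [res, m0, m1, if_true, if_false]; ring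
    · have m0 : v ∉ A 0 := by simp [hA, h]
      have m1 : v ∈ A 1 := Finset.mem_filter.2 ⟨hv, h⟩
      rw [key 0 (by rw [h]; norm_num) (Or.inl rfl)]
      simp only [res, m0, m1, if_true, if_false]; ring
  · have m0 : v ∉ A 0 := fun h => hv (hAS 0 h)
    have m1 : v ∉ A 1 := fun h => hv (hAS 1 h)
    simp [res, m0, m1, hx.2.1 v hv]

end Pool.Agent.Lib.MP_ae9f52_co
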