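import Pool.Agent.Lib.MP_ae9f52_co.Dual

/-! Triangle-free induced subgraphs: from integer weights to the stable set polytope. -/

set_option autoImplicit false
open Classical Finset

namespace Pool.Agent.Lib.MP_ae9f52_co

theorem four_ninths {S : Finset (ℤ × ℤ)} (tf : TF (· ∈ S)) : (4 / 9 : ℝ) • ind S ∈ Stab T S := by
  by_contra hn
  obtain ⟨f, u, hf, hu⟩ := geometric_hahn_banach_closed_point (convex_Stab S)
    (isCompact_Stab S).isClosed hn
  set b : ℤ × ℤ → ℝ := fun v => f (Pi.single v 1) with hb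
  have hfi : ∀ I : Finset (ℤ × ℤ), f (ind I) = ∑ v ∈ I, b v := by
    intro I
    rw [← map_sum]
    congr 1
    ext v
    simp [ind, Finset.sum_apply, Pi.single_apply]
  rw [map_smul, hfi, smul_eq_mul] at hu
  obtain ⟨N, hN⟩ := exists_nat_gt (4 * (S.card : ℝ) / (4 * ∑ v ∈ S, b v - 9 * u))
  rw [div_lt_iff₀ (by linarith)] at hN
  obtain ⟨I, hI, h⟩ := exists_indep tf (fun v => ⌊N * b v⌋₊)
  rw [mem_inds] at hI
  have h1 := hf _ (ind_mem (mem_inds.2 ⟨(Finset.filter_subset (fun v => 0 ≤ b v) I).trans hI.1,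
    hI.2.mono (by rw [Finset.coe_subset]; exact Finset.filter_subset _ _)⟩))
  rw [hfi, Finset.sum_filter] at h1
  have h2 : ((∑ v ∈ I, ⌊N * b v⌋₊ : ℕ) : ℝ) ≤ N * ∑ v ∈ I, if 0 ≤ b v then b v else 0 := by
    rw [Nat.cast_sum, Finset.mul_sum]
    apply Finset.sum_le_sum
    intro v _
    split_ifs with hv
    · exact Nat.floor_le (by positivity)
    · rw [Nat.floor_of_nonpos (mul_nonpos_of_nonneg_of_nonpos (by positivity) (by linarith))]; simp
  have h3 : N * ∑ v ∈ S, b v - S.card ≤ ((∑ v ∈ S, ⌊N * b v⌋₊ : ℕ) : ℝ) := by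
    rw [Nat.cast_sum, Finset.mul_sum, Finset.card_eq_sum_ones, Nat.cast_sum, ← Finset.sum_sub_distrib]
    apply Finset.sum_le_sum
    intro v _
    have := Nat.lt_floor_add_one (N * b v)
    push_cast; linarith
  have h4 : (4 : ℝ) * ((∑ v ∈ S, ⌊N * b v⌋₊ : ℕ) : ℝ) ≤ 9 * ((∑ v ∈ I, ⌊N * b v⌋₊ : ℕ) : ℝ) := by
    exact_mod_cast h
  have h5 := mul_le_mul_of_nonneg_left h1.le (Nat.cast_nonneg N : (0 : ℝ) ≤ N)
  nlinarith

theorem triangle_free {S : Finset (ℤ × ℤ)}
    (hS : ∀ a ∈ S, ∀ b ∈ S, ∀ c ∈ S, ¬ (T.Adj a b ∧ T.Adj b c ∧ T.Adj a c)) :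
    ∀ x ∈ Q T S, (9 / 8 : ℝ)⁻¹ • x ∈ Stab T S := by
  rw [show (9 / 8 : ℝ)⁻¹ = 8 / 9 by norm_num]
  apply descent (by norm_num)
  intro x hx
  set A := S.filter (fun v => x v ≠ 0 ∧ x v ≠ 1) with hA
  set B := S.filter (fun v => x v = 1) with hB
  have pair : ∀ u ∈ S, ∀ v ∈ S, T.Adj u v → x u + x v ≤ 1 := by
    intro u hu v hv h
    have := hx.2.2 {u, v} (by intro w hw; simp at hw; rcases hw with rfl | rfl; exacts [hu, hv])
      (by simpa [SimpleGraph.isClique_pair] using fun _ => h)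
    rwa [Finset.sum_pair h.ne] at this
  have hemp : ∀ v ∈ B, A.filter (T.Adj v) = ∅ := by
    intro v hv
    rw [Finset.filter_eq_empty_iff]
    intro u hu h
    rw [Finset.mem_filter] at hu hv
    have := pair v hv.1 u hu.1 h
    exact hu.2.1 (by linarith [hx.1 u, hv.2])
  have h1 := four_ninths (S := A) (fun p k a b c => hS _ (Finset.mem_filter.1 a).1 _
    (Finset.mem_filter.1 b).1 _ (Finset.mem_filter.1 c).1
    ⟨adj_dir p k, (adj_dir_dir p k (k + 1)).2 (Or.inl rfl), adj_dir p (k + 1)⟩)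
  have h2 : ind B ∈ Stab T B := ind_mem (mem_inds.2 ⟨Finset.Subset.refl _, by
    intro u hu v hv _ h
    rw [Finset.mem_coe, Finset.mem_filter] at hu hv
    have := pair u hu.1 v hv.1 h
    linarith [hu.2, hv.2]⟩)
  have h3 := prod_mem (S := S) (A := A) (B := B) (Finset.filter_subset _ _) (Finset.filter_subset _ _)
    (Finset.disjoint_left.2 fun v h h' => (Finset.mem_filter.1 h).2.2 (Finset.mem_filter.1 h').2)
    h1 h2 (fun v hv => by rw [hemp v hv]; simp)
  have h4 : (fun v => 4 / 9 * ind A v + ind B v) ∈ Stab T S := by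
    convert h3 using 2 with v
    by_cases hv : v ∈ B
    · rw [hemp v hv]; simp
    · simp [ind, hv]
  have nn : ∀ (I : Finset (ℤ × ℤ)) v, 0 ≤ ind I v := fun I v => by unfold ind; split_ifs <;> norm_num
  refine ⟨_, h4, fun v hv => by simp [ind, hA, hB, hv], fun K hK hc hs => ?_⟩
  by_cases h5 : ∃ v ∈ K, x v = 1
  · obtain ⟨v, hv, h⟩ := h5
    refine le_trans ?_ (Finset.single_le_sum (f := fun v => 4 / 9 * ind A v + ind B v)
      (fun v _ => by have := nn A v; have := nn B v; positivity) hv)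
    have : ind B v = 1 := by simp [ind, hB, hK hv, h]
    have := nn A v
    linarith
  · push Not at h5
    obtain ⟨a, ha, hxa⟩ : ∃ a ∈ K, x a ≠ 0 := by
      by_contra hn; push Not at hn
      rw [Finset.sum_eq_zero hn] at hs; norm_num at hs
    obtain ⟨b, hb, hba, hxb⟩ : ∃ b ∈ K, b ≠ a ∧ x b ≠ 0 := by
      by_contra hn; push Not at hn
      apply h5 a ha
      rw [← hs, Finset.sum_eq_single a (fun b hb' hne => hn b hb' hne) (fun h => absurd ha h)]
    refine le_trans ?_ (Finset.sum_le_sum_of_subset_of_nonneg (s := {b, a})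
      (by intro w hw; simp at hw; rcases hw with rfl | rfl; exacts [hb, ha])
      (fun v _ _ => by have := nn A v; have := nn B v; positivity))
    rw [Finset.sum_pair hba]
    have e1 : ind A a = 1 := by simp [ind, hA, hK ha, hxa, h5 a ha]
    have e2 : ind A b = 1 := by simp [ind, hA, hK hb, hxb, h5 b hb]
    linarith [nn B a, nn B b]

end Pool.Agent.Lib.MP_ae9f52_co
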